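import Pool.Agent.H69M.Strong

/-!
# Intw : compactness of the set of intertwiners of norm at most one

`intw`. For all `v`, `w` the numbers `⟪v, T i w⟫` lie in the closed ball of radius `‖v‖ ‖w‖`, which is compact, so they
converge along the ultrafilter `l` (`IsCompact.ultrafilter_le_nhds`) to a number `B v w`. `B` is sesquilinear
(additive in both variables, `B v (c w) = c B v w`, `B (c v) w = conj c B v w`; limits are unique) and
`|B v w| ≤ ‖v‖ ‖w‖`. So there is a bounded operator `T'` with `⟪v, T' w⟫ = B v w`, `‖T'‖ ≤ 1` (for fixed `w`, `v ↦ conj (B v w)` is a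
bounded linear functional: `InnerProductSpace.toDual` / `LinearMap.mkContinuous`; or
`InnerProductSpace.continuousLinearMapOfBilin`; then `LinearMap.mkContinuous` in `w`). Intertwining:
`⟪v, T' (π a w)⟫ = lim ⟪v, T i (π a w)⟫ = lim ⟪v, T i (p i a w)⟫` since `|⟪v, T i (p i a w - π a w)⟫| ≤ ‖v‖ ‖p i a w - π a w‖ → 0`
(`tendsto_strong`), `= lim ⟪v, q i a (T i w)⟫ = lim ⟪q i (star a) v, T i w⟫` (`op_star`) `= lim ⟪ρ (star a) v, T i w⟫` (strong
convergence of `q i (star a) v`, `‖T i w‖ ≤ ‖w‖`) `= ⟪ρ (star a) v, T' w⟫ = ⟪v, ρ a (T' w)⟫`.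
-/

namespace H69M

open TopologicalSpace MeasureTheory Set Topology Filter
open MBS DX
open scoped InnerProductSpace

noncomputable section

variable {A : Type} [NonUnitalCStarAlgebra A] {n : Dim}

theorem norm_inner_eq_norm_mul_self_intw {E : Type} [NormedAddCommGroup E]
    [InnerProductSpace ℂ E] (x : E) : ‖⟪x, x⟫_ℂ‖ = ‖x‖ * ‖x‖ := by
  rw [inner_self_eq_norm_sq_to_K]
  simp [sq]

/-- Bounded families of operators converge weakly along an ultrafilter. -/
theorem weakLim_intw {E : Type} [NormedAddCommGroup E] [InnerProductSpace ℂ E] [CompleteSpace E]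
    {ι : Type} (l : Ultrafilter ι) (T : ι → E →L[ℂ] E) (hT : ∀ i, ‖T i‖ ≤ 1) :
    ∃ T' : E →L[ℂ] E, ‖T'‖ ≤ 1 ∧
      ∀ v w, Tendsto (fun i => ⟪v, T i w⟫_ℂ) l (𝓝 ⟪v, T' w⟫_ℂ) := by
  have hb : ∀ (i : ι) (v w : E), ‖⟪v, T i w⟫_ℂ‖ ≤ ‖v‖ * ‖w‖ := by
    intro i v w
    refine (norm_inner_le_norm v (T i w)).trans ?_
    refine mul_le_mul_of_nonneg_left ?_ (norm_nonneg v)
    refine ((T i).le_opNorm w).trans ?_
    calc ‖T i‖ * ‖w‖ ≤ 1 * ‖w‖ := mul_le_mul_of_nonneg_right (hT i) (norm_nonneg w)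
      _ = ‖w‖ := one_mul _
  have hlim : ∀ v w : E, ∃ c : ℂ, ‖c‖ ≤ ‖v‖ * ‖w‖ ∧ Tendsto (fun i => ⟪v, T i w⟫_ℂ) l (𝓝 c) := by
    intro v w
    have hK : IsCompact (Metric.closedBall (0 : ℂ) (‖v‖ * ‖w‖)) := isCompact_closedBall _ _
    have hmem : ↑(l.map (fun i => ⟪v, T i w⟫_ℂ)) ≤ 𝓟 (Metric.closedBall (0 : ℂ) (‖v‖ * ‖w‖)) := by
      rw [Filter.le_principal_iff]
      change (fun i => ⟪v, T i w⟫_ℂ) ⁻¹' (Metric.closedBall (0 : ℂ) (‖v‖ * ‖w‖)) ∈ l
      filter_upwards with i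
      simpa using hb i v w
    obtain ⟨c, hc, hc'⟩ := hK.ultrafilter_le_nhds _ hmem
    exact ⟨c, by simpa using hc, hc'⟩
  choose B hB hBt using hlim
  have hne : (l : Filter ι).NeBot := l.neBot'
  let L : E →ₗ⋆[ℂ] E →ₗ[ℂ] ℂ := LinearMap.mk₂'ₛₗ (starRingEnd ℂ) (RingHom.id ℂ) B
    (fun v₁ v₂ w => by
      refine tendsto_nhds_unique (hBt (v₁ + v₂) w) ?_
      simpa only [inner_add_left] using (hBt v₁ w).add (hBt v₂ w))
    (fun c v w => by
      refine tendsto_nhds_unique (hBt (c • v) w) ?_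
      simpa only [inner_smul_left, smul_eq_mul] using (hBt v w).const_mul (starRingEnd ℂ c))
    (fun v w₁ w₂ => by
      refine tendsto_nhds_unique (hBt v (w₁ + w₂)) ?_
      simpa only [map_add, inner_add_right] using (hBt v w₁).add (hBt v w₂))
    (fun c v w => by
      refine tendsto_nhds_unique (hBt v (c • w)) ?_
      simpa only [map_smul, inner_smul_right, smul_eq_mul, RingHom.id_apply] using
        (hBt v w).const_mul c)
  have hLb : ∀ v w, ‖L v w‖ ≤ 1 * ‖v‖ * ‖w‖ := by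
    intro v w
    rw [one_mul]
    exact hB v w
  let Lc : E →L⋆[ℂ] E →L[ℂ] ℂ := LinearMap.mkContinuous₂ L 1 hLb
  let S : E →L[ℂ] E := InnerProductSpace.continuousLinearMapOfBilin Lc
  have hS : ∀ v w, ⟪S v, w⟫_ℂ = B v w := by
    intro v w
    rw [InnerProductSpace.continuousLinearMapOfBilin_apply]
    rfl
  refine ⟨ContinuousLinearMap.adjoint S, ?_, ?_⟩
  · rw [LinearIsometryEquiv.norm_map]
    refine ContinuousLinearMap.opNorm_le_bound _ zero_le_one ?_
    intro v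
    rw [one_mul]
    have h1 : ‖S v‖ * ‖S v‖ ≤ ‖v‖ * ‖S v‖ := by
      have h2 := hB v (S v)
      rw [← hS v (S v)] at h2
      rw [← norm_inner_eq_norm_mul_self_intw (S v)]
      exact h2
    rcases (norm_nonneg (S v)).eq_or_lt with h0 | h0
    · rw [← h0]; exact norm_nonneg v
    · exact le_of_mul_le_mul_right h1 h0
  · intro v w
    rw [ContinuousLinearMap.adjoint_inner_right, hS]
    exact hBt v w

theorem intw {ι : Type} (l : Ultrafilter ι) (p q : ι → RepT A n) (π ρ : RepT A n)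
    (hp : Tendsto p l (𝓝 π)) (hq : Tendsto q l (𝓝 ρ)) (T : ι → HSp n →L[ℂ] HSp n)
    (hT : ∀ i, ‖T i‖ ≤ 1) (hTi : ∀ i a, T i ∘L (p i).op a = (q i).op a ∘L T i) :
    ∃ T' : HSp n →L[ℂ] HSp n, ‖T'‖ ≤ 1 ∧ (∀ a, T' ∘L π.op a = ρ.op a ∘L T') ∧
      ∀ v w, Tendsto (fun i => ⟪v, T i w⟫_ℂ) l (𝓝 ⟪v, T' w⟫_ℂ) := by
  obtain ⟨T', hT', hlim⟩ := weakLim_intw l T hT
  have hne : (l : Filter ι).NeBot := l.neBot'
  refine ⟨T', hT', ?_, hlim⟩
  intro a
  ext1 w
  refine ext_inner_left ℂ fun v => ?_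
  change ⟪v, T' (π.op a w)⟫_ℂ = ⟪v, ρ.op a (T' w)⟫_ℂ
  rw [← op_star ρ a v (T' w)]
  have hps := (tendsto_strong p π).1 hp a w
  have hqs := (tendsto_strong q ρ).1 hq (star a) v
  have hTle : ∀ i x, ‖T i x‖ ≤ ‖x‖ := by
    intro i x
    refine ((T i).le_opNorm x).trans ?_
    calc ‖T i‖ * ‖x‖ ≤ 1 * ‖x‖ := mul_le_mul_of_nonneg_right (hT i) (norm_nonneg x)
      _ = ‖x‖ := one_mul _
  -- the two limits
  have h1 : Tendsto (fun i => ⟪v, T i ((p i).op a w)⟫_ℂ) l (𝓝 ⟪v, T' (π.op a w)⟫_ℂ) := by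
    have h0 : Tendsto (fun i => ⟪v, T i ((p i).op a w - π.op a w)⟫_ℂ) l (𝓝 0) := by
      refine squeeze_zero_norm (a := fun i => ‖v‖ * ‖(p i).op a w - π.op a w‖) ?_ ?_
      · intro i
        refine (norm_inner_le_norm v _).trans ?_
        exact mul_le_mul_of_nonneg_left (hTle i _) (norm_nonneg v)
      · have := ((tendsto_iff_norm_sub_tendsto_zero.1 hps).const_mul ‖v‖)
        simpa using this
    have h2 := h0.add (hlim v (π.op a w))
    rw [zero_add] at h2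
    refine h2.congr fun i => ?_
    rw [map_sub, inner_sub_right, sub_add_cancel]
  have h3 : Tendsto (fun i => ⟪v, T i ((p i).op a w)⟫_ℂ) l (𝓝 ⟪ρ.op (star a) v, T' w⟫_ℂ) := by
    have h0 : Tendsto (fun i => ⟪(q i).op (star a) v - ρ.op (star a) v, T i w⟫_ℂ) l (𝓝 0) := by
      refine squeeze_zero_norm (a := fun i => ‖(q i).op (star a) v - ρ.op (star a) v‖ * ‖w‖) ?_ ?_
      · intro i
        refine (norm_inner_le_norm _ _).trans ?_
        exact mul_le_mul_of_nonneg_left (hTle i _) (norm_nonneg _)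
      · have := ((tendsto_iff_norm_sub_tendsto_zero.1 hqs).mul_const ‖w‖)
        simpa using this
    have h2 := h0.add (hlim (ρ.op (star a) v) w)
    rw [zero_add] at h2
    refine h2.congr fun i => ?_
    rw [inner_sub_left, sub_add_cancel, op_star]
    have h4 := congrArg (fun S : HSp n →L[ℂ] HSp n => S w) (hTi i a)
    change T i ((p i).op a w) = (q i).op a (T i w) at h4
    rw [h4]
  exact tendsto_nhds_unique h1 h3

end

end H69M
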