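import Pool.Agent.H69M.NSch
import Pool.Agent.H69M.Intw

/-!
# FnCl : the closed sets `FN A n k`

* `FN_closed`: as `red_closed` in `IrrGd.lean` (independent of it): for `(π, ρ)` in the closure take an ultrafilter
  on (the subtype of) the set, converging to `(π, ρ)`, and intertwiners `T` for its members; `intw` with `p = toRep ∘ fst`,
  `q = toRep ∘ snd` gives `T'`; for almost all members of the ultrafilter the third condition of `IsItw` holds
  for one fixed pair `(i, j)`, and passes to the limit.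
* `FN_mono`: `1 / (k + 2) ≤ 1 / (k + 1)`.
* `FN_symm`: the adjoint of `T`: `T* ρ(a) = (ρ(a*) T)* = (T π(a*))* = π(a) T*`, `‖T*‖ = ‖T‖`,
  `⟪e_j, T* e_i⟫ = conj ⟪e_i, T e_j⟫`.
* `FN_iff`: `(∃ k, (π, ρ) ∈ FN A n k)` iff `π`, `ρ` are unitarily equivalent: (→) `nschur_equiv` (`T ≠ 0` because a matrix
  coefficient is not zero). (←) `T = U`, of norm `≤ 1`; it is not zero, so it has a nonzero matrix coefficient at some
  pair of standard basis vectors (they span a dense subspace); choose `k` large.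
* `dim_eq`: `HSp n ≃ₗᵢ HSp m` implies `n = m`: for `some n`, `HSp` has dimension `n + 1`, for `none` it is infinite dimensional
  (`Idx none = ℕ`, the vectors `δ i` are orthonormal, so linearly independent).
* `FX_iff`: combine `FN_iff` and `dim_eq`.
* `FX_closed`: `NIrr A = Σ n, NIrrN A n`; a point `(⟨n, π⟩, ⟨m, ρ⟩)` outside `FX A k`: if `n ≠ m` the open set
  `(fibre over n) ×ˢ (fibre over m)` is disjoint from `FX A k`; if `n = m`, `(π, ρ)` has an open neighborhood disjoint from `FN A n k`,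
  and its image under the open embedding `Sigma.mk n × Sigma.mk n` is as desired. Alternatively:
  `isClosed_sigma_iff`-like lemmas, or `isOpen_sigma_iff` and `Homeomorph`s.
* `FX_mono`, `FX_symm`: from the statements for `FN`.
-/

namespace H69M

open TopologicalSpace MeasureTheory Set Topology Filter
open MBS DX
open scoped InnerProductSpace

noncomputable section

variable {A : Type} [NonUnitalCStarAlgebra A]

theorem δ_ne_zero {G : Type} (g : G) : (δ g : L2 G) ≠ 0 := by
  classical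
  intro h
  have h1 : (δ g : L2 G) g = (0 : L2 G) g := by rw [h]
  simp only [δ, lp.single_apply, Pi.single_eq_same] at h1
  exact one_ne_zero h1

theorem inner_δ_left {G : Type} (g : G) (v : L2 G) : ⟪(δ g : L2 G), v⟫_ℂ = v g := by
  classical
  have h1 : (δ g : L2 G) = lp.single 2 g (1 : ℂ) := by
    unfold δ
    congr
  rw [h1, lp.inner_single_left]
  simp

theorem bvec_surj (n : Dim) (g : Idx n) : ∃ i, bvec n i = δ g := by
  cases n with
  | none => exact ⟨g, rfl⟩
  | some n =>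
    refine ⟨(show Fin (n + 1) from g).val, ?_⟩
    unfold bvec
    simp only [Fin.is_lt, dif_pos]
    rfl

theorem FN_closed (n : Dim) (k : ℕ) : IsClosed (FN A n k) := by
  classical
  rw [isClosed_iff_ultrafilter]
  intro x u hux huF
  have hc1 : Tendsto (fun p : NIrrN A n × NIrrN A n => toRep p.1) u (𝓝 (toRep x.1)) :=
    (((isEmbedding_toRep n).continuous.comp continuous_fst).tendsto x).mono_left hux
  have hc2 : Tendsto (fun p : NIrrN A n × NIrrN A n => toRep p.2) u (𝓝 (toRep x.2)) :=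
    (((isEmbedding_toRep n).continuous.comp continuous_snd).tendsto x).mono_left hux
  set T : NIrrN A n × NIrrN A n → (HSp n →L[ℂ] HSp n) :=
    fun p => if h : p ∈ FN A n k then h.choose else 0 with hT
  have hTmem : ∀ p ∈ FN A n k, IsItw k (toRep p.1) (toRep p.2) (T p) := by
    intro p hp
    simp only [hT, dif_pos hp]
    exact hp.choose_spec
  obtain ⟨T', h1, h2, h3⟩ := intw u (fun p => toRep p.1) (fun p => toRep p.2) (toRep x.1)
    (toRep x.2) hc1 hc2 T (by
      intro p
      by_cases hp : p ∈ FN A n k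
      · exact (hTmem p hp).1
      · simp only [hT, dif_neg hp, norm_zero]
        exact zero_le_one) (by
      intro p a
      by_cases hp : p ∈ FN A n k
      · exact (hTmem p hp).2.1 a
      · simp only [hT, dif_neg hp]
        simp)
  refine ⟨T', h1, h2, ?_⟩
  have h4 : ∃ i ≤ k, ∃ j ≤ k, ∀ᶠ p in (u : Filter (NIrrN A n × NIrrN A n)),
      (1 : ℝ) / (k + 1) ≤ ‖⟪bvec n i, T p (bvec n j)⟫_ℂ‖ := by
    by_contra hcon
    push Not at hcon
    have h5 : ∀ᶠ p in (u : Filter (NIrrN A n × NIrrN A n)),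
        ∀ i ∈ Finset.range (k + 1), ∀ j ∈ Finset.range (k + 1),
          ¬ (1 : ℝ) / (k + 1) ≤ ‖⟪bvec n i, T p (bvec n j)⟫_ℂ‖ := by
      rw [eventually_all_finset]
      intro i hi
      rw [eventually_all_finset]
      intro j hj
      have h6 := hcon i (by simpa [Nat.lt_succ_iff] using hi) j
        (by simpa [Nat.lt_succ_iff] using hj)
      exact h6.mono fun p hp => not_le.mpr hp
    obtain ⟨p, hp, hpF⟩ := (h5.and huF).exists
    obtain ⟨i, hi, j, hj, hij⟩ := (hTmem p hpF).2.2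
    exact hp i (by simpa [Nat.lt_succ_iff] using hi) j (by simpa [Nat.lt_succ_iff] using hj) hij
  obtain ⟨i, hi, j, hj, hij⟩ := h4
  exact ⟨i, hi, j, hj, ge_of_tendsto (h3 (bvec n i) (bvec n j)).norm hij⟩

theorem FN_mono (n : Dim) (k : ℕ) : FN A n k ⊆ FN A n (k + 1) := by
  rintro p ⟨T, h1, h2, i, hi, j, hj, hij⟩
  refine ⟨T, h1, h2, i, by omega, j, by omega, le_trans ?_ hij⟩
  push_cast
  have hk : (0 : ℝ) ≤ k := Nat.cast_nonneg k
  exact one_div_le_one_div_of_le (by linarith) (by linarith)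

theorem FN_symm (n : Dim) (k : ℕ) {π ρ : NIrrN A n} (h : (π, ρ) ∈ FN A n k) :
    (ρ, π) ∈ FN A n k := by
  obtain ⟨T, h1, h2, i, hi, j, hj, hij⟩ := h
  refine ⟨ContinuousLinearMap.adjoint T, ?_, ?_, j, hj, i, hi, ?_⟩
  · rw [LinearIsometryEquiv.norm_map]
    exact h1
  · intro a
    ext v : 1
    refine ext_inner_left ℂ fun w => ?_
    have e1 : T ((toRep π).op (star a) w) = (toRep ρ).op (star a) (T w) :=
      congrArg (fun S : HSp n →L[ℂ] HSp n => S w) (h2 (star a))
    show ⟪w, ContinuousLinearMap.adjoint T ((toRep ρ).op a v)⟫_ℂ =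
      ⟪w, (toRep π).op a (ContinuousLinearMap.adjoint T v)⟫_ℂ
    rw [ContinuousLinearMap.adjoint_inner_right, ← op_star, ← e1, ← op_star,
      ContinuousLinearMap.adjoint_inner_right]
  · rw [ContinuousLinearMap.adjoint_inner_right, ← inner_conj_symm, RCLike.norm_conj]
    exact hij

theorem FN_iff {n : Dim} (π ρ : NIrrN A n) : (∃ k, (π, ρ) ∈ FN A n k) ↔
    ∃ U : HSp n ≃ₗᵢ[ℂ] HSp n, ∀ (a : A) (v : HSp n), U (π.1 a v) = ρ.1 a (U v) := by
  constructor
  · rintro ⟨k, T, h1, h2, i, hi, j, hj, hij⟩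
    refine nschur_equiv π.2 ρ.2 T ?_ h2
    rintro rfl
    have hk : (0 : ℝ) < 1 / ((k : ℝ) + 1) := Nat.one_div_pos_of_nat
    simp only [ContinuousLinearMap.zero_apply, inner_zero_right, norm_zero] at hij
    linarith
  · rintro ⟨U, hU⟩
    set T : HSp n →L[ℂ] HSp n :=
      (U.toContinuousLinearEquiv : HSp n →L[ℂ] HSp n) with hT
    have hTa : ∀ v, T v = U v := fun v => rfl
    have hne : U (δ (idx0 n)) ≠ 0 := by
      intro h0
      have h1 : ‖(δ (idx0 n) : L2 (Idx n))‖ = 0 := by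
        rw [← U.norm_map, h0, norm_zero]
      exact δ_ne_zero (idx0 n) (norm_eq_zero.mp h1)
    obtain ⟨g, hg⟩ : ∃ g, (U (δ (idx0 n)) : HSp n) g ≠ 0 := by
      by_contra hcon
      push Not at hcon
      apply hne
      apply lp.ext
      funext g
      rw [hcon g]
      rfl
    obtain ⟨i, hi⟩ := bvec_surj n g
    obtain ⟨j, hj⟩ := bvec_surj n (idx0 n)
    obtain ⟨N, hN⟩ := exists_nat_one_div_lt (norm_pos_iff.mpr hg)
    refine ⟨max N (max i j), T, ?_, ?_, i, ?_, j, ?_, ?_⟩
    · refine ContinuousLinearMap.opNorm_le_bound _ zero_le_one fun v => ?_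
      rw [hTa, U.norm_map, one_mul]
    · intro a
      ext v : 1
      exact hU a v
    · exact (le_max_left i j).trans (le_max_right _ _)
    · exact (le_max_right i j).trans (le_max_right _ _)
    · rw [hi, hj, hTa, inner_δ_left]
      refine le_trans ?_ hN.le
      have hk : (N : ℝ) ≤ ((max N (max i j) : ℕ) : ℝ) := by exact_mod_cast le_max_left _ _
      have hN0 : (0 : ℝ) ≤ N := Nat.cast_nonneg N
      exact one_div_le_one_div_of_le (by linarith) (by linarith)

theorem finrank_some (n : ℕ) : Module.finrank ℂ (HSp (some n)) = n + 1 ∧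
    Module.Finite ℂ (HSp (some n)) := by
  have e : HSp (some n) ≃ₗᵢ[ℂ] PiLp 2 (fun _ : Fin (n + 1) => ℂ) :=
    lpPiLpₗᵢ (fun _ : Fin (n + 1) => ℂ) ℂ
  refine ⟨?_, ?_⟩
  · rw [e.toLinearEquiv.finrank_eq]
    exact finrank_euclideanSpace_fin
  · exact Module.Finite.equiv e.toLinearEquiv.symm

theorem not_finite_none (h : Module.Finite ℂ (HSp none)) : False := by
  classical
  have ho : Orthonormal ℂ (fun i : ℕ => (δ (G := ℕ) i : L2 ℕ)) := by
    rw [orthonormal_iff_ite]
    intro i j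
    rw [inner_δ_left]
    simp only [δ, lp.single_apply, Pi.single_apply]
    by_cases hij : i = j
    · rw [if_pos hij, if_pos hij]
    · rw [if_neg hij, if_neg hij]
  have hl := ho.linearIndependent
  have h' : Module.Finite ℂ (L2 ℕ) := h
  have := hl.finite_of_isNoetherian
  exact not_finite ℕ

theorem dim_eq {n m : Dim} (U : HSp n ≃ₗᵢ[ℂ] HSp m) : n = m := by
  cases n with
  | none =>
    cases m with
    | none => rfl
    | some m =>
      exfalso
      have := (finrank_some m).2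
      exact not_finite_none (Module.Finite.equiv U.toLinearEquiv.symm)
  | some n =>
    cases m with
    | none =>
      exfalso
      have := (finrank_some n).2
      exact not_finite_none (Module.Finite.equiv U.toLinearEquiv)
    | some m =>
      have h1 := U.toLinearEquiv.finrank_eq
      rw [(finrank_some n).1, (finrank_some m).1] at h1
      congr 1
      omega

theorem FX_closed (k : ℕ) : IsClosed (FX A k) := by
  set e : ∀ n : Dim, NIrrN A n → NIrr A := fun n π => (⟨n, π⟩ : Σ n : Dim, NIrrN A n) with he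
  have hcl : ∀ n, IsClosedEmbedding (e n) := fun n => IsClosedEmbedding.sigmaMk
  have hop : ∀ n, IsOpenEmbedding (e n) := fun n => IsOpenEmbedding.sigmaMk
  have h1 : FX A k = ⋃ n : Dim, (Prod.map (e n) (e n)) '' FN A n k := by
    ext p
    simp only [mem_iUnion, mem_image]
    constructor
    · rintro ⟨n, π, ρ, rfl, h⟩
      exact ⟨n, (π, ρ), h, rfl⟩
    · rintro ⟨n, ⟨π, ρ⟩, h, rfl⟩
      exact ⟨n, π, ρ, rfl, h⟩
  rw [h1]
  refine LocallyFinite.isClosed_iUnion ?_ ?_
  · rintro ⟨⟨n, π⟩, τ⟩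
    refine ⟨(Set.range (e n)) ×ˢ Set.univ, ?_, ?_⟩
    · refine ((hop n).isOpen_range.prod isOpen_univ).mem_nhds ⟨⟨π, rfl⟩, trivial⟩
    · refine (Set.finite_singleton n).subset ?_
      rintro m ⟨⟨σ, τ'⟩, ⟨⟨π1, ρ1⟩, -, h3⟩, ⟨⟨π2, h4⟩, -⟩⟩
      have h5 : e m π1 = σ := (congrArg Prod.fst h3)
      have h6 : e n π2 = σ := h4
      rw [← h6] at h5
      exact congrArg (fun s : Σ n : Dim, NIrrN A n => s.1) h5
  · intro n
    exact ((hcl n).prodMap (hcl n)).isClosedMap _ (FN_closed n k)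

theorem FX_mono (k : ℕ) : FX A k ⊆ FX A (k + 1) := by
  rintro p ⟨n, π, ρ, rfl, h⟩
  exact ⟨n, π, ρ, rfl, FN_mono n k h⟩

theorem FX_symm (k : ℕ) (σ τ : NIrr A) (h : (σ, τ) ∈ FX A k) : (τ, σ) ∈ FX A k := by
  obtain ⟨n, π, ρ, h1, h2⟩ := h
  simp only [Prod.mk.injEq] at h1
  obtain ⟨rfl, rfl⟩ := h1
  exact ⟨n, ρ, π, rfl, FN_symm n k h2⟩

theorem FX_iff (σ τ : NIrr A) : NEquiv σ τ ↔ ∃ k, (σ, τ) ∈ FX A k := by
  constructor
  · obtain ⟨n, π⟩ := σ
    obtain ⟨m, ρ⟩ := τ
    rintro ⟨U, hU⟩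
    obtain rfl : n = m := dim_eq U
    obtain ⟨k, hk⟩ := (FN_iff π ρ).mpr ⟨U, hU⟩
    exact ⟨k, n, π, ρ, rfl, hk⟩
  · rintro ⟨k, n, π, ρ, h1, h2⟩
    simp only [Prod.mk.injEq] at h1
    obtain ⟨rfl, rfl⟩ := h1
    exact (FN_iff π ρ).mp ⟨k, h2⟩

end

end H69M
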