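import Mathlib

/-!
# GdPol : Polish spaces: G_delta subsets, countable disjoint unions, dense countable subgroups

* `polish_gdelta` (Alexandrov): `s = ⋂ n, U n`, `U n` open (`isGδ_iff_eq_iInter_nat`). Each subtype `U n` is Polish
  (`IsOpen.polishSpace`), so is the countable product `Π n, U n`. The map `s → Π n, U n`, `x ↦ (x, x, ...)` is a closed
  embedding: its range is the closed set of all `y` with `(y n : X) = y 0` for all `n` (such a point lies in all `U n`);
  it is an embedding since composed with the continuous `y ↦ (y 0 : X)` it is the inclusion of `s`.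
  `IsClosedEmbedding.polishSpace`.
* `polish_sigma`: a countable disjoint union of Polish spaces is Polish. (Separable/second countable is clear:
  `SecondCountableTopology` of sigma types of countably many spaces is in Mathlib or easy. Completely metrizable: Mathlib may have
  `Metric.Sigma` (Topology/MetricSpace/Gluing: `Metric.Sigma.metricSpace`, `completeSpace`), or: `⟨i, x⟩ ↦ (i, y)` with `y i = x` and
  `y j` = a fixed point for `j ≠ i` is a closed embedding into `ι × Π i, E i` with `ι` discrete, if all `E i` are
  nonempty; the index set may be restricted to those `i` with `E i` nonempty, or add a point to each `E i`,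
  using `E i ⊕ Unit` or `Option (E i)`.)
* `exists_countable_dense_subgroup`: `Subgroup.closure (range (denseSeq G))`: countable, as the closure of a countable set
  (search `Subgroup.closure`, `Countable`; or: it is the image of the countable free group
  `FreeGroup ℕ` under the homomorphism `FreeGroup.lift (denseSeq G)`: take `D = (FreeGroup.lift (denseSeq G)).range`).
-/

namespace H69M

open TopologicalSpace Set Topology

theorem polish_gdelta {X : Type*} [TopologicalSpace X] [PolishSpace X] {s : Set X}
    (hs : IsGδ s) : PolishSpace s := by
  obtain ⟨U, hU, hsU⟩ := isGδ_iff_eq_iInter_nat.1 hs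
  have hP : ∀ n, PolishSpace (U n) := fun n => (hU n).polishSpace
  have hmem : ∀ x : s, ∀ n, (x : X) ∈ U n := by
    intro x n
    have hx : (x : X) ∈ ⋂ n, U n := by
      rw [← hsU]
      exact x.2
    exact mem_iInter.1 hx n
  let f : s → ∀ n, U n := fun x n => ⟨x, hmem x n⟩
  have hfc : Continuous f :=
    continuous_pi fun n => continuous_subtype_val.subtype_mk _
  have hpc : Continuous (fun y : ∀ n, U n => ((y 0 : U 0) : X)) :=
    continuous_subtype_val.comp (continuous_apply 0)
  have hemb : IsEmbedding f := by
    refine IsEmbedding.of_comp hfc hpc ?_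
    exact IsEmbedding.subtypeVal
  have hrange : range f = {y : ∀ n, U n | ∀ n, ((y n : U n) : X) = ((y 0 : U 0) : X)} := by
    ext y
    constructor
    · rintro ⟨x, rfl⟩ n
      rfl
    · intro hy
      have hy0 : ((y 0 : U 0) : X) ∈ s := by
        rw [hsU]
        refine mem_iInter.2 fun n => ?_
        rw [← hy n]
        exact (y n).2
      refine ⟨⟨_, hy0⟩, ?_⟩
      funext n
      apply Subtype.ext
      exact (hy n).symm
  have hcl : IsClosed (range f) := by
    rw [hrange]
    have : {y : ∀ n, U n | ∀ n, ((y n : U n) : X) = ((y 0 : U 0) : X)} =
        ⋂ n, {y : ∀ n, U n | ((y n : U n) : X) = ((y 0 : U 0) : X)} := by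
      ext y
      rw [mem_iInter]
      exact Iff.rfl
    rw [this]
    refine isClosed_iInter fun n => ?_
    exact isClosed_eq (continuous_subtype_val.comp (continuous_apply n)) hpc
  exact (IsClosedEmbedding.mk hemb hcl).polishSpace

theorem polish_sigma {ι : Type*} [Countable ι] {E : ι → Type*} [∀ i, TopologicalSpace (E i)]
    [∀ i, PolishSpace (E i)] : PolishSpace (Σ i, E i) := by
  infer_instance

theorem exists_countable_dense_subgroup (G : Type*) [Group G] [TopologicalSpace G]
    [SeparableSpace G] : ∃ D : Subgroup G, (D : Set G).Countable ∧ Dense (D : Set G) := by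
  have : Nonempty G := ⟨1⟩
  refine ⟨(FreeGroup.lift (denseSeq G)).range, ?_, ?_⟩
  · have h : (((FreeGroup.lift (denseSeq G)).range : Subgroup G) : Set G) =
        range (FreeGroup.lift (denseSeq G)) := MonoidHom.coe_range _
    rw [h]
    have : Countable (FreeGroup ℕ) := by
      unfold FreeGroup
      infer_instance
    exact countable_range _
  · refine (denseRange_denseSeq G).mono ?_
    rintro _ ⟨n, rfl⟩
    exact ⟨FreeGroup.of n, FreeGroup.lift_apply_of⟩

end H69M
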