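import Pool.Agent.H69M.CDefs
import Pool.Agent.H69M.GdPol

/-!
# UPol : the unitary group is a Polish group

`separable_HSp`: `HSp n = l²(Idx n)`, `Idx n` countable: see the instance `separable_L2` in
`Pool/Agent/H6/TG/Example.lean` (line 171), whose proof can be copied.

`tendsto_UG`: by definition of the topology (`nhds_induced`, `tendsto_pi_nhds`, `Prod.tendsto_iff`): `u i → u` iff
`(u i).ap v → u.ap v` and `(u i)⁻¹.ap v → u⁻¹.ap v` for all `v`.

`UG` is a topological group: `inv` is continuous by symmetry; `mul`: if `u → u₀`, `w → w₀` then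
`‖(u * w).ap v - (u₀ * w₀).ap v‖ ≤ ‖u.ap (w.ap v - w₀.ap v)‖ + ‖u.ap (w₀.ap v) - u₀.ap (w₀.ap v)‖`, the first summand is
`‖w.ap v - w₀.ap v‖`; the inverses `(u w)⁻¹ = w⁻¹ u⁻¹` in the same way.

`UG` is Polish: let `d : ℕ → HSp n` be dense. `J u = fun i => (u.ap (d i), u⁻¹.ap (d i))`, a map to the Polish space
`ℕ → HSp n × HSp n`, is a closed embedding: inducing, as convergence on a dense set implies pointwise convergence
for isometries (3 epsilon); injective; closed range: let `y` be a limit of points `J (u i)` (a sequence,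
or a filter). For each `v` the families `(u i).ap v` and `(u i)⁻¹.ap v` are Cauchy, because they are so for `v = d k` and the
maps are isometries. The limits `u v`, `w v` define linear isometries with `u (w v) = v`, `w (u v) = v`, so a unitary with
`J u = y`. (One may use that a metrizable space is enough to consider sequences:
`isClosed_of_...`, `mem_closure_iff_seq_limit`.)
-/

namespace H69M

open TopologicalSpace MeasureTheory Set Topology Filter
open MBS DX
open scoped InnerProductSpace

noncomputable section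

instance separable_HSp (n : Dim) : SeparableSpace (HSp n) := by
  classical
  rw [← isSeparable_univ_iff]
  have h1 : IsSeparable ((Submodule.span ℂ
      (Set.range (fun i : Idx n => (lp.single 2 i (1 : ℂ) : HSp n))) :
      Submodule ℂ (HSp n)) : Set (HSp n)) :=
    (Set.countable_range _).isSeparable.span
  apply h1.closure.mono
  intro f _
  have h2 := lp.hasSum_single (p := 2) (by norm_num) f
  apply mem_closure_of_tendsto h2
  filter_upwards with s
  apply Submodule.sum_mem
  intro i _
  have : lp.single 2 i (f i) = f i • (lp.single 2 i (1 : ℂ) : HSp n) := by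
    rw [← lp.single_smul, smul_eq_mul, mul_one]
  rw [this]
  exact Submodule.smul_mem _ _ (Submodule.subset_span ⟨i, rfl⟩)

theorem tendsto_UG {ι : Type*} {l : Filter ι} {n : Dim} (u : ι → UG n) (w : UG n) :
    Tendsto u l (𝓝 w) ↔ (∀ v, Tendsto (fun i => (u i).ap v) l (𝓝 (w.ap v))) ∧
      ∀ v, Tendsto (fun i => (u i)⁻¹.ap v) l (𝓝 (w⁻¹.ap v)) := by
  rw [nhds_induced, tendsto_comap_iff, tendsto_pi_nhds, ← forall_and]
  refine forall_congr' fun v => ?_
  rw [nhds_prod_eq, tendsto_prod_iff']
  exact Iff.rfl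

private theorem dist_apUP {n : Dim} (u : UG n) (v w : HSp n) :
    dist (u.ap v) (u.ap w) = dist v w := by
  rw [dist_eq_norm, dist_eq_norm, ← UG.ap_sub, UG.norm_ap]

private theorem ap_addUP {n : Dim} (u : UG n) (v w : HSp n) :
    u.ap (v + w) = u.ap v + u.ap w :=
  map_add (show HSp n ≃ₗᵢ[ℂ] HSp n from u) v w

private theorem ap_smulUP {n : Dim} (u : UG n) (c : ℂ) (v : HSp n) :
    u.ap (c • v) = c • u.ap v :=
  map_smul (show HSp n ≃ₗᵢ[ℂ] HSp n from u) c v

private theorem tendsto_mulUP {ι : Type*} {l : Filter ι} {n : Dim} {a b : ι → UG n}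
    {a0 b0 : UG n} (ha : ∀ v, Tendsto (fun i => (a i).ap v) l (𝓝 (a0.ap v)))
    (hb : ∀ v, Tendsto (fun i => (b i).ap v) l (𝓝 (b0.ap v))) (v : HSp n) :
    Tendsto (fun i => (a i * b i).ap v) l (𝓝 ((a0 * b0).ap v)) := by
  rw [tendsto_iff_dist_tendsto_zero]
  have h1 := tendsto_iff_dist_tendsto_zero.1 (hb v)
  have h2 := tendsto_iff_dist_tendsto_zero.1 (ha (b0.ap v))
  have h3 := h1.add h2
  rw [add_zero] at h3
  refine squeeze_zero (fun _ => dist_nonneg) (fun i => ?_) h3
  have h4 := dist_triangle ((a i).ap ((b i).ap v)) ((a i).ap (b0.ap v)) (a0.ap (b0.ap v))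
  rw [dist_apUP] at h4
  exact h4

private theorem tendsto_denseUP {ι : Type*} {l : Filter ι} {n : Dim} (a : ι → UG n) (w : UG n)
    (h : ∀ i, Tendsto (fun j => (a j).ap (denseSeq (HSp n) i)) l
      (𝓝 (w.ap (denseSeq (HSp n) i)))) (v : HSp n) :
    Tendsto (fun j => (a j).ap v) l (𝓝 (w.ap v)) := by
  rw [Metric.tendsto_nhds]
  intro ε hε
  obtain ⟨i, hi⟩ := (denseRange_denseSeq (HSp n)).exists_dist_lt v
    (show (0 : ℝ) < ε / 3 by positivity)
  filter_upwards [(Metric.tendsto_nhds.1 (h i)) (ε / 3) (by positivity)] with j hj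
  have h4 := dist_triangle4 ((a j).ap v) ((a j).ap (denseSeq (HSp n) i))
    (w.ap (denseSeq (HSp n) i)) (w.ap v)
  rw [dist_apUP, dist_apUP, dist_comm (denseSeq (HSp n) i) v] at h4
  linarith

private theorem exists_limUP {n : Dim} (a : ℕ → UG n)
    (h : ∀ i, ∃ y, Tendsto (fun k => (a k).ap (denseSeq (HSp n) i)) atTop (𝓝 y)) (v : HSp n) :
    ∃ y, Tendsto (fun k => (a k).ap v) atTop (𝓝 y) := by
  apply cauchySeq_tendsto_of_complete
  rw [Metric.cauchySeq_iff]
  intro ε hε
  obtain ⟨i, hi⟩ := (denseRange_denseSeq (HSp n)).exists_dist_lt v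
    (show (0 : ℝ) < ε / 3 by positivity)
  obtain ⟨y, hy⟩ := h i
  obtain ⟨N, hN⟩ := Metric.cauchySeq_iff.1 hy.cauchySeq (ε / 3) (by positivity)
  refine ⟨N, fun k hk m hm => ?_⟩
  have h3 := hN k hk m hm
  have h4 := dist_triangle4 ((a k).ap v) ((a k).ap (denseSeq (HSp n) i))
    ((a m).ap (denseSeq (HSp n) i)) ((a m).ap v)
  rw [dist_apUP, dist_apUP, dist_comm (denseSeq (HSp n) i) v] at h4
  linarith

instance (n : Dim) : IsTopologicalGroup (UG n) where
  continuous_mul := by
    rw [continuous_iff_continuousAt]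
    rintro ⟨u, w⟩
    have h1 := (tendsto_UG (l := 𝓝 (u, w)) (fun p : UG n × UG n => p.1) u).1
      continuous_fst.continuousAt
    have h2 := (tendsto_UG (l := 𝓝 (u, w)) (fun p : UG n × UG n => p.2) w).1
      continuous_snd.continuousAt
    refine (tendsto_UG (fun p : UG n × UG n => p.1 * p.2) (u * w)).2
      ⟨tendsto_mulUP h1.1 h2.1, fun v => ?_⟩
    have h3 := tendsto_mulUP (a := fun p : UG n × UG n => p.2⁻¹)
      (b := fun p : UG n × UG n => p.1⁻¹) h2.2 h1.2 v
    simp only [mul_inv_rev]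
    exact h3
  continuous_inv := by
    rw [continuous_iff_continuousAt]
    intro w
    have h1 := (tendsto_UG (l := 𝓝 w) (fun p : UG n => p) w).1 tendsto_id
    refine (tendsto_UG (fun p : UG n => p⁻¹) w⁻¹).2 ⟨h1.2, fun v => ?_⟩
    simp only [inv_inv]
    exact h1.1 v

/-- the values of `u` and `u⁻¹` at a dense sequence -/
private def JUP (n : Dim) (u : UG n) (i : ℕ) : HSp n × HSp n :=
  (u.ap (denseSeq (HSp n) i), u⁻¹.ap (denseSeq (HSp n) i))

private theorem tendsto_JUP {ι : Type*} {l : Filter ι} {n : Dim} (u : ι → UG n)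
    (y : ℕ → HSp n × HSp n) : Tendsto (fun k => JUP n (u k)) l (𝓝 y) ↔
      (∀ i, Tendsto (fun k => (u k).ap (denseSeq (HSp n) i)) l (𝓝 (y i).1)) ∧
        ∀ i, Tendsto (fun k => (u k)⁻¹.ap (denseSeq (HSp n) i)) l (𝓝 (y i).2) := by
  rw [tendsto_pi_nhds, ← forall_and]
  refine forall_congr' fun i => ?_
  rw [nhds_prod_eq, tendsto_prod_iff']
  exact Iff.rfl

private theorem isInducing_JUP (n : Dim) : IsInducing (JUP n) := by
  rw [isInducing_iff_nhds]
  intro u
  apply le_antisymm
  · rw [← tendsto_iff_comap]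
    have h1 := (tendsto_UG (l := 𝓝 u) (fun p : UG n => p) u).1 tendsto_id
    exact (tendsto_JUP (fun p : UG n => p) _).2 ⟨fun i => h1.1 _, fun i => h1.2 _⟩
  · have h0 : Tendsto (fun p : UG n => JUP n p) (comap (JUP n) (𝓝 (JUP n u)))
        (𝓝 (JUP n u)) := tendsto_comap
    have h1 := (tendsto_JUP (fun p : UG n => p) _).1 h0
    have h2 : Tendsto (fun p : UG n => p) (comap (JUP n) (𝓝 (JUP n u))) (𝓝 u) :=
      (tendsto_UG (fun p : UG n => p) u).2
        ⟨tendsto_denseUP (fun p : UG n => p) u h1.1,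
          tendsto_denseUP (fun p : UG n => p⁻¹) u⁻¹ h1.2⟩
    exact h2

private theorem ext_apUP {n : Dim} {u w : UG n} (h : ∀ v, u.ap v = w.ap v) : u = w :=
  LinearIsometryEquiv.ext h

private theorem injective_JUP (n : Dim) : Function.Injective (JUP n) := by
  intro u w h
  apply ext_apUP
  intro v
  have h1 : ∀ i, u.ap (denseSeq (HSp n) i) = w.ap (denseSeq (HSp n) i) := fun i =>
    congrArg Prod.fst (congrFun h i)
  have h2 := tendsto_denseUP (l := (pure () : Filter Unit)) (fun _ : Unit => u) w (fun i => by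
    rw [h1 i]
    exact tendsto_const_nhds) v
  exact tendsto_nhds_unique tendsto_const_nhds h2

private theorem isClosed_range_JUP (n : Dim) : IsClosed (range (JUP n)) := by
  apply IsSeqClosed.isClosed
  intro yy y hyy hy
  choose u hu using hyy
  have e0 : yy = fun k => JUP n (u k) := funext fun k => (hu k).symm
  rw [e0] at hy
  have h1 := (tendsto_JUP u y).1 hy
  choose f hf using exists_limUP u (fun i => ⟨_, h1.1 i⟩)
  choose g hg using exists_limUP (fun k => (u k)⁻¹) (fun i => ⟨_, h1.2 i⟩)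
  have fadd : ∀ v w, f (v + w) = f v + f w := by
    intro v w
    refine tendsto_nhds_unique (hf (v + w)) (((hf v).add (hf w)).congr fun k => ?_)
    exact (ap_addUP (u k) v w).symm
  have fsmul : ∀ (c : ℂ) v, f (c • v) = c • f v := by
    intro c v
    refine tendsto_nhds_unique (hf (c • v)) (((hf v).const_smul c).congr fun k => ?_)
    exact (ap_smulUP (u k) c v).symm
  have fnorm : ∀ v, ‖f v‖ = ‖v‖ := by
    intro v
    refine tendsto_nhds_unique (hf v).norm (tendsto_const_nhds.congr fun k => ?_)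
    exact (UG.norm_ap (u k) v).symm
  have gf : ∀ v, g (f v) = v := by
    intro v
    refine tendsto_nhds_unique (hg (f v)) ?_
    rw [tendsto_iff_dist_tendsto_zero]
    have h2 := tendsto_iff_dist_tendsto_zero.1 (hf v)
    refine h2.congr fun k => ?_
    rw [dist_comm, ← dist_apUP (u k)⁻¹ (f v) ((u k).ap v), UG.inv_ap_ap]
  have fg : ∀ v, f (g v) = v := by
    intro v
    refine tendsto_nhds_unique (hf (g v)) ?_
    rw [tendsto_iff_dist_tendsto_zero]
    have h2 := tendsto_iff_dist_tendsto_zero.1 (hg v)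
    refine h2.congr fun k => ?_
    rw [dist_comm, ← dist_apUP (u k) (g v) ((u k)⁻¹.ap v), UG.ap_inv_ap]
  let e : HSp n ≃ₗᵢ[ℂ] HSp n :=
    { toFun := f
      invFun := g
      map_add' := fadd
      map_smul' := fsmul
      left_inv := gf
      right_inv := fg
      norm_map' := fnorm }
  refine ⟨(e : UG n), ?_⟩
  funext i
  refine Prod.ext ?_ ?_
  · exact tendsto_nhds_unique (hf (denseSeq (HSp n) i)) (h1.1 i)
  · exact tendsto_nhds_unique (hg (denseSeq (HSp n) i)) (h1.2 i)

instance polish_UG (n : Dim) : PolishSpace (UG n) := by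
  have h : IsClosedEmbedding (JUP n) :=
    ⟨⟨isInducing_JUP n, injective_JUP n⟩, isClosed_range_JUP n⟩
  exact h.polishSpace

end

end H69M
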