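import Pool.Agent.H69M.Strong
import Pool.Agent.H69M.UPol

/-!
# NAct : the action of the unitary groups on the irreducible representations

* `cj_irred`: the conjugate `cjRep u π` of an irreducible `π` is irreducible: if `K` is closed and invariant for
  `cjRep u π`, then `u⁻¹ K` (`K.comap` of the unitary) is closed and invariant for `π`.
* the action of `UAll` on `NIrr A`: `g • ⟨n, π⟩ = ⟨n, cjRep (g n) π⟩`.
* `continuous_cj`: `(u, π) ↦ cjRep u π` is continuous on `UG n × NIrrN A n`: by `isEmbedding_toRep` and `tendsto_strong` one has to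
  show `u.ap (π a (u⁻¹.ap v)) → u₀.ap (π₀ a (u₀⁻¹.ap v))`: the difference is bounded by
  `‖a‖ ‖u⁻¹.ap v - u₀⁻¹.ap v‖ + ‖π a w - π₀ a w‖ + ‖u.ap (π₀ a w) - u₀.ap (π₀ a w)‖`, `w = u₀⁻¹.ap v`.
* `ContinuousSMul UAll (NIrr A)`: continuity of a map from `UAll × Σ n, NIrrN A n`: near a point of the `n`-th piece
  (open in the sigma type) it is `(g, ⟨n, π⟩) ↦ ⟨n, cj (g n) π⟩` (`continuous_sigmaMk`, the projection `g ↦ g n`).
* `act_iff`: orbits are the classes of unitary equivalence: (→) `U = g n`. (←) by `hdim` (that is `dim_eq` of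
  FnCl, here a hypothesis) both have the same dimension; take `g` with `g n = U` and `g m = 1` for `m ≠ n`
  (`Function.update`). `cjRep U π = ρ` means `U π(a) U⁻¹ = ρ(a)`.
-/

namespace H69M

open TopologicalSpace MeasureTheory Set Topology Filter
open MBS DX
open scoped InnerProductSpace

noncomputable section

variable {A : Type} [NonUnitalCStarAlgebra A]

theorem UG.ap_zero {n : Dim} (u : UG n) : u.ap 0 = 0 := by
  have h := UG.norm_ap u 0
  rw [norm_zero] at h
  exact norm_eq_zero.1 h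

theorem cj_irred {n : Dim} (u : UG n) {π : NRepN A n} (hπ : NIsIrred n π) :
    NIsIrred n (cjRep u π) := by
  refine ⟨?_, ?_⟩
  · obtain ⟨a, ha⟩ := hπ.1
    refine ⟨a, fun h => ha ?_⟩
    ext v : 1
    have h1 : cjRep u π a (u.ap v) = 0 := by rw [h]; rfl
    rw [cjRep_apply, UG.inv_ap_ap] at h1
    have h2 : u⁻¹.ap (u.ap (π a v)) = 0 := by rw [h1, UG.ap_zero]
    rw [UG.inv_ap_ap] at h2
    rw [h2]
    rfl
  · intro K hK hinv
    have hc : Continuous (fun v => u.ap v) := u.cl.continuous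
    have h := hπ.2 (K.comap (u.cl : HSp n →ₗ[ℂ] HSp n)) (hK.preimage hc) (by
      intro a v hv
      have hv' : u.ap v ∈ K := hv
      have h1 := hinv a _ hv'
      rw [cjRep_apply, UG.inv_ap_ap] at h1
      exact h1)
    rcases h with h | h
    · left
      rw [eq_bot_iff]
      intro x hx
      have h1 : u⁻¹.ap x ∈ K.comap (u.cl : HSp n →ₗ[ℂ] HSp n) := by
        show u.ap (u⁻¹.ap x) ∈ K
        rwa [UG.ap_inv_ap]
      rw [h, Submodule.mem_bot] at h1
      have h2 : u.ap (u⁻¹.ap x) = 0 := by rw [h1, UG.ap_zero]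
      rw [UG.ap_inv_ap] at h2
      rw [Submodule.mem_bot]
      exact h2
    · right
      rw [eq_top_iff]
      intro x _
      have h1 : u⁻¹.ap x ∈ K.comap (u.cl : HSp n →ₗ[ℂ] HSp n) := by
        rw [h]; trivial
      have h2 : u.ap (u⁻¹.ap x) ∈ K := h1
      rwa [UG.ap_inv_ap] at h2

/-- the conjugate of an irreducible representation -/
def cj {n : Dim} (u : UG n) (π : NIrrN A n) : NIrrN A n := ⟨cjRep u π.1, cj_irred u π.2⟩

theorem cj_one {n : Dim} (π : NIrrN A n) : cj (1 : UG n) π = π := by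
  apply Subtype.ext
  show cjRep (1 : UG n) π.1 = π.1
  ext a v : 2
  rw [cjRep_apply, inv_one]
  rfl

theorem cj_mul {n : Dim} (u w : UG n) (π : NIrrN A n) : cj (u * w) π = cj u (cj w π) := by
  apply Subtype.ext
  show cjRep (u * w) π.1 = cjRep u (cjRep w π.1)
  ext a v : 2
  rw [cjRep_apply, cjRep_apply, cjRep_apply, mul_inv_rev, UG.mul_ap, UG.mul_ap]

instance : MulAction UAll (NIrr A) where
  smul g σ := ⟨σ.1, cj (g σ.1) σ.2⟩
  one_smul := by
    intro σ
    show (⟨σ.1, cj ((1 : UAll) σ.1) σ.2⟩ : NIrr A) = σ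
    rw [Pi.one_apply, cj_one]
    rfl
  mul_smul := by
    intro g h σ
    show (⟨σ.1, cj ((g * h) σ.1) σ.2⟩ : NIrr A) = ⟨σ.1, cj (g σ.1) (cj (h σ.1) σ.2)⟩
    rw [Pi.mul_apply, cj_mul]

theorem smul_def' (g : UAll) (σ : NIrr A) : g • σ = ⟨σ.1, cj (g σ.1) σ.2⟩ := rfl

theorem tendsto_app {ι : Type*} {l : Filter ι} {E : Type*} [NormedAddCommGroup E]
    {T : ι → E → E} {T₀ : E → E} {w : ι → E} {w₀ : E} (C : ℝ)
    (hT : ∀ i x y, ‖T i x - T i y‖ ≤ C * ‖x - y‖)
    (h1 : Tendsto (fun i => T i w₀) l (𝓝 (T₀ w₀))) (h2 : Tendsto w l (𝓝 w₀)) :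
    Tendsto (fun i => T i (w i)) l (𝓝 (T₀ w₀)) := by
  have h3 : Tendsto (fun i => T i (w i) - T i w₀) l (𝓝 0) := by
    rw [tendsto_zero_iff_norm_tendsto_zero]
    have h4 : Tendsto (fun i => C * ‖w i - w₀‖) l (𝓝 0) := by
      have h5 := (tendsto_iff_norm_sub_tendsto_zero.1 h2).const_mul C
      rwa [mul_zero] at h5
    exact squeeze_zero (fun _ => norm_nonneg _) (fun i => hT i _ _) h4
  have h6 := h1.add h3
  rw [add_zero] at h6
  refine h6.congr fun i => ?_
  abel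

theorem continuous_cj (n : Dim) :
    Continuous (fun p : UG n × NIrrN A n => cj p.1 p.2) := by
  rw [(isEmbedding_toRep n).continuous_iff, continuous_iff_continuousAt]
  rintro ⟨u₀, π₀⟩
  have hu : Tendsto (fun p : UG n × NIrrN A n => p.1) (𝓝 (u₀, π₀)) (𝓝 u₀) :=
    continuous_fst.continuousAt
  have hp : Tendsto (fun p : UG n × NIrrN A n => toRep p.2) (𝓝 (u₀, π₀)) (𝓝 (toRep π₀)) :=
    ((isEmbedding_toRep n).continuous.comp continuous_snd).continuousAt
  rw [tendsto_UG] at hu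
  rw [tendsto_strong] at hp
  show Tendsto (fun p : UG n × NIrrN A n => toRep (cj p.1 p.2)) (𝓝 (u₀, π₀))
    (𝓝 (toRep (cj u₀ π₀)))
  rw [tendsto_strong]
  intro a v
  have h1 : Tendsto (fun p : UG n × NIrrN A n => (toRep p.2).op a (p.1⁻¹.ap v))
      (𝓝 (u₀, π₀)) (𝓝 ((toRep π₀).op a (u₀⁻¹.ap v))) :=
    tendsto_app (T := fun p : UG n × NIrrN A n => fun x => (toRep p.2).op a x)
      (T₀ := fun x => (toRep π₀).op a x) ‖a‖
      (fun p x y => by
        show ‖(toRep p.2).op a x - (toRep p.2).op a y‖ ≤ _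
        rw [← map_sub]
        exact op_norm_le _ _ _) (hp a _) (hu.2 v)
  exact tendsto_app (T := fun p : UG n × NIrrN A n => fun x => p.1.ap x)
    (T₀ := fun x => u₀.ap x) 1
    (fun p x y => by
      show ‖p.1.ap x - p.1.ap y‖ ≤ _
      rw [← UG.ap_sub, UG.norm_ap, one_mul]) (hu.1 _) h1

instance : ContinuousSMul UAll (NIrr A) := by
  refine ⟨?_⟩
  rw [continuous_iff_continuousAt]
  rintro ⟨g₀, n, π₀⟩
  have hσ : IsOpenEmbedding (fun π : NIrrN A n => (⟨n, π⟩ : NIrr A)) :=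
    IsOpenEmbedding.sigmaMk (σ := fun n => NIrrN A n)
  have hO : IsOpenEmbedding (Prod.map (id : UAll → UAll)
      (fun π : NIrrN A n => (⟨n, π⟩ : NIrr A))) := IsOpenEmbedding.id.prodMap hσ
  have h1 : Continuous ((fun p : UAll × NIrr A => p.1 • p.2) ∘ Prod.map (id : UAll → UAll)
      (fun π : NIrrN A n => (⟨n, π⟩ : NIrr A))) := by
    show Continuous (fun p : UAll × NIrrN A n => (⟨n, cj (p.1 n) p.2⟩ : NIrr A))
    exact hσ.continuous.comp ((continuous_cj n).comp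
      (((continuous_apply n).comp continuous_fst).prodMk continuous_snd))
  exact (hO.continuousAt_iff (x := (g₀, π₀))).1 h1.continuousAt

theorem act_iff (hdim : ∀ {n m : Dim}, (HSp n ≃ₗᵢ[ℂ] HSp m) → n = m) (σ τ : NIrr A) :
    (∃ g : UAll, g • σ = τ) ↔ NEquiv σ τ := by
  constructor
  · rintro ⟨g, rfl⟩
    refine ⟨g σ.1, fun a v => ?_⟩
    show (g σ.1).ap (σ.2.1 a v) = cjRep (g σ.1) σ.2.1 a ((g σ.1).ap v)
    rw [cjRep_apply, UG.inv_ap_ap]
  · obtain ⟨n, π⟩ := σ
    obtain ⟨m, ρ⟩ := τ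
    rintro ⟨U, hU⟩
    have hnm : n = m := hdim U
    subst hnm
    obtain ⟨W, hW⟩ : ∃ W : UG n, ∀ (a : A) (v : HSp n),
        W.ap (π.1 a v) = ρ.1 a (W.ap v) := ⟨U, hU⟩
    refine ⟨Function.update (1 : UAll) n W, ?_⟩
    show (⟨n, cj (Function.update (1 : UAll) n W n) π⟩ : NIrr A) = ⟨n, ρ⟩
    rw [Function.update_self]
    congr 1
    apply Subtype.ext
    show cjRep W π.1 = ρ.1
    ext a v : 2
    rw [cjRep_apply, hW, UG.ap_inv_ap]

end

end H69M
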