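import Mathlib

/-!
# CProj : projections along compact spaces

`measurable_cproj`. If `C` is empty the set is empty. Otherwise let `D` be a countable dense subset of `Z` (`Z` is
compact metrizable, hence separable). The set equals
`⋂ m, ⋃ z ∈ D, {x | infDist (f x z) C < 1 / (m + 1)}`, which is measurable. If `f x z ∈ C`, by continuity of `f x` and of `infDist · C`
there are `z' ∈ D` near `z` with small `infDist (f x z') C`. Conversely take `z m ∈ D` with
`infDist (f x (z m)) C < 1 / (m + 1)`; a subsequence converges to some `z` (`CompactSpace`), then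
`infDist (f x z) C = 0`, so `f x z ∈ C` (`IsClosed.mem_iff_infDist_zero`). Alternatively: `x` is in the set iff
`⨅ z, infDist (f x z) C = 0`.
-/

namespace H69M

open TopologicalSpace MeasureTheory Set Topology Filter

theorem measurable_cproj {α Z Y : Type*} [MeasurableSpace α] [TopologicalSpace Z] [CompactSpace Z]
    [MetrizableSpace Z] [TopologicalSpace Y] [MetrizableSpace Y] [MeasurableSpace Y] [BorelSpace Y]
    (f : α → Z → Y) (hm : ∀ z, Measurable (fun x => f x z)) (hc : ∀ x, Continuous (f x))
    {C : Set Y} (hC : IsClosed C) : MeasurableSet {x | ∃ z, f x z ∈ C} := by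
  let _ := metrizableSpaceMetric Y
  let _ := metrizableSpaceMetric Z
  have : SecondCountableTopology Z := EMetric.secondCountable_of_sigmaCompact Z
  rcases C.eq_empty_or_nonempty with rfl | hne
  · simp
  obtain ⟨D, hDc, hD⟩ := exists_countable_dense Z
  have hcont : ∀ x, Continuous fun z => Metric.infDist (f x z) C := fun x =>
    (Metric.continuous_infDist_pt C).comp (hc x)
  have hset : {x | ∃ z, f x z ∈ C} =
      ⋂ m : ℕ, ⋃ z ∈ D, {x | Metric.infDist (f x z) C < 1 / ((m : ℝ) + 1)} := by
    ext x
    simp only [mem_ofPred_eq, mem_iInter, mem_iUnion, exists_prop]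
    constructor
    · rintro ⟨z, hz⟩ m
      have h0 : Metric.infDist (f x z) C = 0 := Metric.infDist_zero_of_mem hz
      obtain ⟨z', hz', h1⟩ := hD.exists_mem_open
        (isOpen_lt (hcont x) (continuous_const (y := 1 / ((m : ℝ) + 1))))
        ⟨z, by
          show Metric.infDist (f x z) C < 1 / ((m : ℝ) + 1)
          rw [h0]
          positivity⟩
      exact ⟨z', hz', h1⟩
    · intro h
      obtain ⟨z1, -, -⟩ := h 0
      obtain ⟨z0, -, hz0⟩ := isCompact_univ.exists_isMinOn ⟨z1, mem_univ z1⟩ (hcont x).continuousOn
      refine ⟨z0, ?_⟩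
      rw [hC.mem_iff_infDist_zero hne]
      refine le_antisymm ?_ Metric.infDist_nonneg
      refine le_of_forall_pos_lt_add fun ε hε => ?_
      obtain ⟨m, hm'⟩ := exists_nat_one_div_lt hε
      obtain ⟨z, -, hz⟩ := h m
      rw [zero_add]
      exact (isMinOn_iff.1 hz0 z (mem_univ z)).trans_lt (hz.trans hm')
  rw [hset]
  refine MeasurableSet.iInter fun m => MeasurableSet.biUnion hDc fun z _ => ?_
  exact measurableSet_lt ((Metric.continuous_infDist_pt C).measurable.comp (hm z))
    measurable_const

end H69M
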