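import Pool.Agent.H69M.CatQ

/-!
# Enc : coding pairs by E_0, the 0-1 law for E_0

`enc c v (2 n) = v n`, `enc c v (2 n + 1) = c (n.unpair.1)`, so every value `c i` is repeated infinitely often.
* `enc` is continuous (each coordinate is a coordinate of `(c, v)`).
* `E0 (enc c v) (enc c' v') ↔ c = c' ∧ E0 v v'`: if the left side holds, then for each `i` choose `j` large:
  the coordinate `2 * Nat.pair i j + 1` gives `c i = c' i`; even coordinates give `E0 v v'`. Conversely clear.

`e0_zero_one`: a Borel (or just Baire measurable) set `A` of sequences which is invariant under `E0` is meager or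
comeager. Proof: if `A` is not meager it is comeager in a nonempty open set (`exists_open_comeager`), hence
in some basic clopen set `N s = {z | ∀ i < n, z i = s i}`. For any other `s'` the homeomorphism which
changes the first `n` coordinates by `s i xor s' i` maps `N s` to `N s'` and preserves `A`, so `A` is comeager in `N s'`.
The finitely many `N s'` cover the space.

`e0_class_meagre`: an `E0` class is countable, hence meager (singletons are closed with empty interior in
`ℕ → Bool`). `e0_exists`: consequently a comeager set contains two points which are not `E0` equivalent (even: given any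
`v`, a point not equivalent to `v`).
-/

namespace H69M

open TopologicalSpace MeasureTheory Set Topology Filter

/-- coding of pairs -/
def enc (c v : ℕ → Bool) (m : ℕ) : Bool :=
  if m % 2 = 0 then v (m / 2) else c (Nat.unpair (m / 2)).1

/-- flipping the coordinates where `t` is true -/
private def flipEN (t : ℕ → Bool) (z : ℕ → Bool) : ℕ → Bool := fun i => xor (z i) (t i)

private theorem flipEN_flipEN (t z : ℕ → Bool) : flipEN t (flipEN t z) = z := by
  funext i
  unfold flipEN
  cases z i <;> cases t i <;> rfl

private theorem continuous_flipEN (t : ℕ → Bool) : Continuous (flipEN t) := by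
  refine continuous_pi fun i => ?_
  have h : Continuous (fun b : Bool => xor b (t i)) := continuous_of_discreteTopology
  exact h.comp (continuous_apply i)

private def homeoEN (t : ℕ → Bool) : (ℕ → Bool) ≃ₜ (ℕ → Bool) where
  toFun := flipEN t
  invFun := flipEN t
  left_inv := flipEN_flipEN t
  right_inv := flipEN_flipEN t
  continuous_toFun := continuous_flipEN t
  continuous_invFun := continuous_flipEN t

/-- open sets contain cylinders -/
private theorem cylEN {V : Set (ℕ → Bool)} (hV : IsOpen V) {z0 : ℕ → Bool} (hz : z0 ∈ V) :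
    ∃ n, ∀ z : ℕ → Bool, (∀ i < n, z i = z0 i) → z ∈ V := by
  rw [isOpen_pi_iff] at hV
  obtain ⟨I, u, hu, hsub⟩ := hV z0 hz
  refine ⟨I.sup id + 1, fun z hzz => hsub ?_⟩
  intro i hi
  have h1 : i ≤ I.sup id := Finset.le_sup (f := id) hi
  rw [hzz i (by omega)]
  exact (hu i hi).2

theorem continuous_enc : Continuous (fun p : (ℕ → Bool) × (ℕ → Bool) => enc p.1 p.2) := by
  refine continuous_pi fun m => ?_
  unfold enc
  by_cases h : m % 2 = 0
  · simp only [h, if_true]
    exact (continuous_apply (m / 2)).comp continuous_snd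
  · simp only [h, if_false]
    exact (continuous_apply (Nat.unpair (m / 2)).1).comp continuous_fst

theorem e0_enc (c v c' v' : ℕ → Bool) : E0 (enc c v) (enc c' v') ↔ c = c' ∧ E0 v v' := by
  unfold E0
  rw [eventually_atTop, eventually_atTop]
  constructor
  · rintro ⟨N, hN⟩
    constructor
    · funext i
      have h1 : N ≤ Nat.pair i N := Nat.right_le_pair i N
      have h2 := hN (2 * Nat.pair i N + 1) (by omega)
      unfold enc at h2
      have h3 : (2 * Nat.pair i N + 1) % 2 ≠ 0 := by omega
      have h4 : (2 * Nat.pair i N + 1) / 2 = Nat.pair i N := by omega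
      rw [if_neg h3, if_neg h3, h4, Nat.unpair_pair] at h2
      exact h2
    · refine ⟨N, fun n hn => ?_⟩
      have h2 := hN (2 * n) (by omega)
      unfold enc at h2
      have h3 : (2 * n) % 2 = 0 := by omega
      have h4 : (2 * n) / 2 = n := by omega
      rw [if_pos h3, if_pos h3, h4] at h2
      exact h2
  · rintro ⟨rfl, N, hN⟩
    refine ⟨2 * N, fun m hm => ?_⟩
    unfold enc
    by_cases h : m % 2 = 0
    · rw [if_pos h, if_pos h]
      exact hN _ (by omega)
    · rw [if_neg h, if_neg h]

theorem e0_zero_one {A : Set (ℕ → Bool)} (hA : MeasurableSet A)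
    (hinv : ∀ z z', E0 z z' → z ∈ A → z' ∈ A) : IsMeagre A ∨ IsMeagre Aᶜ := by
  by_cases hne : IsMeagre A
  · exact Or.inl hne
  right
  obtain ⟨V, hVo, ⟨z0, hz0⟩, hVA⟩ := exists_open_comeager hA hne
  obtain ⟨n, hn⟩ := cylEN hVo hz0
  let ext : (Fin n → Bool) → ℕ → Bool := fun s i => if h : i < n then s ⟨i, h⟩ else false
  have key : Aᶜ ⊆ ⋃ s : Fin n → Bool, flipEN (ext s) ⁻¹' (V \ A) := by
    intro z hz
    rw [mem_iUnion]
    refine ⟨fun i => xor (z i) (z0 i), ?_, ?_⟩
    · apply hn
      intro i hi
      have : ext (fun i : Fin n => xor (z i) (z0 i)) i = xor (z i) (z0 i) := by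
        simp only [ext, hi, dif_pos]
      unfold flipEN
      rw [this]
      cases z i <;> cases z0 i <;> rfl
    · intro hmem
      apply hz
      refine hinv _ _ ?_ hmem
      unfold E0
      rw [eventually_atTop]
      refine ⟨n, fun m hm => ?_⟩
      have : ext (fun i : Fin n => xor (z i) (z0 i)) m = false := by
        simp only [ext, not_lt.2 hm, dif_neg, not_false_eq_true]
      unfold flipEN
      rw [this]
      exact Bool.xor_false _
  refine IsMeagre.mono key (isMeagre_iUnion fun s => ?_)
  exact IsMeagre.preimage_of_isOpenMap (homeoEN (ext s)).continuous (homeoEN (ext s)).isOpenMap hVA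

theorem e0_class_meagre (z : ℕ → Bool) : IsMeagre {z' | E0 z z'} := by
  have hcov : {z' | E0 z z'} ⊆ ⋃ N : ℕ, {z' : ℕ → Bool | ∀ n, N ≤ n → z n = z' n} := by
    intro z' hz'
    obtain ⟨N, hN⟩ := eventually_atTop.1 hz'
    exact mem_iUnion.2 ⟨N, hN⟩
  refine IsMeagre.mono hcov (isMeagre_iUnion fun N => IsNowhereDense.isMeagre ?_)
  have hcl : IsClosed {z' : ℕ → Bool | ∀ n, N ≤ n → z n = z' n} := by
    have e : {z' : ℕ → Bool | ∀ n, N ≤ n → z n = z' n} =
        ⋂ n, ⋂ (_ : N ≤ n), {z' : ℕ → Bool | z n = z' n} := by
      ext z'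
      simp only [mem_iInter]
      exact Iff.rfl
    rw [e]
    exact isClosed_iInter fun n => isClosed_iInter fun _ =>
      isClosed_eq continuous_const (continuous_apply n)
  rw [hcl.isNowhereDense_iff]
  by_contra hne
  obtain ⟨w, hw⟩ := nonempty_iff_ne_empty.2 hne
  obtain ⟨n, hn⟩ := cylEN isOpen_interior hw
  have h1 : Function.update w (max n N) (!(z (max n N))) ∈
      interior {z' : ℕ → Bool | ∀ n, N ≤ n → z n = z' n} := by
    apply hn
    intro i hi
    exact Function.update_of_ne (by omega) _ _
  have h2 : ∀ m, N ≤ m → z m = Function.update w (max n N) (!(z (max n N))) m :=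
    interior_subset h1
  have h3 := h2 (max n N) (le_max_right _ _)
  rw [Function.update_self] at h3
  cases hh : z (max n N) <;> rw [hh] at h3 <;> simp at h3

theorem e0_exists {A : Set (ℕ → Bool)} (hA : IsMeagre Aᶜ) (v : ℕ → Bool) :
    ∃ z ∈ A, ¬ E0 v z := by
  by_contra hcon
  have hsub : (Set.univ : Set (ℕ → Bool)) ⊆ Aᶜ ∪ {z | E0 v z} := by
    intro z _
    by_cases hz : z ∈ A
    · right
      by_contra h
      exact hcon ⟨z, hz, h⟩
    · exact Or.inl hz
  exact open_not_meagre isOpen_univ univ_nonempty
    (IsMeagre.mono hsub (IsMeagre.union hA (e0_class_meagre v)))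

theorem cantor_univ_not_meagre : ¬ IsMeagre (Set.univ : Set (ℕ → Bool)) :=
  open_not_meagre isOpen_univ univ_nonempty

end H69M
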