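import Mathlib

/-!
# Left : measurable leftmost choices

`leftmost`. Fix an injection `e : St → ℕ` (`St` countable, `exists_injective_nat` / `Encodable`). For `a : α`, `n` and
`s : St` let `nxt n a s` be the state `s'` with the least `e s'` among those with `R n s s' ∧ a ∈ C s'`, if there is
one, and `s` otherwise. `σ 0 a = s₀`, `σ (n + 1) a = nxt n a (σ n a)`. By induction on `n`
`{a | σ n a = s}` is measurable: `{a | σ (n + 1) a = s'}` is the union over the countably many `s` of
`{a | σ n a = s} ∩ {a | nxt n a s = s'}`, and the latter set is a Boolean combination of countably many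
sets `C s''`. If `a`, `b` are in the same sets `C s` then `nxt n a = nxt n b`.
-/

namespace H69M

open MeasureTheory Set

open Classical in
/-- An element with the property `p`, if there is one, and `s` otherwise. -/
private noncomputable def pick {St : Type} (p : St → Prop) (s : St) : St :=
  if h : ∃ s', p s' then h.choose else s

/-- `s'` is the leftmost candidate. -/
private def Lf {α St : Type} (e : St → ℕ) (C : St → Set α) (R : ℕ → St → St → Prop) (n : ℕ) (a : α)
    (s s' : St) : Prop :=
  (R n s s' ∧ a ∈ C s') ∧ ∀ s'', R n s s'' → a ∈ C s'' → e s' ≤ e s''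

private lemma lf_unique {α St : Type} {e : St → ℕ} (he : Function.Injective e) {C : St → Set α}
    {R : ℕ → St → St → Prop} {n : ℕ} {a : α} {s s1 s2 : St} (h1 : Lf e C R n a s s1)
    (h2 : Lf e C R n a s s2) : s1 = s2 :=
  he (le_antisymm (h1.2 s2 h2.1.1 h2.1.2) (h2.2 s1 h1.1.1 h1.1.2))

private lemma lf_exists {α St : Type} (e : St → ℕ) {C : St → Set α}
    {R : ℕ → St → St → Prop} {n : ℕ} {a : α} {s : St} (h : ∃ s', R n s s' ∧ a ∈ C s') :
    ∃ s', Lf e C R n a s s' := by
  classical
  have h1 : ∃ k, ∃ s', e s' = k ∧ R n s s' ∧ a ∈ C s' := by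
    obtain ⟨s', hs'⟩ := h
    exact ⟨e s', s', rfl, hs'⟩
  obtain ⟨s', hs1, hs2⟩ := Nat.find_spec h1
  refine ⟨s', hs2, fun s'' hR hC => ?_⟩
  rw [hs1]
  exact Nat.find_min' h1 ⟨s'', rfl, hR, hC⟩

private lemma pick_spec {St : Type} {p : St → Prop} (s : St) (h : ∃ s', p s') : p (pick p s) := by
  unfold pick
  rw [dif_pos h]
  exact h.choose_spec

private lemma pick_eq {α St : Type} {e : St → ℕ} (he : Function.Injective e) {C : St → Set α}
    {R : ℕ → St → St → Prop} {n : ℕ} {a : α} {s s' : St} : pick (Lf e C R n a s) s = s' ↔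
      Lf e C R n a s s' ∨ ((∀ s'', ¬ Lf e C R n a s s'') ∧ s = s') := by
  by_cases h : ∃ s'', Lf e C R n a s s''
  · have h1 := pick_spec s h
    constructor
    · rintro rfl
      exact Or.inl h1
    · rintro (h2 | h2)
      · exact lf_unique he h1 h2
      · obtain ⟨s'', hs''⟩ := h
        exact absurd hs'' (h2.1 s'')
  · have h1 : pick (Lf e C R n a s) s = s := by
      unfold pick
      rw [dif_neg h]
    rw [h1]
    constructor
    · intro h2
      exact Or.inr ⟨fun s'' hs'' => h ⟨s'', hs''⟩, h2⟩
    · rintro (h2 | h2)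
      · exact absurd ⟨s', h2⟩ h
      · exact h2.2

private lemma lf_meas {α St : Type} [MeasurableSpace α] [Countable St] (e : St → ℕ)
    {C : St → Set α} (hC : ∀ s, MeasurableSet (C s)) (R : ℕ → St → St → Prop) (n : ℕ)
    (s s' : St) : Measurable (fun a => Lf e C R n a s s') := by
  have hC' : ∀ s, Measurable (fun a => a ∈ C s) := fun s => measurableSet_setOfPred.1 (hC s)
  unfold Lf
  exact (measurable_const.and (hC' s')).and (Measurable.forall fun s'' =>
    measurable_const.imp ((hC' s'').imp measurable_const))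

private lemma pick_meas {α St : Type} [MeasurableSpace α] [Countable St] {e : St → ℕ}
    (he : Function.Injective e) {C : St → Set α} (hC : ∀ s, MeasurableSet (C s))
    (R : ℕ → St → St → Prop) (n : ℕ) (s s' : St) :
    MeasurableSet {a | pick (Lf e C R n a s) s = s'} := by
  simp only [pick_eq he]
  exact measurableSet_setOfPred.2 ((lf_meas e hC R n s s').or
    ((Measurable.forall fun s'' => (lf_meas e hC R n s s'').not).and measurable_const))

/-- The choices. -/
private noncomputable def sel {α St : Type} (e : St → ℕ) (C : St → Set α)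
    (R : ℕ → St → St → Prop) (s₀ : St) : ℕ → α → St
  | 0, _ => s₀
  | n + 1, a => pick (Lf e C R n a (sel e C R s₀ n a)) (sel e C R s₀ n a)

theorem leftmost {α St : Type} [MeasurableSpace α] [Countable St] (C : St → Set α)
    (hC : ∀ s, MeasurableSet (C s)) (R : ℕ → St → St → Prop) (s₀ : St) :
    ∃ σ : ℕ → α → St, (∀ n s, MeasurableSet {a | σ n a = s}) ∧ (∀ a, σ 0 a = s₀) ∧
      (∀ a b, (∀ s, a ∈ C s ↔ b ∈ C s) → ∀ n, σ n a = σ n b) ∧
      ∀ n a, (∃ s, R n (σ n a) s ∧ a ∈ C s) →
        R n (σ n a) (σ (n + 1) a) ∧ a ∈ C (σ (n + 1) a) := by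
  obtain ⟨e, he⟩ := Countable.exists_injective_nat St
  refine ⟨sel e C R s₀, ?_, fun a => rfl, ?_, ?_⟩
  · intro n
    induction n with
    | zero => exact fun s => MeasurableSet.const (s₀ = s)
    | succ n ih =>
      intro s'
      have h1 : {a | sel e C R s₀ (n + 1) a = s'} =
          ⋃ s, ({a | sel e C R s₀ n a = s} ∩ {a | pick (Lf e C R n a s) s = s'}) := by
        ext a
        simp only [mem_ofPred_eq, mem_iUnion, mem_inter_iff, exists_eq_left']
        rfl
      rw [h1]
      exact MeasurableSet.iUnion fun s => (ih s).inter (pick_meas he hC R n s s')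
  · intro a b hab n
    induction n with
    | zero => rfl
    | succ n ih =>
      have h1 : ∀ s, Lf e C R n a s = Lf e C R n b s := by
        intro s
        funext s'
        unfold Lf
        simp only [hab]
      change pick (Lf e C R n a (sel e C R s₀ n a)) (sel e C R s₀ n a) =
        pick (Lf e C R n b (sel e C R s₀ n b)) (sel e C R s₀ n b)
      rw [ih, h1]
  · intro n a h
    exact (pick_spec (sel e C R s₀ n a) (lf_exists e h)).1

end H69M
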