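import Pool.Agent.H69M.Lim
import Pool.Agent.H69M.Left

/-!
# Sect : the Borel section of the type map

`exists_section`. Let `Sm` be a system for `𝒰`, `i₀` an index with `U i₀ = univ`. Apply `leftmost` to `α = (ℕ → Bool)`,
`St = ℕ`, `C i = {p | p i = true}`, `R n i j := U j ⊆ U i ∧ U j ∈ Sm n`, `s₀ = i₀`. Let `A n p = U (σ n p)`, and
`b` the function of `exists_limit` (`{p | A n p = V}` is the union of the sets `{p | σ n p = i}` with
`U i = V`). For `p = tp U x`: by induction `x ∈ VT (U (σ n p))` and `R n (σ n p) (σ (n+1) p)`, the existence of the next index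
comes from `vt_shrink` and `fine`. The sets are nonempty by `vt_hit'`. So `b p` is a limit point and
`limit_eqv` gives `Eqv 𝒰 (b p) x`.

`exists_section'`: `s x = b (tp U x)`; `tp U` is measurable (`vt_meas`), and `tp U x = tp U y` iff
`Eqv 𝒰 x y`. If `S.X` is empty everything is trivial (for `exists_section` we need a point of `S.X` as the
codomain of `b`).
-/

namespace H69M

open TopologicalSpace MeasureTheory Set Topology Filter

namespace PS

variable (S : PS)

theorem tp_apply_iff (U : ℕ → Set S.X) (x : S.X) (n : ℕ) :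
    S.tp U x n = true ↔ x ∈ S.VT (U n) := by
  simp [tp]

theorem tp_eq_iff {U : ℕ → Set S.X} {𝒰 : Set (Set S.X)} (hU : Set.range U = 𝒰) (x y : S.X) :
    S.tp U x = S.tp U y ↔ S.Eqv 𝒰 x y := by
  constructor
  · intro h V hV
    rw [← hU] at hV
    obtain ⟨n, rfl⟩ := hV
    rw [← tp_apply_iff, ← tp_apply_iff, h]
  · intro h
    funext n
    have h1 := h (U n) (by rw [← hU]; exact ⟨n, rfl⟩)
    rw [← tp_apply_iff, ← tp_apply_iff] at h1
    rw [Bool.eq_iff_iff]
    exact h1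

theorem measurable_tp {U : ℕ → Set S.X} (hU : ∀ n, MeasurableSet (U n)) :
    Measurable (S.tp U) := by
  rw [measurable_pi_iff]
  intro n
  refine measurable_to_bool ?_
  have h1 : (fun x => S.tp U x n) ⁻¹' {true} = S.VT (U n) := by
    ext x
    exact S.tp_apply_iff U x n
  rw [h1]
  exact S.vt_meas (hU n)

theorem exists_section [Nonempty S.X] {𝒰 : Set (Set S.X)} (hg : S.Good 𝒰) {U : ℕ → Set S.X}
    (hU : Set.range U = 𝒰) :
    ∃ b : (ℕ → Bool) → S.X, Measurable b ∧ ∀ x, S.Eqv 𝒰 (b (S.tp U x)) x := by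
  obtain ⟨Sm, hS⟩ := hg.sys
  obtain ⟨i₀, hi₀⟩ : ∃ i, U i = Set.univ := by
    have h1 := hg.univ
    rw [← hU] at h1
    exact h1
  obtain ⟨σ, hσm, hσ0, -, hσs⟩ := leftmost (α := ℕ → Bool) (St := ℕ)
    (fun i => {p | p i = true})
    (fun i => by
      have h1 : Measurable (fun p : ℕ → Bool => p i) := measurable_pi_apply i
      exact h1 (MeasurableSet.singleton true))
    (fun n i j => U j ⊆ U i ∧ U j ∈ Sm n) i₀
  have hmem : ∀ i, U i ∈ 𝒰 := fun i => by rw [← hU]; exact ⟨i, rfl⟩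
  obtain ⟨x₀⟩ := ‹Nonempty S.X›
  obtain ⟨b, hbm, -, hb⟩ := S.exists_limit hg hS x₀ (fun n p => U (σ n p))
    (fun n p => hmem _) (fun n V => by
      have h1 : {p | U (σ n p) = V} = ⋃ i ∈ {i | U i = V}, {p | σ n p = i} := by
        ext p
        simp
      rw [h1]
      exact MeasurableSet.biUnion (Set.to_countable _) (fun i _ => hσm n i))
  refine ⟨b, hbm, fun x => ?_⟩
  set p := S.tp U x with hp
  have hex : ∀ n, x ∈ S.VT (U (σ n p)) → ∃ s, (U s ⊆ U (σ n p) ∧ U s ∈ Sm n) ∧ p s = true := by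
    intro n hx
    obtain ⟨V, hV, hVU, hVS, hxV⟩ := S.vt_shrink hg.countable (fun V => V ∈ Sm n) hx
      (fun y hy => hS.fine n (U (σ n p)) (hmem _) y hy)
    rw [← hU] at hV
    obtain ⟨j, rfl⟩ := hV
    exact ⟨j, ⟨hVU, hVS⟩, (S.tp_apply_iff U x j).mpr hxV⟩
  have hvt : ∀ n, x ∈ S.VT (U (σ n p)) := by
    intro n
    induction n with
    | zero =>
      rw [hσ0, hi₀]
      exact S.vt_univ x
    | succ n ih =>
      exact (S.tp_apply_iff U x _).mp (hσs n p (hex n ih)).2
  have hR : ∀ n, U (σ (n + 1) p) ⊆ U (σ n p) ∧ U (σ (n + 1) p) ∈ Sm n :=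
    fun n => (hσs n p (hex n (hvt n))).1
  obtain ⟨-, h2⟩ := hb p (fun n => by
      obtain ⟨y, -, hy⟩ := S.vt_hit' (hvt n)
      exact ⟨y, hy⟩) (fun n => (hR n).1) (fun n => (hR n).2)
  exact S.limit_eqv hg hvt h2

theorem exists_section' {𝒰 : Set (Set S.X)} (hg : S.Good 𝒰) :
    ∃ s : S.X → S.X, Measurable s ∧ (∀ x, S.Eqv 𝒰 (s x) x) ∧
      (∀ x y, S.Eqv 𝒰 x y → s x = s y) := by
  rcases isEmpty_or_nonempty S.X with he | hne
  · exact ⟨id, measurable_id, fun x => (he.false x).elim, fun x => (he.false x).elim⟩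
  · obtain ⟨U, hU⟩ := hg.countable.exists_eq_range ⟨Set.univ, hg.univ⟩
    have hU' : Set.range U = 𝒰 := hU.symm
    obtain ⟨b, hbm, hb⟩ := S.exists_section hg hU'
    refine ⟨fun x => b (S.tp U x), ?_, hb, ?_⟩
    · refine hbm.comp (S.measurable_tp fun n => hg.meas _ ?_)
      rw [hU]
      exact ⟨n, rfl⟩
    · intro x y hxy
      show b (S.tp U x) = b (S.tp U y)
      rw [(S.tp_eq_iff hU' x y).mpr hxy]

end PS

end H69M
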