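import Pool.Agent.H69M.Emb
import Pool.Agent.H69M.Enc
import Pool.Agent.H69M.CProj
import Pool.Agent.H69M.Sect

/-!
# RichNt : many nontrivial types

Let `K` be the map of `exists_emb`. `N = {x | ¬ Triv 𝒰 x}` (`triv_meas`). For `n : ℕ` let
`B n = {x | x ∈ N ∧ ∃ c v, c n = true ∧ E x (K x (enc c v))}`.

* `B n` is measurable: it is `N ∩ ⋃ k, {x | ∃ (c, v), (x, K x (enc (update c n true) v)) ∈ F k}`, and
  `measurable_cproj` applies with `Z = (ℕ → Bool) × (ℕ → Bool)`, `Y = X × X` (`K x` is continuous, `K · z` is measurable as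
  a section of the measurable `K`, `enc` is continuous, `Function.update` is continuous).
* `B n` is invariant: if `E x y` then `Eqv 𝒰 x y` (`eqv_of_E`), so `K x = K y` (for `x ∈ N`), `y ∈ N` (`triv_eqv`).
* (key) for `x ∈ N` and all `c`, `v`: `K x (enc c v) ∈ B n ↔ c n = true`. Let `y = K x (enc c v)`, `Eqv 𝒰 y x`, so
  `K y = K x`, `y ∈ N`. (←) take `c`, `v`. (→) `E y (K x (enc c' v'))` with `c' n = true` gives
  `E0 (enc c v) (enc c' v')`, so `c = c'`.

`ℱ = {B n}`. Let `𝒱 ⊇ 𝒰 ∪ ℱ` be good, `U : ℕ → Set X` with range `𝒱`, `b` the map of `exists_section` for `𝒱` (if `X` is empty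
the statement is trivial). For `(x, c)` let `q (x, c) n = true` iff `{v | K x (enc c v) ∈ VT (U n)}` is not meager; `q` is measurable by
`measurable_catq` (in `(X × (ℕ → Bool)) × (ℕ → Bool)`). `Q = b ∘ q`.
For `x ∈ N` and each `n` the set `{v | K x (enc c v) ∈ VT (U n)}` is Borel and `E0` invariant (`vt_iff`, `e0_enc`), so
meager or comeager (`e0_zero_one`). So the set `M (x, c)` of all `v` with `tp U (K x (enc c v)) = q (x, c)` is comeager. For such `v`,
`Eqv 𝒱 (Q (x, c)) (K x (enc c v))`. So: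
* `Eqv 𝒰 (Q (x, c)) x` (`Eqv.mono`).
* `Q (x, c)` is not trivial over `𝒱`: take `v`, `v'` in `M (x, c)`, not `E0` equivalent (`e0_exists`); both `K x (enc c v)`,
  `K x (enc c v')` have the same type over `𝒱` as `Q (x, c)`, but they are not `E` equivalent.
* if `Eqv 𝒰 x y`, `x ∈ N`: `K x = K y`, `q (x, c) = q (y, c)`. So `Eqv 𝒱 (Q (x,c)) (Q (y,c))`. If `Eqv 𝒱 (Q (x, c)) (Q (y, c'))`, then for
  `v ∈ M (x, c)`, `v' ∈ M (y, c')`: `Eqv 𝒱 (K x (enc c v)) (K x (enc c' v'))`, and by `mem_iff_of_eqv` for `B n`: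
  `c n = true ↔ c' n = true`.
-/

namespace H69M

open TopologicalSpace MeasureTheory Set Topology Filter

namespace PS

variable (S : PS)

/-- the invariant sets which read off the parameter -/
def RB (𝒰 : Set (Set S.X)) (K : S.X → (ℕ → Bool) → S.X) (n : ℕ) : Set S.X :=
  {x | ¬ S.Triv 𝒰 x ∧ ∃ c v : ℕ → Bool, c n = true ∧ S.E x (K x (enc c v))}

theorem rb_meas {𝒰 : Set (Set S.X)} (hg : S.Good 𝒰) {K : S.X → (ℕ → Bool) → S.X}
    (hKm : Measurable (fun p : S.X × (ℕ → Bool) => K p.1 p.2)) (hKc : ∀ x, Continuous (K x))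
    (n : ℕ) : MeasurableSet (S.RB 𝒰 K n) := by
  have e : S.RB 𝒰 K n = {x | S.Triv 𝒰 x}ᶜ ∩ ⋃ k, {x | ∃ z : (ℕ → Bool) × (ℕ → Bool),
      (x, K x (enc (Function.update z.1 n true) z.2)) ∈ S.F k} := by
    ext x
    simp only [RB, Set.mem_ofPred_eq, Set.mem_inter_iff, Set.mem_compl_iff, Set.mem_iUnion]
    constructor
    · rintro ⟨h1, c, v, hc, h2⟩
      obtain ⟨k, hk⟩ := (S.F_iff _ _).mp h2
      refine ⟨h1, k, (c, v), ?_⟩
      have : Function.update c n true = c := by
        rw [← hc]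
        exact Function.update_eq_self n c
      simp only [this]
      exact hk
    · rintro ⟨h1, k, z, hz⟩
      refine ⟨h1, Function.update z.1 n true, z.2, ?_, ?_⟩
      · rw [Function.update_self]
      · exact (S.F_iff _ _).mpr ⟨k, hz⟩
  rw [e]
  refine (S.triv_meas hg).compl.inter (MeasurableSet.iUnion fun k => ?_)
  refine measurable_cproj (fun (x : S.X) (z : (ℕ → Bool) × (ℕ → Bool)) =>
    (x, K x (enc (Function.update z.1 n true) z.2))) ?_ ?_ (S.F_closed k)
  · intro z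
    exact measurable_id.prodMk (hKm.comp (measurable_id.prodMk measurable_const))
  · intro x
    refine continuous_const.prodMk ((hKc x).comp ?_)
    exact continuous_enc.comp ((continuous_fst.update n continuous_const).prodMk continuous_snd)

theorem rb_inv {𝒰 : Set (Set S.X)} {K : S.X → (ℕ → Bool) → S.X}
    (hKeq : ∀ x y, S.Eqv 𝒰 x y → ¬ S.Triv 𝒰 x → K x = K y) (n : ℕ) : S.Inv (S.RB 𝒰 K n) := by
  rintro x y hxy ⟨h1, c, v, hc, h2⟩
  have heq := S.eqv_of_E 𝒰 hxy
  refine ⟨fun h => h1 ((S.triv_eqv heq).mpr h), c, v, hc, ?_⟩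
  rw [← hKeq x y heq h1]
  exact E.trans S (E.symm S hxy) h2

theorem rb_key {𝒰 : Set (Set S.X)} {K : S.X → (ℕ → Bool) → S.X}
    (hKeq : ∀ x y, S.Eqv 𝒰 x y → ¬ S.Triv 𝒰 x → K x = K y)
    (hKeqv : ∀ x, ¬ S.Triv 𝒰 x → ∀ z, S.Eqv 𝒰 (K x z) x)
    (hKE : ∀ x, ¬ S.Triv 𝒰 x → ∀ z z', S.E (K x z) (K x z') ↔ E0 z z')
    {x : S.X} (hx : ¬ S.Triv 𝒰 x) (c v : ℕ → Bool) (n : ℕ) :
    K x (enc c v) ∈ S.RB 𝒰 K n ↔ c n = true := by
  have h1 : S.Eqv 𝒰 x (K x (enc c v)) := Eqv.symm S (hKeqv x hx _)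
  have h2 : K x = K (K x (enc c v)) := hKeq _ _ h1 hx
  have h3 : ¬ S.Triv 𝒰 (K x (enc c v)) := fun h => hx ((S.triv_eqv h1).mpr h)
  constructor
  · rintro ⟨_, c', v', hc', h4⟩
    rw [← h2] at h4
    have h5 := (e0_enc c v c' v').mp ((hKE x hx _ _).mp h4)
    rw [h5.1]
    exact hc'
  · intro hc
    refine ⟨h3, c, v, hc, ?_⟩
    rw [← h2]
    exact E.refl S _

theorem rich_nt {𝒰 : Set (Set S.X)} (hg : S.Good 𝒰) :
    ∃ ℱ : Set (Set S.X), ℱ.Countable ∧ (∀ U ∈ ℱ, MeasurableSet U) ∧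
      ∀ 𝒱, S.Good 𝒱 → 𝒰 ⊆ 𝒱 → ℱ ⊆ 𝒱 → S.Param 𝒰 𝒱 {x | ¬ S.Triv 𝒱 x} := by
  classical
  obtain ⟨K, hKm, hKc, hKeq, hKeqv, hKE⟩ := S.exists_emb hg
  refine ⟨Set.range (S.RB 𝒰 K), Set.countable_range _, ?_, ?_⟩
  · rintro _ ⟨n, rfl⟩
    exact S.rb_meas hg hKm hKc n
  intro 𝒱 hg' hUV hFV
  rcases isEmpty_or_nonempty S.X with hemp | hne
  · refine ⟨fun p => p.1, measurable_fst, fun x => ?_, fun x => ?_⟩
    · exact (hemp.false x).elim
    · exact (hemp.false x).elim
  obtain ⟨U, hU⟩ := hg'.countable.exists_eq_range ⟨Set.univ, hg'.univ⟩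
  obtain ⟨b, hbm, hb⟩ := S.exists_section hg' hU.symm
  have hUmem : ∀ n, U n ∈ 𝒱 := fun n => by rw [hU]; exact ⟨n, rfl⟩
  set q : S.X × (ℕ → Bool) → (ℕ → Bool) := fun p n =>
    decide (¬ IsMeagre {v : ℕ → Bool | K p.1 (enc p.2 v) ∈ S.VT (U n)}) with hq
  have hqm : Measurable q := by
    rw [measurable_pi_iff]
    intro n
    apply measurable_to_bool
    have hA : MeasurableSet {r : (S.X × (ℕ → Bool)) × (ℕ → Bool) |
        K r.1.1 (enc r.1.2 r.2) ∈ S.VT (U n)} := by
      have h1 : Measurable (fun r : (S.X × (ℕ → Bool)) × (ℕ → Bool) =>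
          K r.1.1 (enc r.1.2 r.2)) := by
        have h0 : Measurable (fun r : (S.X × (ℕ → Bool)) × (ℕ → Bool) =>
            (r.1.1, enc r.1.2 r.2)) := by
          refine (measurable_fst.comp measurable_fst).prodMk ?_
          exact continuous_enc.measurable.comp
            ((measurable_snd.comp measurable_fst).prodMk measurable_snd)
        exact hKm.comp h0
      exact h1 (S.vt_meas (hg'.meas _ (hUmem n)))
    have h2 := measurable_catq hA
    have e : (fun p => q p n) ⁻¹' {true} = {p : S.X × (ℕ → Bool) | IsMeagre {v : ℕ → Bool |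
        (p, v) ∈ {r : (S.X × (ℕ → Bool)) × (ℕ → Bool) |
        K r.1.1 (enc r.1.2 r.2) ∈ S.VT (U n)}}}ᶜ := by
      ext p
      simp [hq]
    rw [e]
    exact h2.compl
  -- comeager sets of representatives
  have hM : ∀ x, ¬ S.Triv 𝒰 x → ∀ c : ℕ → Bool,
      IsMeagre {v : ℕ → Bool | S.tp U (K x (enc c v)) = q (x, c)}ᶜ := by
    intro x hx c
    have hsub : {v : ℕ → Bool | S.tp U (K x (enc c v)) = q (x, c)}ᶜ ⊆
        ⋃ n, {v : ℕ → Bool | S.tp U (K x (enc c v)) n ≠ q (x, c) n} := by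
      intro v hv
      by_contra hcon
      apply hv
      simp only [Set.mem_iUnion, Set.mem_ofPred_eq, not_exists, not_not] at hcon
      funext n
      exact hcon n
    refine IsMeagre.mono hsub ?_
    refine isMeagre_iUnion fun n => ?_
    have hAm : MeasurableSet {v : ℕ → Bool | K x (enc c v) ∈ S.VT (U n)} := by
      have h1 : Measurable (fun v : ℕ → Bool => K x (enc c v)) := by
        refine (hKc x).measurable.comp ?_
        exact continuous_enc.measurable.comp (measurable_const.prodMk measurable_id)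
      exact h1 (S.vt_meas (hg'.meas _ (hUmem n)))
    have hAi : ∀ z z', E0 z z' → z ∈ {v : ℕ → Bool | K x (enc c v) ∈ S.VT (U n)} →
        z' ∈ {v : ℕ → Bool | K x (enc c v) ∈ S.VT (U n)} := by
      intro z z' hz hzm
      have h1 : S.E (K x (enc c z)) (K x (enc c z')) :=
        (hKE x hx _ _).mpr ((e0_enc c z c z').mpr ⟨rfl, hz⟩)
      exact (S.vt_iff h1).mp hzm
    by_cases hmg : IsMeagre {v : ℕ → Bool | K x (enc c v) ∈ S.VT (U n)}
    · refine IsMeagre.mono ?_ hmg
      intro v hv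
      have h1 : q (x, c) n = false := by
        simp only [hq]
        rw [decide_eq_false_iff_not, not_not]
        exact hmg
      simp only [Set.mem_ofPred_eq, h1] at hv
      unfold tp at hv
      by_contra h2
      apply hv
      rw [decide_eq_false_iff_not]
      exact h2
    · have hmg' := (e0_zero_one hAm hAi).resolve_left hmg
      refine IsMeagre.mono ?_ hmg'
      intro v hv
      have h1 : q (x, c) n = true := by
        simp only [hq]
        rw [decide_eq_true_eq]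
        exact hmg
      simp only [Set.mem_ofPred_eq, h1] at hv
      unfold tp at hv
      intro h2
      apply hv
      rw [decide_eq_true_eq]
      exact h2
  have hMne : ∀ x, ¬ S.Triv 𝒰 x → ∀ c : ℕ → Bool,
      ∃ v, S.tp U (K x (enc c v)) = q (x, c) := by
    intro x hx c
    by_contra hcon
    push Not at hcon
    apply cantor_univ_not_meagre
    refine IsMeagre.mono ?_ (hM x hx c)
    intro v _
    exact hcon v
  have hQ : ∀ x c v, S.tp U (K x (enc c v)) = q (x, c) →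
      S.Eqv 𝒱 (b (q (x, c))) (K x (enc c v)) := by
    intro x c v hv
    rw [← hv]
    exact hb _
  refine ⟨fun p => b (q p), hbm.comp hqm, ?_, ?_⟩
  · intro x c hx
    obtain ⟨v, hv⟩ := hMne x hx c
    have h1 := hQ x c v hv
    refine ⟨?_, Eqv.trans S (Eqv.mono S hUV h1) (hKeqv x hx _)⟩
    intro htriv
    obtain ⟨v', hv', hnE⟩ := e0_exists (hM x hx c) v
    have h2 := hQ x c v' hv'
    have h3 : S.E (K x (enc c v)) (K x (enc c v')) :=
      E.trans S (E.symm S (htriv _ h1)) (htriv _ h2)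
    exact hnE ((e0_enc c v c v').mp ((hKE x hx _ _).mp h3)).2
  · intro x y c c' hxy hx
    have hKxy := hKeq x y hxy hx
    have hy : ¬ S.Triv 𝒰 y := fun h => hx ((S.triv_eqv hxy).mpr h)
    constructor
    · intro heqv
      obtain ⟨v, hv⟩ := hMne x hx c
      obtain ⟨v', hv'⟩ := hMne y hy c'
      have h1 : S.Eqv 𝒱 (K x (enc c v)) (K y (enc c' v')) :=
        Eqv.trans S (Eqv.symm S (hQ x c v hv)) (Eqv.trans S heqv (hQ y c' v' hv'))
      funext n
      have h2 := S.mem_iff_of_eqv (hFV ⟨n, rfl⟩) (S.rb_inv hKeq n) h1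
      rw [S.rb_key hKeq hKeqv hKE hx c v n, S.rb_key hKeq hKeqv hKE hy c' v' n] at h2
      exact Bool.eq_iff_iff.mpr h2
    · rintro rfl
      have h1 : q (x, c) = q (y, c) := by
        simp only [hq, hKxy]
      simp only [h1]
      exact Eqv.refl S _ _

end PS

end H69M
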