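import Pool.Agent.H69M.Emb
import Pool.Agent.H69M.Enc
import Pool.Agent.H69M.CProj

/-!
# RichTr : many trivial types over nontrivial types

Let `K` be the map of `exists_emb`, `N = {x | ¬ Triv 𝒰 x}`, `o = fun _ => false`. Let
`T = {x | x ∈ N ∧ ∃ c, E x (K x (enc c o))}` and `T' n = {x | x ∈ N ∧ ∃ c, c n = true ∧ E x (K x (enc c o))}`.
They are measurable (`measurable_cproj` with `Z = ℕ → Bool`, as in `RichNt`) and invariant. For `x ∈ N`,
`P (x, c) = K x (enc c o)` satisfies `P (x, c) ∈ T`, and `P (x, c) ∈ T' n ↔ c n = true` (as in `RichNt`).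
`ℱ = {T} ∪ {T' n}`; let `𝒱 ⊇ 𝒰 ∪ ℱ` be good. `Q (x, c) = P (x, c)` (measurable by composition):
* `Eqv 𝒰 (P (x, c)) x`, so `P (x, c)` is not trivial over `𝒰` (`triv_eqv`).
* `P (x, c)` is trivial over `𝒱`: let `Eqv 𝒱 (P (x, c)) y`. By `mem_iff_of_eqv`, `y ∈ T`, so `E y (K y (enc c' o))` for some
  `c'`, and `K y = K x` (`Eqv 𝒰 y x`), i.e. `E y (P (x, c'))`; so for each `n`:
  `c' n = true ↔ y ∈ T' n ↔ P (x, c) ∈ T' n ↔ c n = true`; `c' = c`, `E y (P (x, c))`.
* `Eqv 𝒱 (P (x, c)) (P (y, c')) ↔ c = c'` for `Eqv 𝒰 x y`: `K x = K y`; the sets `T' n` give `c = c'`; conversely equal points.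
-/

namespace H69M

open TopologicalSpace MeasureTheory Set Topology Filter

namespace PS

variable (S : PS)

private theorem richTr_enc : Continuous (fun c : ℕ → Bool => enc c (fun _ => false)) := by
  have h : Continuous (fun c : ℕ → Bool =>
      ((c, fun _ => false) : (ℕ → Bool) × (ℕ → Bool))) :=
    continuous_id.prodMk continuous_const
  exact continuous_enc.comp h

/-- the measurable sets of the proof -/
private theorem richTr_meas {K : S.X → (ℕ → Bool) → S.X}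
    (hKm : Measurable (fun p : S.X × (ℕ → Bool) => K p.1 p.2)) (hKc : ∀ x, Continuous (K x))
    (e : (ℕ → Bool) → (ℕ → Bool)) (he : Continuous e) :
    MeasurableSet {x | ∃ c, S.E x (K x (enc (e c) (fun _ => false)))} := by
  have h1 : {x | ∃ c, S.E x (K x (enc (e c) (fun _ => false)))} =
      ⋃ k, {x | ∃ c, (x, K x (enc (e c) (fun _ => false))) ∈ S.F k} := by
    ext x
    simp only [mem_ofPred_eq, mem_iUnion]
    constructor
    · rintro ⟨c, hc⟩
      obtain ⟨k, hk⟩ := (S.F_iff _ _).1 hc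
      exact ⟨k, c, hk⟩
    · rintro ⟨k, c, hk⟩
      exact ⟨c, (S.F_iff _ _).2 ⟨k, hk⟩⟩
  rw [h1]
  refine MeasurableSet.iUnion fun k => ?_
  refine measurable_cproj (fun x c => (x, K x (enc (e c) (fun _ => false)))) (fun c => ?_)
    (fun x => ?_) (S.F_closed k)
  · exact measurable_id.prodMk (hKm.comp (measurable_id.prodMk measurable_const))
  · exact continuous_const.prodMk ((hKc x).comp (richTr_enc.comp he))

theorem rich_tr {𝒰 : Set (Set S.X)} (hg : S.Good 𝒰) :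
    ∃ ℱ : Set (Set S.X), ℱ.Countable ∧ (∀ U ∈ ℱ, MeasurableSet U) ∧
      ∀ 𝒱, S.Good 𝒱 → 𝒰 ⊆ 𝒱 → ℱ ⊆ 𝒱 →
        S.Param 𝒰 𝒱 {x | S.Triv 𝒱 x ∧ ¬ S.Triv 𝒰 x} := by
  obtain ⟨K, hKm, hKc, hKe, hKu, hKE⟩ := S.exists_emb hg
  obtain ⟨P, hP⟩ : ∃ P : S.X → (ℕ → Bool) → S.X, P = fun x c => K x (enc c (fun _ => false)) :=
    ⟨_, rfl⟩
  have hPe : ∀ x y, S.Eqv 𝒰 x y → ¬ S.Triv 𝒰 x → P x = P y := by
    intro x y h1 h2
    rw [hP]
    dsimp only
    rw [hKe x y h1 h2]
  have hPu : ∀ x, ¬ S.Triv 𝒰 x → ∀ c, S.Eqv 𝒰 (P x c) x := by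
    intro x hx c
    rw [hP]
    exact hKu x hx _
  have hPE : ∀ x, ¬ S.Triv 𝒰 x → ∀ c c', S.E (P x c) (P x c') → c = c' := by
    intro x hx c c' h
    rw [hP] at h
    exact ((e0_enc _ _ _ _).1 ((hKE x hx _ _).1 h)).1
  have hPn : ∀ x, ¬ S.Triv 𝒰 x → ∀ c, ¬ S.Triv 𝒰 (P x c) := fun x hx c h =>
    hx ((S.triv_eqv (hPu x hx c)).1 h)
  have hPP : ∀ x, ¬ S.Triv 𝒰 x → ∀ c, P (P x c) = P x := fun x hx c =>
    hPe _ _ (hPu x hx c) (hPn x hx c)
  -- the sets
  obtain ⟨T, hT⟩ : ∃ T : Set S.X, T = {x | ¬ S.Triv 𝒰 x ∧ ∃ c, S.E x (P x c)} := ⟨_, rfl⟩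
  obtain ⟨T', hT'⟩ : ∃ T' : ℕ → Set S.X,
      T' = fun n => {x | ¬ S.Triv 𝒰 x ∧ ∃ c, c n = true ∧ S.E x (P x c)} := ⟨_, rfl⟩
  have hTi : S.Inv T := by
    intro x y hxy hx
    rw [hT] at hx ⊢
    obtain ⟨h1, c, h2⟩ := hx
    have h3 := S.eqv_of_E 𝒰 hxy
    refine ⟨fun h => h1 ((S.triv_eqv h3).2 h), c, ?_⟩
    rw [← hPe x y h3 h1]
    exact E.trans S (E.symm S hxy) h2
  have hTi' : ∀ n, S.Inv (T' n) := by
    intro n x y hxy hx
    rw [hT'] at hx ⊢
    obtain ⟨h1, c, hc, h2⟩ := hx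
    have h3 := S.eqv_of_E 𝒰 hxy
    refine ⟨fun h => h1 ((S.triv_eqv h3).2 h), c, hc, ?_⟩
    rw [← hPe x y h3 h1]
    exact E.trans S (E.symm S hxy) h2
  have hNm : MeasurableSet {x | ¬ S.Triv 𝒰 x} := (S.triv_meas hg).compl
  have hTm : MeasurableSet T := by
    have h1 := richTr_meas S hKm hKc id continuous_id
    have h2 : T = {x | ¬ S.Triv 𝒰 x} ∩ {x | ∃ c, S.E x (K x (enc (id c) (fun _ => false)))} := by
      rw [hT, hP]
      rfl
    rw [h2]
    exact hNm.inter h1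
  have hTm' : ∀ n, MeasurableSet (T' n) := by
    intro n
    have h1 := richTr_meas S hKm hKc (fun c => Function.update c n true)
      (continuous_id.update n continuous_const)
    have h2 : T' n = {x | ¬ S.Triv 𝒰 x} ∩
        {x | ∃ c, S.E x (K x (enc (Function.update c n true) (fun _ => false)))} := by
      rw [hT', hP]
      ext x
      constructor
      · rintro ⟨h3, c, hc, h4⟩
        refine ⟨h3, c, ?_⟩
        have h5 : Function.update c n true = c := by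
          rw [← hc]
          exact Function.update_eq_self n c
        rw [h5]
        exact h4
      · rintro ⟨h3, c, h4⟩
        exact ⟨h3, Function.update c n true, Function.update_self _ _ _, h4⟩
    rw [h2]
    exact hNm.inter h1
  refine ⟨insert T (Set.range T'), (Set.countable_range T').insert T, ?_, ?_⟩
  · intro U hU
    rcases hU with h | ⟨n, h⟩
    · rw [h]; exact hTm
    · rw [← h]; exact hTm' n
  intro 𝒱 hg' hUV hFV
  have hTV : T ∈ 𝒱 := hFV (mem_insert _ _)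
  have hTV' : ∀ n, T' n ∈ 𝒱 := fun n => hFV (mem_insert_of_mem _ ⟨n, rfl⟩)
  -- membership of points near `P x c`
  have hkey : ∀ x, ¬ S.Triv 𝒰 x → ∀ y, ¬ S.Triv 𝒰 y → P y = P x → ∀ c, S.E y (P x c) →
      ∀ n, (y ∈ T' n ↔ c n = true) := by
    intro x hx y hy hyx c hyc n
    rw [hT']
    constructor
    · rintro ⟨-, c', hc', h1⟩
      rw [hyx] at h1
      have h2 := hPE x hx c c' (E.trans S (E.symm S hyc) h1)
      rw [h2]
      exact hc'
    · intro hc
      refine ⟨hy, c, hc, ?_⟩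
      rw [hyx]
      exact hyc
  have hkeyP : ∀ x, ¬ S.Triv 𝒰 x → ∀ c n, (P x c ∈ T' n ↔ c n = true) := fun x hx c n =>
    hkey x hx (P x c) (hPn x hx c) (hPP x hx c) c (E.refl S _) n
  refine ⟨fun p => P p.1 p.2, ?_, ?_, ?_⟩
  · have h1 : Measurable (fun c : ℕ → Bool => enc c (fun _ => false)) :=
      richTr_enc.measurable
    have h2 : (fun p : S.X × (ℕ → Bool) => P p.1 p.2) =
        fun p => K p.1 (enc p.2 (fun _ => false)) := by rw [hP]
    rw [h2]
    exact hKm.comp (measurable_fst.prodMk (h1.comp measurable_snd))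
  · intro x c hx
    refine ⟨⟨?_, hPn x hx c⟩, hPu x hx c⟩
    intro y hy
    have h1 : P x c ∈ T := by
      rw [hT]
      refine ⟨hPn x hx c, c, ?_⟩
      rw [hPP x hx c]
      exact E.refl S _
    have h2 : y ∈ T := (S.mem_iff_of_eqv hTV hTi hy).1 h1
    have h3 : S.Eqv 𝒰 (P x c) y := Eqv.mono S hUV hy
    have h4 : P y = P x := by
      rw [← hPe _ _ h3 (hPn x hx c)]
      exact hPP x hx c
    rw [hT] at h2
    obtain ⟨h5, c', h6⟩ := h2
    rw [h4] at h6
    have h7 : c' = c := by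
      funext n
      have h8 := hkey x hx y h5 h4 c' h6 n
      have h9 := hkeyP x hx c n
      have h10 := S.mem_iff_of_eqv (hTV' n) (hTi' n) hy
      rw [Bool.eq_iff_iff]
      rw [← h8, ← h9, h10]
    rw [h7] at h6
    exact E.symm S h6
  · intro x y c c' hxy hx
    have hy : ¬ S.Triv 𝒰 y := fun h => hx ((S.triv_eqv hxy).2 h)
    constructor
    · intro h
      funext n
      have h1 := hkeyP x hx c n
      have h2 := hkeyP y hy c' n
      have h3 := S.mem_iff_of_eqv (hTV' n) (hTi' n) h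
      rw [Bool.eq_iff_iff, ← h1, ← h2]
      exact h3
    · rintro rfl
      show S.Eqv 𝒱 (P x c) (P y c)
      rw [hPe x y hxy hx]
      exact Eqv.refl S 𝒱 _

end PS

end H69M
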