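import Pool.Agent.H69M.Sect
import Pool.Agent.H69M.RichNt
import Pool.Agent.H69M.RichTr

/-!
# Start : the first condition; standardness when all types are trivial

`std_of_triv`. Let `s` be the map of `exists_section'`. `E x y ↔ s x = s y` (`eqv_of_E`, and triviality). The subtype
`Z = {x : X // s x = x}` is a standard Borel space (measurable subset), `Quo → Z`, `[x] ↦ s x` is well defined,
bijective, measurable for the quotient sigma-algebra, with measurable inverse `x ↦ [x]`. So `Quo ≃ᵐ Z`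
(`MeasurableEquiv.standardBorel`, or: a measurable equivalence with a standard Borel space).

`start`. Let `𝒰₀` be good (`good_exists` for the empty family), `x₀` not trivial over `𝒰₀`, `𝒰 ⊇ 𝒰₀ ∪ ℱ₁ ∪ ℱ₂` good, with
the families of `rich_nt` and `rich_tr`. `s` the map of `exists_section'` for `𝒰`. The subtypes
`A = {x // s x = x ∧ ¬ Triv 𝒰 x}` and `B = {x // s x = x ∧ Triv 𝒰 x}` are standard Borel spaces, and uncountable: with
the map `Q` of `Param 𝒰₀ 𝒰 {x | ¬ Triv 𝒰 x}`, `c ↦ s (Q (x₀, c))` is an injection of `ℕ → Bool` into `A`; the same for `B`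
with the `Q` of `rich_tr`. The same for `T`: `s'`, `A'`, `B'`. `PolishSpace.measurableEquivOfNotCountable` gives
`e₁ : A ≃ᵐ A'`, `e₂ : B ≃ᵐ B'`. Let `R` be the set of all `(x, y)` such that either `x`, `y` are both nontrivial and
`e₁ (s x) = s' y`, or both are trivial and `e₂ (s x) = s' y`. Measurability: let `F x = e₁ (s x)` for nontrivial `x` and
`F x = e₂ (s x)` for trivial `x`, a measurable map `X → T.X`; `R = {(x, y) | F x = s' y ∧ (Triv x ↔ Triv y)}`.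
All the properties of a condition are immediate (`triv_eqv`).
-/

namespace H69M

open TopologicalSpace MeasureTheory Set Topology Filter

private theorem std_of_equiv {α β : Type} [MeasurableSpace α] [MeasurableSpace β]
    [StandardBorelSpace β] (e : α ≃ᵐ β) : StandardBorelSpace α := by
  letI := upgradeStandardBorel β
  letI t : TopologicalSpace α := TopologicalSpace.induced e.toEquiv inferInstance
  refine ⟨⟨t, ⟨?_⟩, e.toEquiv.polishSpace_induced⟩⟩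
  have h1 : borel α = (borel β).comap e.toEquiv := borel_comap
  rw [h1, ← BorelSpace.measurable_eq (α := β)]
  exact e.measurableEmbedding.comap_eq.symm

theorem std_of_triv (S : PS) {𝒰 : Set (Set S.X)} (hg : S.Good 𝒰) (h : ∀ x, S.Triv 𝒰 x) :
    StandardBorelSpace S.Quo := by
  obtain ⟨s, hs, hs1, hs2⟩ := S.exists_section' hg
  have hss : ∀ x, s (s x) = s x := fun x => hs2 _ _ (hs1 x)
  have hE : ∀ x, S.E x (s x) := fun x => h x _ (PS.Eqv.symm S (hs1 x))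
  have hsE : ∀ x y, S.E x y → s x = s y := fun x y hxy => hs2 _ _ (S.eqv_of_E 𝒰 hxy)
  have hZ : MeasurableSet {x : S.X | s x = x} := measurableSet_eq_fun hs measurable_id
  haveI : StandardBorelSpace {x : S.X | s x = x} := hZ.standardBorel
  have hf : Measurable fun x : S.X => (⟨s x, hss x⟩ : {x : S.X | s x = x}) :=
    hs.subtype_mk
  have htq : Measurable S.toQuo := fun B hB => hB
  refine std_of_equiv (β := {x : S.X | s x = x}) ?_
  refine { toFun := Quotient.lift (s := S.setoid) (fun x => ⟨s x, hss x⟩)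
             (fun x y hxy => Subtype.ext (hsE x y hxy))
           invFun := fun z => S.toQuo z.1
           left_inv := ?_, right_inv := ?_, measurable_toFun := ?_, measurable_invFun := ?_ }
  · intro p
    obtain ⟨x, rfl⟩ := S.toQuo_surj p
    show S.toQuo (s x) = S.toQuo x
    rw [S.toQuo_eq_iff]
    exact PS.E.symm S (hE x)
  · rintro ⟨z, hz⟩
    exact Subtype.ext hz
  · intro B hB
    exact hf hB
  · exact htq.comp measurable_subtype_coe

private theorem start_aux {S : PS} (hS : ∀ 𝒰, S.Good 𝒰 → ∃ x, ¬ S.Triv 𝒰 x) :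
    ∃ (𝒰 : Set (Set S.X)) (s : S.X → S.X), S.Good 𝒰 ∧ Measurable s ∧ (∀ x, S.Eqv 𝒰 (s x) x) ∧
      (∀ x y, S.Eqv 𝒰 x y → s x = s y) ∧ ¬ Countable {x | s x = x ∧ ¬ S.Triv 𝒰 x} ∧
      ¬ Countable {x | s x = x ∧ S.Triv 𝒰 x} := by
  obtain ⟨𝒰₀, h𝒰₀, -⟩ := S.good_exists (𝒮 := ∅) countable_empty (fun U hU => hU.elim)
  obtain ⟨x₀, hx₀⟩ := hS 𝒰₀ h𝒰₀
  obtain ⟨ℱ₁, hc₁, hm₁, h₁⟩ := S.rich_nt h𝒰₀
  obtain ⟨ℱ₂, hc₂, hm₂, h₂⟩ := S.rich_tr h𝒰₀
  obtain ⟨𝒰, h𝒰, hsub⟩ := S.good_exists (𝒮 := 𝒰₀ ∪ ℱ₁ ∪ ℱ₂)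
    ((h𝒰₀.countable.union hc₁).union hc₂) (by
      rintro U ((hU | hU) | hU)
      · exact h𝒰₀.meas U hU
      · exact hm₁ U hU
      · exact hm₂ U hU)
  obtain ⟨Q₁, -, hQ₁, hQ₁'⟩ := h₁ 𝒰 h𝒰 (fun U hU => hsub (Or.inl (Or.inl hU)))
    (fun U hU => hsub (Or.inl (Or.inr hU)))
  obtain ⟨Q₂, -, hQ₂, hQ₂'⟩ := h₂ 𝒰 h𝒰 (fun U hU => hsub (Or.inl (Or.inl hU)))
    (fun U hU => hsub (Or.inr hU))
  obtain ⟨s, hs, hs1, hs2⟩ := S.exists_section' h𝒰
  have hss : ∀ x, s (s x) = s x := fun x => hs2 _ _ (hs1 x)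
  have hu : ¬ Countable (ℕ → Bool) := by
    intro hc
    obtain ⟨f, hf⟩ := exists_surjective_nat (ℕ → Bool)
    obtain ⟨n, hn⟩ := hf (fun k => !(f k k))
    have h3 : f n n = !(f n n) := congrFun hn n
    revert h3
    cases f n n <;> simp
  refine ⟨𝒰, s, h𝒰, hs, hs1, hs2, fun hcon => hu ?_, fun hcon => hu ?_⟩
  · have hmem : ∀ c : ℕ → Bool, s (Q₁ (x₀, c)) ∈ {x | s x = x ∧ ¬ S.Triv 𝒰 x} := fun c =>
      ⟨hss _, fun hT => (hQ₁ x₀ c hx₀).1 ((S.triv_eqv (hs1 _)).1 hT)⟩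
    have hinj : Function.Injective fun c : ℕ → Bool =>
        (⟨s (Q₁ (x₀, c)), hmem c⟩ : {x | s x = x ∧ ¬ S.Triv 𝒰 x}) := by
      intro c c' hcc
      have h3 : s (Q₁ (x₀, c)) = s (Q₁ (x₀, c')) := congrArg Subtype.val hcc
      refine (hQ₁' x₀ x₀ c c' (PS.Eqv.refl S _ _) hx₀).1 ?_
      have h4 := PS.Eqv.symm S (hs1 (Q₁ (x₀, c)))
      rw [h3] at h4
      exact PS.Eqv.trans S h4 (hs1 _)
    exact hinj.countable
  · have hmem : ∀ c : ℕ → Bool, s (Q₂ (x₀, c)) ∈ {x | s x = x ∧ S.Triv 𝒰 x} := fun c =>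
      ⟨hss _, (S.triv_eqv (hs1 _)).2 (hQ₂ x₀ c hx₀).1.1⟩
    have hinj : Function.Injective fun c : ℕ → Bool =>
        (⟨s (Q₂ (x₀, c)), hmem c⟩ : {x | s x = x ∧ S.Triv 𝒰 x}) := by
      intro c c' hcc
      have h3 : s (Q₂ (x₀, c)) = s (Q₂ (x₀, c')) := congrArg Subtype.val hcc
      refine (hQ₂' x₀ x₀ c c' (PS.Eqv.refl S _ _) hx₀).1 ?_
      have h4 := PS.Eqv.symm S (hs1 (Q₂ (x₀, c)))
      rw [h3] at h4
      exact PS.Eqv.trans S h4 (hs1 _)
    exact hinj.countable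

theorem start {S T : PS} (hS : ∀ 𝒰, S.Good 𝒰 → ∃ x, ¬ S.Triv 𝒰 x)
    (hT : ∀ 𝒱, T.Good 𝒱 → ∃ y, ¬ T.Triv 𝒱 y) : Nonempty (Cond S T) := by
  classical
  obtain ⟨𝒰, s, h𝒰, hs, hs1, hs2, hA, hB⟩ := start_aux hS
  obtain ⟨𝒱, s', h𝒱, hs', hs1', hs2', hA', hB'⟩ := start_aux hT
  have hss : ∀ x, s (s x) = s x := fun x => hs2 _ _ (hs1 x)
  have hss' : ∀ y, s' (s' y) = s' y := fun y => hs2' _ _ (hs1' y)
  have hfix : MeasurableSet {x : S.X | s x = x} := measurableSet_eq_fun hs measurable_id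
  have hfix' : MeasurableSet {y : T.X | s' y = y} := measurableSet_eq_fun hs' measurable_id
  have htr := S.triv_meas h𝒰
  have htr' := T.triv_meas h𝒱
  have mA : MeasurableSet {x | s x = x ∧ ¬ S.Triv 𝒰 x} := hfix.inter htr.compl
  have mB : MeasurableSet {x | s x = x ∧ S.Triv 𝒰 x} := hfix.inter htr
  have mA' : MeasurableSet {y | s' y = y ∧ ¬ T.Triv 𝒱 y} := hfix'.inter htr'.compl
  have mB' : MeasurableSet {y | s' y = y ∧ T.Triv 𝒱 y} := hfix'.inter htr'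
  haveI := mA.standardBorel
  haveI := mB.standardBorel
  haveI := mA'.standardBorel
  haveI := mB'.standardBorel
  let e₁ : {x | s x = x ∧ ¬ S.Triv 𝒰 x} ≃ᵐ {y | s' y = y ∧ ¬ T.Triv 𝒱 y} :=
    PolishSpace.measurableEquivOfNotCountable hA hA'
  let e₂ : {x | s x = x ∧ S.Triv 𝒰 x} ≃ᵐ {y | s' y = y ∧ T.Triv 𝒱 y} :=
    PolishSpace.measurableEquivOfNotCountable hB hB'
  obtain ⟨y₀, -⟩ := hT 𝒱 h𝒱
  obtain ⟨f₁, hf₁, hf₁'⟩ := (MeasurableEmbedding.subtype_coe mA).exists_measurable_extend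
    (g := fun a => (e₁ a).1) (measurable_subtype_coe.comp e₁.measurable) (fun _ => ⟨y₀⟩)
  obtain ⟨f₂, hf₂, hf₂'⟩ := (MeasurableEmbedding.subtype_coe mB).exists_measurable_extend
    (g := fun a => (e₂ a).1) (measurable_subtype_coe.comp e₂.measurable) (fun _ => ⟨y₀⟩)
  set F : S.X → T.X := fun x => if S.Triv 𝒰 x then f₂ (s x) else f₁ (s x) with hF
  have hFm : Measurable F := Measurable.ite htr (hf₂.comp hs) (hf₁.comp hs)
  have memA : ∀ x, ¬ S.Triv 𝒰 x → s x ∈ {x | s x = x ∧ ¬ S.Triv 𝒰 x} := fun x hx =>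
    ⟨hss x, fun h => hx ((S.triv_eqv (hs1 x)).1 h)⟩
  have memB : ∀ x, S.Triv 𝒰 x → s x ∈ {x | s x = x ∧ S.Triv 𝒰 x} := fun x hx =>
    ⟨hss x, (S.triv_eqv (hs1 x)).2 hx⟩
  have memA' : ∀ y, ¬ T.Triv 𝒱 y → s' y ∈ {y | s' y = y ∧ ¬ T.Triv 𝒱 y} := fun x hx =>
    ⟨hss' x, fun h => hx ((T.triv_eqv (hs1' x)).1 h)⟩
  have memB' : ∀ y, T.Triv 𝒱 y → s' y ∈ {y | s' y = y ∧ T.Triv 𝒱 y} := fun x hx =>
    ⟨hss' x, (T.triv_eqv (hs1' x)).2 hx⟩
  have F1 : ∀ x (hx : ¬ S.Triv 𝒰 x), F x = (e₁ ⟨s x, memA x hx⟩).1 := by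
    intro x hx
    have h1 : F x = f₁ (s x) := by
      simp only [hF]
      rw [if_neg hx]
    rw [h1]
    exact congrFun hf₁' ⟨s x, memA x hx⟩
  have F2 : ∀ x (hx : S.Triv 𝒰 x), F x = (e₂ ⟨s x, memB x hx⟩).1 := by
    intro x hx
    have h1 : F x = f₂ (s x) := by
      simp only [hF]
      rw [if_pos hx]
    rw [h1]
    exact congrFun hf₂' ⟨s x, memB x hx⟩
  have hEF : ∀ x x', (S.Triv 𝒰 x ↔ S.Triv 𝒰 x') → (S.Eqv 𝒰 x x' ↔ F x = F x') := by
    intro x x' htt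
    constructor
    · intro h
      have h1 := hs2 x x' h
      simp only [hF]
      rw [h1]
      by_cases hx : S.Triv 𝒰 x
      · rw [if_pos hx, if_pos (htt.1 hx)]
      · rw [if_neg hx, if_neg (fun h => hx (htt.2 h))]
    · intro h
      have h1 : s x = s x' := by
        by_cases hx : S.Triv 𝒰 x
        · rw [F2 x hx, F2 x' (htt.1 hx)] at h
          have h2 := e₂.injective (Subtype.ext h)
          exact congrArg Subtype.val h2
        · have hx' : ¬ S.Triv 𝒰 x' := fun h => hx (htt.2 h)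
          rw [F1 x hx, F1 x' hx'] at h
          have h2 := e₁.injective (Subtype.ext h)
          exact congrArg Subtype.val h2
      have h4 := PS.Eqv.symm S (hs1 x)
      rw [h1] at h4
      exact PS.Eqv.trans S h4 (hs1 _)
  have hEs : ∀ y y', T.Eqv 𝒱 y y' ↔ s' y = s' y' := by
    intro y y'
    constructor
    · exact hs2' y y'
    · intro h
      have h4 := PS.Eqv.symm T (hs1' y)
      rw [h] at h4
      exact PS.Eqv.trans T h4 (hs1' _)
  refine ⟨{ 𝒰 := 𝒰, 𝒱 := 𝒱, R := {p | F p.1 = s' p.2 ∧ (S.Triv 𝒰 p.1 ↔ T.Triv 𝒱 p.2)}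
            good := h𝒰, good' := h𝒱, meas := ?_, left := ?_, right := ?_, eqv := ?_
            sat := ?_, triv := ?_ }⟩
  · refine (measurableSet_eq_fun (hFm.comp measurable_fst) (hs'.comp measurable_snd)).inter ?_
    have m1 : MeasurableSet {p : S.X × T.X | S.Triv 𝒰 p.1} := measurable_fst htr
    have m2 : MeasurableSet {p : S.X × T.X | T.Triv 𝒱 p.2} := measurable_snd htr'
    have h1 : {p : S.X × T.X | S.Triv 𝒰 p.1 ↔ T.Triv 𝒱 p.2} =
        ({p : S.X × T.X | S.Triv 𝒰 p.1} ∩ {p : S.X × T.X | T.Triv 𝒱 p.2}) ∪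
        ({p : S.X × T.X | S.Triv 𝒰 p.1}ᶜ ∩ {p : S.X × T.X | T.Triv 𝒱 p.2}ᶜ) := by
      ext p
      simp only [mem_setOf_eq, mem_union, mem_inter_iff, mem_compl_iff]
      tauto
    show MeasurableSet {p : S.X × T.X | S.Triv 𝒰 p.1 ↔ T.Triv 𝒱 p.2}
    rw [h1]
    exact (m1.inter m2).union (m1.compl.inter m2.compl)
  · intro x
    by_cases hx : S.Triv 𝒰 x
    · refine ⟨(e₂ ⟨s x, memB x hx⟩).1, ?_, ?_⟩
      · show F x = s' (e₂ ⟨s x, memB x hx⟩).1
        rw [(e₂ ⟨s x, memB x hx⟩).2.1]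
        exact F2 x hx
      · exact ⟨fun _ => (e₂ ⟨s x, memB x hx⟩).2.2, fun _ => hx⟩
    · refine ⟨(e₁ ⟨s x, memA x hx⟩).1, ?_, ?_⟩
      · show F x = s' (e₁ ⟨s x, memA x hx⟩).1
        rw [(e₁ ⟨s x, memA x hx⟩).2.1]
        exact F1 x hx
      · exact ⟨fun h => absurd h hx, fun h => absurd h (e₁ ⟨s x, memA x hx⟩).2.2⟩
  · intro y
    by_cases hy : T.Triv 𝒱 y
    · have h1 := (e₂.symm ⟨s' y, memB' y hy⟩).2
      refine ⟨(e₂.symm ⟨s' y, memB' y hy⟩).1, ?_, ⟨fun _ => hy, fun _ => h1.2⟩⟩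
      show F (e₂.symm ⟨s' y, memB' y hy⟩).1 = s' y
      rw [F2 _ h1.2]
      have h2 : (⟨s (e₂.symm ⟨s' y, memB' y hy⟩).1, memB _ h1.2⟩ :
          {x | s x = x ∧ S.Triv 𝒰 x}) = e₂.symm ⟨s' y, memB' y hy⟩ := Subtype.ext h1.1
      rw [h2, e₂.apply_symm_apply]
    · have h1 := (e₁.symm ⟨s' y, memA' y hy⟩).2
      refine ⟨(e₁.symm ⟨s' y, memA' y hy⟩).1, ?_,
        ⟨fun h => absurd h h1.2, fun h => absurd h hy⟩⟩
      show F (e₁.symm ⟨s' y, memA' y hy⟩).1 = s' y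
      rw [F1 _ h1.2]
      have h2 : (⟨s (e₁.symm ⟨s' y, memA' y hy⟩).1, memA _ h1.2⟩ :
          {x | s x = x ∧ ¬ S.Triv 𝒰 x}) = e₁.symm ⟨s' y, memA' y hy⟩ := Subtype.ext h1.1
      rw [h2, e₁.apply_symm_apply]
  · rintro x y x' y' ⟨h1, h2⟩ ⟨h1', h2'⟩
    simp only at h1 h2 h1' h2'
    constructor
    · intro h
      rw [hEs, ← h1, ← h1']
      exact (hEF x x' (S.triv_eqv h)).1 h
    · intro h
      have htt : S.Triv 𝒰 x ↔ S.Triv 𝒰 x' := h2.trans ((T.triv_eqv h).trans h2'.symm)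
      rw [hEF x x' htt, h1, h1']
      exact (hEs y y').1 h
  · rintro x y x' y' ⟨h1, h2⟩ h h'
    simp only at h1 h2
    have htt := S.triv_eqv h
    refine ⟨?_, ?_⟩
    · show F x' = s' y'
      rw [← (hEF x x' htt).1 h, h1, (hEs y y').1 h']
    · exact htt.symm.trans (h2.trans (T.triv_eqv h'))
  · rintro x y ⟨-, h2⟩
    exact h2

end H69M
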