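import Pool.Agent.H69M.Fib
import Pool.Agent.H69M.RichNt
import Pool.Agent.H69M.RichTr

/-!
# Step : every condition can be extended

Let `ℱ₁`, `ℱ₂` be the families of `rich_nt` and `rich_tr` for `c.𝒰` (in `S`), and `ℱ₁'`, `ℱ₂'` those for `c.𝒱` (in `T`).
`good_exists`: good algebras `𝒰₁ ⊇ c.𝒰 ∪ 𝒮 ∪ ℱ₁ ∪ ℱ₂` and `𝒱₁ ⊇ c.𝒱 ∪ 𝒯 ∪ ℱ₁' ∪ ℱ₂'`.
`fib` for `A = {x | ¬ Triv 𝒰₁ x}` gives `φ`, for `B = {x | Triv 𝒰₁ x ∧ ¬ Triv c.𝒰 x}` gives `ψ`; in `T`: `A'`, `φ'`, `B'`, `ψ'`.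
(`A ⊆ {x | ¬ Triv c.𝒰 x}` by `triv_mono`; saturation by `triv_eqv`, `Eqv.mono`.) Put
`R₁ = {(x, y) ∈ c.R | Triv c.𝒰 x ∨ (x ∈ A ∧ y ∈ A' ∧ φ x = φ' y) ∨ (x ∈ B ∧ y ∈ B' ∧ ψ x = ψ' y)}`.
It is measurable (`triv_meas`; `{(x, y) | φ x = φ' y}` is the preimage of the diagonal of `ℕ → Bool`,
`measurableSet_eq_fun`).
* `left`: given `x` take `y₀` with `(x, y₀) ∈ c.R`. If `Triv c.𝒰 x` we are done. Otherwise `y₀` is not trivial over `c.𝒱`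
  (`c.triv`). If `x ∈ A` take `y ∈ A'` with `Eqv c.𝒱 y₀ y`, `φ' y = φ x`; `(x, y) ∈ c.R` by `sat`. If `x ∉ A` then
  `x ∈ B`; use `ψ`. `right` is symmetric (`c.triv` : `Triv c.𝒱 y ↔ Triv c.𝒰 x`).
* `eqv`: `(x, y), (x', y') ∈ R₁`. If `Eqv 𝒰₁ x x'` then `Eqv c.𝒰 x x'`, so `Eqv c.𝒱 y y'`. Case `Triv c.𝒰 x`: then `y`
  is trivial over `c.𝒱`, so `E y y'` and `Eqv 𝒱₁ y y'` (`eqv_of_E`). Case `x ∈ A`: `x' ∈ A` too, so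
  `y, y' ∈ A'`, `φ' y = φ x = φ x' = φ' y'`, so `Eqv 𝒱₁ y y'`. Case `x ∈ B`: the same. The
  three cases are exclusive. The converse is symmetric.
* `sat`: clear from the saturation of `A`, `A'`, `B`, `B'` and the fact that `φ`, ... are constant on types.
* `triv`: if `Triv c.𝒰 x` then both are trivial (`triv_mono`); if `x ∈ A`, `y ∈ A'` both are nontrivial; if
  `x ∈ B`, `y ∈ B'` both are trivial over `𝒰₁`, `𝒱₁`.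
-/

namespace H69M

open TopologicalSpace MeasureTheory Set Topology Filter

/-- the data for one side -/
private structure Side (S : PS) (𝒰 𝒰₁ : Set (Set S.X)) (φ ψ : S.X → ℕ → Bool) : Prop where
  good : S.Good 𝒰₁
  sub : 𝒰 ⊆ 𝒰₁
  mφ : Measurable φ
  mψ : Measurable ψ
  a : ∀ x y, ¬ S.Triv 𝒰₁ x → ¬ S.Triv 𝒰₁ y → (S.Eqv 𝒰₁ x y ↔ (S.Eqv 𝒰 x y ∧ φ x = φ y))
  a' : ∀ x, ¬ S.Triv 𝒰 x → ∀ c, ∃ y, ¬ S.Triv 𝒰₁ y ∧ S.Eqv 𝒰 x y ∧ φ y = c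
  b : ∀ x y, S.Triv 𝒰₁ x → ¬ S.Triv 𝒰 x → S.Triv 𝒰₁ y → ¬ S.Triv 𝒰 y →
    (S.Eqv 𝒰₁ x y ↔ (S.Eqv 𝒰 x y ∧ ψ x = ψ y))
  b' : ∀ x, ¬ S.Triv 𝒰 x → ∀ c, ∃ y, S.Triv 𝒰₁ y ∧ ¬ S.Triv 𝒰 y ∧ S.Eqv 𝒰 x y ∧ ψ y = c

private theorem side_exists (S : PS) {𝒰 : Set (Set S.X)} (hg : S.Good 𝒰) {𝒮 : Set (Set S.X)}
    (h𝒮 : 𝒮.Countable) (h𝒮m : ∀ U ∈ 𝒮, MeasurableSet U) :
    ∃ 𝒰₁ φ ψ, Side S 𝒰 𝒰₁ φ ψ ∧ 𝒮 ⊆ 𝒰₁ := by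
  obtain ⟨ℱ, hℱc, hℱm, hℱ⟩ := S.rich_nt hg
  obtain ⟨ℱ', hℱc', hℱm', hℱ'⟩ := S.rich_tr hg
  obtain ⟨𝒰₁, hg₁, hs₁⟩ := S.good_exists (𝒮 := 𝒰 ∪ 𝒮 ∪ ℱ ∪ ℱ')
    (((hg.countable.union h𝒮).union hℱc).union hℱc') (by
      rintro U (((hU | hU) | hU) | hU)
      · exact hg.meas U hU
      · exact h𝒮m U hU
      · exact hℱm U hU
      · exact hℱm' U hU)
  have s1 : 𝒰 ⊆ 𝒰₁ := fun U hU => hs₁ (Or.inl (Or.inl (Or.inl hU)))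
  have s2 : 𝒮 ⊆ 𝒰₁ := fun U hU => hs₁ (Or.inl (Or.inl (Or.inr hU)))
  have s3 : ℱ ⊆ 𝒰₁ := fun U hU => hs₁ (Or.inl (Or.inr hU))
  have s4 : ℱ' ⊆ 𝒰₁ := fun U hU => hs₁ (Or.inr hU)
  have m0 := S.triv_meas hg
  have m1 := S.triv_meas hg₁
  obtain ⟨φ, φm, φ1, φ2⟩ := S.fib hg hg₁ s1 (T := {x | ¬ S.Triv 𝒰₁ x}) m1.compl
    (fun x y hxy hx hy => hx ((S.triv_eqv hxy).2 hy)) (fun x hx h => hx (S.triv_mono s1 h))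
    (hℱ 𝒰₁ hg₁ s1 s3)
  obtain ⟨ψ, ψm, ψ1, ψ2⟩ := S.fib hg hg₁ s1 (T := {x | S.Triv 𝒰₁ x ∧ ¬ S.Triv 𝒰 x})
    (m1.inter m0.compl)
    (fun x y hxy hx => ⟨(S.triv_eqv hxy).1 hx.1, fun hy =>
      hx.2 ((S.triv_eqv (PS.Eqv.mono S s1 hxy)).2 hy)⟩) (fun x hx => hx.2)
    (hℱ' 𝒰₁ hg₁ s1 s4)
  refine ⟨𝒰₁, φ, ψ, ⟨hg₁, s1, φm, ψm, fun x y hx hy => φ1 x hx y hy, fun x hx c => ?_,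
    fun x y h1 h2 h3 h4 => ψ1 x ⟨h1, h2⟩ y ⟨h3, h4⟩, fun x hx c => ?_⟩, s2⟩
  · obtain ⟨y, h1, h2, h3⟩ := φ2 x hx c
    exact ⟨y, h1, h2, h3⟩
  · obtain ⟨y, h1, h2, h3⟩ := ψ2 x hx c
    exact ⟨y, h1.1, h1.2, h2, h3⟩

/-- the refinement of the relation -/
private def Rl {S T : PS} (𝒰 𝒰₁ : Set (Set S.X)) (φ ψ : S.X → ℕ → Bool) (𝒱 𝒱₁ : Set (Set T.X))
    (φ' ψ' : T.X → ℕ → Bool) (x : S.X) (y : T.X) : Prop :=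
  (S.Triv 𝒰 x ∧ T.Triv 𝒱 y) ∨ (¬ S.Triv 𝒰₁ x ∧ ¬ T.Triv 𝒱₁ y ∧ φ x = φ' y) ∨
    (S.Triv 𝒰₁ x ∧ ¬ S.Triv 𝒰 x ∧ T.Triv 𝒱₁ y ∧ ¬ T.Triv 𝒱 y ∧ ψ x = ψ' y)

section

variable {S T : PS} {𝒰 𝒰₁ : Set (Set S.X)} {φ ψ : S.X → ℕ → Bool} {𝒱 𝒱₁ : Set (Set T.X)}
  {φ' ψ' : T.X → ℕ → Bool}

private theorem rl_symm {x : S.X} {y : T.X} (h : Rl 𝒰 𝒰₁ φ ψ 𝒱 𝒱₁ φ' ψ' x y) :
    Rl 𝒱 𝒱₁ φ' ψ' 𝒰 𝒰₁ φ ψ y x := by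
  rcases h with ⟨h1, h2⟩ | ⟨h1, h2, h3⟩ | ⟨h1, h2, h3, h4, h5⟩
  · exact Or.inl ⟨h2, h1⟩
  · exact Or.inr (Or.inl ⟨h2, h1, h3.symm⟩)
  · exact Or.inr (Or.inr ⟨h3, h4, h1, h2, h5.symm⟩)

private theorem rl_left (hT : Side T 𝒱 𝒱₁ φ' ψ') {x : S.X} {y₀ : T.X}
    (hxy : S.Triv 𝒰 x ↔ T.Triv 𝒱 y₀) :
    ∃ y, T.Eqv 𝒱 y₀ y ∧ Rl 𝒰 𝒰₁ φ ψ 𝒱 𝒱₁ φ' ψ' x y := by
  by_cases h0 : S.Triv 𝒰 x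
  · exact ⟨y₀, PS.Eqv.refl T _ _, Or.inl ⟨h0, hxy.1 h0⟩⟩
  · have h1 : ¬ T.Triv 𝒱 y₀ := fun h => h0 (hxy.2 h)
    by_cases h2 : S.Triv 𝒰₁ x
    · obtain ⟨y, a1, a2, a3, a4⟩ := hT.b' y₀ h1 (ψ x)
      exact ⟨y, a3, Or.inr (Or.inr ⟨h2, h0, a1, a2, a4.symm⟩)⟩
    · obtain ⟨y, a1, a2, a3⟩ := hT.a' y₀ h1 (φ x)
      exact ⟨y, a2, Or.inr (Or.inl ⟨h2, a1, a3.symm⟩)⟩

private theorem rl_eqv (hS : Side S 𝒰 𝒰₁ φ ψ) (hT : Side T 𝒱 𝒱₁ φ' ψ') {x x' : S.X} {y y' : T.X}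
    (h : Rl 𝒰 𝒰₁ φ ψ 𝒱 𝒱₁ φ' ψ' x y) (h' : Rl 𝒰 𝒰₁ φ ψ 𝒱 𝒱₁ φ' ψ' x' y')
    (hy : T.Eqv 𝒱 y y') (hx : S.Eqv 𝒰₁ x x') : T.Eqv 𝒱₁ y y' := by
  have e1 := S.triv_eqv hx
  have e0 := S.triv_eqv (PS.Eqv.mono S hS.sub hx)
  rcases h with ⟨h1, h2⟩ | ⟨h1, h2, h3⟩ | ⟨h1, h2, h3, h4, h5⟩
  · exact T.eqv_of_E 𝒱₁ (h2 y' hy)
  · rcases h' with ⟨g1, g2⟩ | ⟨g1, g2, g3⟩ | ⟨g1, g2, g3, g4, g5⟩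
    · exact absurd (e1.2 (S.triv_mono hS.sub g1)) h1
    · refine (hT.a y y' h2 g2).2 ⟨hy, ?_⟩
      rw [← h3, ← g3]
      exact ((hS.a x x' h1 g1).1 hx).2
    · exact absurd (e1.2 g1) h1
  · rcases h' with ⟨g1, g2⟩ | ⟨g1, g2, g3⟩ | ⟨g1, g2, g3, g4, g5⟩
    · exact absurd (e0.2 g1) h2
    · exact absurd (e1.1 h1) g1
    · refine (hT.b y y' h3 h4 g3 g4).2 ⟨hy, ?_⟩
      rw [← h5, ← g5]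
      exact ((hS.b x x' h1 h2 g1 g2).1 hx).2

private theorem rl_sat (hS : Side S 𝒰 𝒰₁ φ ψ) {x x' : S.X} {y : T.X}
    (h : Rl 𝒰 𝒰₁ φ ψ 𝒱 𝒱₁ φ' ψ' x y) (hx : S.Eqv 𝒰₁ x x') :
    Rl 𝒰 𝒰₁ φ ψ 𝒱 𝒱₁ φ' ψ' x' y := by
  have e1 := S.triv_eqv hx
  have e0 := S.triv_eqv (PS.Eqv.mono S hS.sub hx)
  rcases h with ⟨h1, h2⟩ | ⟨h1, h2, h3⟩ | ⟨h1, h2, h3, h4, h5⟩
  · exact Or.inl ⟨e0.1 h1, h2⟩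
  · have g1 : ¬ S.Triv 𝒰₁ x' := fun g => h1 (e1.2 g)
    refine Or.inr (Or.inl ⟨g1, h2, ?_⟩)
    rw [← h3]
    exact ((hS.a x x' h1 g1).1 hx).2.symm
  · have g2 : ¬ S.Triv 𝒰 x' := fun g => h2 (e0.2 g)
    refine Or.inr (Or.inr ⟨e1.1 h1, g2, h3, h4, ?_⟩)
    rw [← h5]
    exact ((hS.b x x' h1 h2 (e1.1 h1) g2).1 hx).2.symm

private theorem rl_triv (hS : 𝒰 ⊆ 𝒰₁) (hT : 𝒱 ⊆ 𝒱₁) {x : S.X} {y : T.X}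
    (h : Rl 𝒰 𝒰₁ φ ψ 𝒱 𝒱₁ φ' ψ' x y) : S.Triv 𝒰₁ x ↔ T.Triv 𝒱₁ y := by
  rcases h with ⟨h1, h2⟩ | ⟨h1, h2, h3⟩ | ⟨h1, h2, h3, h4, h5⟩
  · exact ⟨fun _ => T.triv_mono hT h2, fun _ => S.triv_mono hS h1⟩
  · exact ⟨fun h => absurd h h1, fun h => absurd h h2⟩
  · exact ⟨fun _ => h3, fun _ => h1⟩

private theorem rl_meas (hS : Side S 𝒰 𝒰₁ φ ψ) (hT : Side T 𝒱 𝒱₁ φ' ψ') (hg : S.Good 𝒰)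
    (hg' : T.Good 𝒱) :
    MeasurableSet {p : S.X × T.X | Rl 𝒰 𝒰₁ φ ψ 𝒱 𝒱₁ φ' ψ' p.1 p.2} := by
  have a0 : MeasurableSet {p : S.X × T.X | S.Triv 𝒰 p.1} := measurable_fst (S.triv_meas hg)
  have a1 : MeasurableSet {p : S.X × T.X | S.Triv 𝒰₁ p.1} :=
    measurable_fst (S.triv_meas hS.good)
  have b0 : MeasurableSet {p : S.X × T.X | T.Triv 𝒱 p.2} := measurable_snd (T.triv_meas hg')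
  have b1 : MeasurableSet {p : S.X × T.X | T.Triv 𝒱₁ p.2} :=
    measurable_snd (T.triv_meas hT.good)
  have c0 : MeasurableSet {p : S.X × T.X | φ p.1 = φ' p.2} :=
    ((hS.mφ.comp measurable_fst).prodMk (hT.mφ.comp measurable_snd))
      (isClosed_diagonal (X := ℕ → Bool)).measurableSet
  have c1 : MeasurableSet {p : S.X × T.X | ψ p.1 = ψ' p.2} :=
    ((hS.mψ.comp measurable_fst).prodMk (hT.mψ.comp measurable_snd))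
      (isClosed_diagonal (X := ℕ → Bool)).measurableSet
  exact (a0.inter b0).union ((a1.compl.inter (b1.compl.inter c0)).union
    (a1.inter (a0.compl.inter (b1.inter (b0.compl.inter c1)))))

end

theorem step {S T : PS} (c : Cond S T) {𝒮 : Set (Set S.X)} {𝒯 : Set (Set T.X)}
    (h𝒮 : 𝒮.Countable) (h𝒮m : ∀ U ∈ 𝒮, MeasurableSet U) (h𝒯 : 𝒯.Countable)
    (h𝒯m : ∀ U ∈ 𝒯, MeasurableSet U) : ∃ d, c ≤ d ∧ 𝒮 ⊆ d.𝒰 ∧ 𝒯 ⊆ d.𝒱 := by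
  obtain ⟨𝒰₁, φ, ψ, hS, hS2⟩ := side_exists S c.good h𝒮 h𝒮m
  obtain ⟨𝒱₁, φ', ψ', hT, hT2⟩ := side_exists T c.good' h𝒯 h𝒯m
  refine ⟨⟨𝒰₁, 𝒱₁, c.R ∩ {p | Rl c.𝒰 𝒰₁ φ ψ c.𝒱 𝒱₁ φ' ψ' p.1 p.2}, hS.good, hT.good,
    c.meas.inter (rl_meas hS hT c.good c.good'), ?_, ?_, ?_, ?_, ?_⟩, ⟨hS.sub, hT.sub, ?_⟩,
    hS2, hT2⟩
  · intro x
    obtain ⟨y₀, hy₀⟩ := c.left x
    obtain ⟨y, h1, h2⟩ := rl_left (𝒰 := c.𝒰) (𝒰₁ := 𝒰₁) (φ := φ) (ψ := ψ) hT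
      (c.triv x y₀ hy₀)
    exact ⟨y, c.sat x y₀ x y hy₀ (PS.Eqv.refl S _ _) h1, h2⟩
  · intro y
    obtain ⟨x₀, hx₀⟩ := c.right y
    obtain ⟨x, h1, h2⟩ := rl_left (𝒰 := c.𝒱) (𝒰₁ := 𝒱₁) (φ := φ') (ψ := ψ') hS
      (c.triv x₀ y hx₀).symm
    exact ⟨x, c.sat x₀ y x y hx₀ h1 (PS.Eqv.refl T _ _), rl_symm h2⟩
  · intro x y x' y' h h'
    constructor
    · intro hx
      exact rl_eqv hS hT h.2 h'.2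
        ((c.eqv x y x' y' h.1 h'.1).1 (PS.Eqv.mono S hS.sub hx)) hx
    · intro hy
      exact rl_eqv hT hS (rl_symm h.2) (rl_symm h'.2)
        ((c.eqv x y x' y' h.1 h'.1).2 (PS.Eqv.mono T hT.sub hy)) hy
  · intro x y x' y' h hx hy
    refine ⟨c.sat x y x' y' h.1 (PS.Eqv.mono S hS.sub hx) (PS.Eqv.mono T hT.sub hy), ?_⟩
    exact rl_symm (rl_sat hT (rl_symm (rl_sat hS h.2 hx)) hy)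
  · intro x y h
    exact rl_triv hS.sub hT.sub h.2
  · exact inter_subset_left

end H69M
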