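import Pool.Agent.H69M.CondSig
import Pool.Agent.H69M.Step
import Pool.Agent.H69M.Start
import Pool.Agent.DX.PIso

/-!
# PIsoS : the partial order of partial isomorphisms of two nonstandard quotients

`C = Cond S T`, `le d c := c ≤ d`, `R c x y := (x, y) ∈ c.R ∧ S.Triv c.𝒰 x` (so `T.Triv c.𝒱 y`). `c0` by `start`: by
`std_of_triv` every good algebra has a nontrivial type. `closed`: `cond_sigma`.
* `mono`: let `c ≤ d`, `(x, y) ∈ c.R`, `x` trivial over `c.𝒰`, `y` trivial over `c.𝒱`. Take `y'` with `(x, y') ∈ d.R ⊆ c.R`;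
  `Eqv c.𝒱 y y'` (`eqv`), so `E y y'`, so `Eqv d.𝒱 y' y` (`eqv_of_E`), `(x, y) ∈ d.R` by `sat`; `triv_mono`.
* `dom`: `step` for `𝒮 = {orbit of x}` (`orbit_meas`), `triv_of_orbit_mem`, `left`. `ran`: the same with `𝒯`, and `c.triv`.
* `eqv`: for trivial `x`, `x'`: `E x x' ↔ Eqv c.𝒰 x x'` (`eqv_of_E`), the same in `T`.
* `bor`: `step` for `𝒮 = {B}`, giving `d` with `B ∈ d.𝒰`. `B' = {y | ∃ x ∈ B, (x, y) ∈ d.R}` (`image_meas` below, invariant
  by `sat`). If `d ≤ e`, `(x, y) ∈ e.R ⊆ d.R`: `x ∈ B → y ∈ B'`; if `y ∈ B'`, `(x₁, y) ∈ d.R`, `x₁ ∈ B`, then `Eqv d.𝒰 x x₁`, so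
  `x ∈ B` (`mem_iff_of_eqv`). `bor'`: symmetric (`image_meas'`).
`DX.Inv` is the same as `PS.Inv` up to symmetry of `E`.

`image_meas`: `B' = {y | ∃ x ∈ B, (x, y) ∈ d.R}` is the projection of the measurable set `d.R ∩ (B ×ˢ univ)`, so analytic
(`MeasurableSet.analyticSet_image` or `MeasurableSet.analyticSet` and `AnalyticSet.image_of_continuous`), and its complement is the same
set for `Bᶜ` (`right`, and: if `(x, y), (x₁, y) ∈ d.R` then `Eqv d.𝒰 x x₁` and `x ∈ B ↔ x₁ ∈ B`). Use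
`AnalyticSet.measurableSet_of_compl`.
-/

namespace H69M

open TopologicalSpace MeasureTheory Set Topology Filter

theorem image_meas {S T : PS} (d : Cond S T) {B : Set S.X} (hB : B ∈ d.𝒰) (hi : S.Inv B) :
    MeasurableSet {y | ∃ x ∈ B, (x, y) ∈ d.R} := by
  have key : ∀ C : Set S.X, MeasurableSet C → AnalyticSet {y | ∃ x ∈ C, (x, y) ∈ d.R} := by
    intro C hC
    have h1 : MeasurableSet (d.R ∩ (C ×ˢ univ)) := d.meas.inter (hC.prod MeasurableSet.univ)
    have h2 := h1.analyticSet.image_of_continuous (f := Prod.snd) continuous_snd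
    convert h2 using 1
    ext y
    constructor
    · rintro ⟨x, hx, hxy⟩
      exact ⟨(x, y), ⟨hxy, hx, trivial⟩, rfl⟩
    · rintro ⟨⟨x, y'⟩, ⟨hxy, hx, -⟩, rfl⟩
      exact ⟨x, hx, hxy⟩
  refine (key B (d.good.meas B hB)).measurableSet_of_compl ?_
  have hc : {y | ∃ x ∈ B, (x, y) ∈ d.R}ᶜ = {y | ∃ x ∈ Bᶜ, (x, y) ∈ d.R} := by
    ext y
    constructor
    · intro hy
      obtain ⟨x, hx⟩ := d.right y
      exact ⟨x, fun hxB => hy ⟨x, hxB, hx⟩, hx⟩
    · rintro ⟨x, hxB, hx⟩ ⟨x₁, hx₁B, hx₁⟩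
      have := (d.eqv x y x₁ y hx hx₁).2 (PS.Eqv.refl T _ y)
      exact hxB ((S.mem_iff_of_eqv hB hi this).2 hx₁B)
  rw [hc]
  exact key _ (d.good.meas B hB).compl

theorem image_meas' {S T : PS} (d : Cond S T) {B : Set T.X} (hB : B ∈ d.𝒱) (hi : T.Inv B) :
    MeasurableSet {x | ∃ y ∈ B, (x, y) ∈ d.R} := by
  have key : ∀ C : Set T.X, MeasurableSet C → AnalyticSet {x | ∃ y ∈ C, (x, y) ∈ d.R} := by
    intro C hC
    have h1 : MeasurableSet (d.R ∩ (univ ×ˢ C)) := d.meas.inter (MeasurableSet.univ.prod hC)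
    have h2 := h1.analyticSet.image_of_continuous (f := Prod.fst) continuous_fst
    convert h2 using 1
    ext x
    constructor
    · rintro ⟨y, hy, hxy⟩
      exact ⟨(x, y), ⟨hxy, trivial, hy⟩, rfl⟩
    · rintro ⟨⟨x', y⟩, ⟨hxy, -, hy⟩, rfl⟩
      exact ⟨y, hy, hxy⟩
  refine (key B (d.good'.meas B hB)).measurableSet_of_compl ?_
  have hc : {x | ∃ y ∈ B, (x, y) ∈ d.R}ᶜ = {x | ∃ y ∈ Bᶜ, (x, y) ∈ d.R} := by
    ext x
    constructor
    · intro hx
      obtain ⟨y, hy⟩ := d.left x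
      exact ⟨y, fun hyB => hx ⟨y, hyB, hy⟩, hy⟩
    · rintro ⟨y, hyB, hy⟩ ⟨y₁, hy₁B, hy₁⟩
      have := (d.eqv x y x y₁ hy hy₁).1 (PS.Eqv.refl S _ x)
      exact hyB ((T.mem_iff_of_eqv hB hi this).2 hy₁B)
  rw [hc]
  exact key _ (d.good'.meas B hB).compl

theorem piso (S T : PS) (hS : ¬ StandardBorelSpace S.Quo) (hT : ¬ StandardBorelSpace T.Quo) :
    Nonempty (DX.PIso S.E T.E) := by
  obtain ⟨c₀⟩ := start (S := S) (T := T)
    (fun 𝒰 hg => by
      by_contra h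
      push Not at h
      exact hS (std_of_triv S hg h))
    (fun 𝒱 hg => by
      by_contra h
      push Not at h
      exact hT (std_of_triv T hg h))
  refine ⟨{ C := Cond S T
            le := fun d c => c ≤ d
            c0 := c₀
            refl := fun c => le_refl c
            trans := fun a b c hab hbc => le_trans hbc hab
            closed := fun f hf => cond_sigma f hf
            R := fun c x y => (x, y) ∈ c.R ∧ S.Triv c.𝒰 x
            mono := ?_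
            dom := ?_
            ran := ?_
            eqv := ?_
            bor := ?_
            bor' := ?_ }⟩
  · rintro c d x y hcd ⟨hxy, hx⟩
    obtain ⟨y', hy'⟩ := d.left x
    have h1 : T.Eqv c.𝒱 y y' := (c.eqv x y x y' hxy (hcd.2.2 hy')).1 (PS.Eqv.refl S _ x)
    have h2 : T.E y y' := (c.triv x y hxy).1 hx y' h1
    have h3 : T.Eqv d.𝒱 y' y := T.eqv_of_E _ (PS.E.symm T h2)
    exact ⟨d.sat x y' x y hy' (PS.Eqv.refl S _ x) h3, S.triv_mono hcd.1 hx⟩
  · intro c x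
    obtain ⟨d, hcd, hd, -⟩ := step c (𝒮 := {{y | S.E x y}}) (𝒯 := ∅) (countable_singleton _)
      (fun U hU => by rw [mem_singleton_iff.1 hU]; exact S.orbit_meas x) countable_empty
      (fun U hU => absurd hU (notMem_empty U))
    obtain ⟨y, hy⟩ := d.left x
    exact ⟨d, y, hcd, hy, S.triv_of_orbit_mem (hd (mem_singleton _))⟩
  · intro c y
    obtain ⟨d, hcd, -, hd⟩ := step c (𝒮 := ∅) (𝒯 := {{z | T.E y z}}) countable_empty
      (fun U hU => absurd hU (notMem_empty U)) (countable_singleton _)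
      (fun U hU => by rw [mem_singleton_iff.1 hU]; exact T.orbit_meas y)
    obtain ⟨x, hx⟩ := d.right y
    exact ⟨d, x, hcd, hx, (d.triv x y hx).2 (T.triv_of_orbit_mem (hd (mem_singleton _)))⟩
  · rintro c x x' y y' ⟨hx, htx⟩ ⟨hy, hty⟩
    constructor
    · intro h
      exact (c.triv x x' hx).1 htx y' ((c.eqv x x' y y' hx hy).1 (S.eqv_of_E _ h))
    · intro h
      exact htx y ((c.eqv x x' y y' hx hy).2 (T.eqv_of_E _ h))
  · intro c B hBm hBi
    have hi : S.Inv B := fun x y h hx => (hBi x y h).1 hx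
    obtain ⟨d, hcd, hd, -⟩ := step c (𝒮 := {B}) (𝒯 := ∅) (countable_singleton _)
      (fun U hU => by rw [mem_singleton_iff.1 hU]; exact hBm) countable_empty
      (fun U hU => absurd hU (notMem_empty U))
    have hB : B ∈ d.𝒰 := hd (mem_singleton _)
    refine ⟨d, hcd, {y | ∃ x ∈ B, (x, y) ∈ d.R}, image_meas d hB hi, ?_, ?_⟩
    · have key : ∀ y y', T.E y y' → y ∈ {y | ∃ x ∈ B, (x, y) ∈ d.R} →
          y' ∈ {y | ∃ x ∈ B, (x, y) ∈ d.R} := by
        rintro y y' hyy ⟨x, hxB, hx⟩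
        exact ⟨x, hxB, d.sat x y x y' hx (PS.Eqv.refl S _ x) (T.eqv_of_E _ hyy)⟩
      exact fun y y' h => ⟨key y y' h, key y' y (PS.E.symm T h)⟩
    · rintro e x y hde ⟨hxy, -⟩
      constructor
      · intro hxB
        exact ⟨x, hxB, hde.2.2 hxy⟩
      · rintro ⟨x₁, hx₁B, hx₁⟩
        have := (d.eqv x y x₁ y (hde.2.2 hxy) hx₁).2 (PS.Eqv.refl T _ y)
        exact (S.mem_iff_of_eqv hB hi this).2 hx₁B
  · intro c B hBm hBi
    have hi : T.Inv B := fun x y h hx => (hBi x y h).1 hx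
    obtain ⟨d, hcd, -, hd⟩ := step c (𝒮 := ∅) (𝒯 := {B}) countable_empty
      (fun U hU => absurd hU (notMem_empty U)) (countable_singleton _)
      (fun U hU => by rw [mem_singleton_iff.1 hU]; exact hBm)
    have hB : B ∈ d.𝒱 := hd (mem_singleton _)
    refine ⟨d, hcd, {x | ∃ y ∈ B, (x, y) ∈ d.R}, image_meas' d hB hi, ?_, ?_⟩
    · have key : ∀ x x', S.E x x' → x ∈ {x | ∃ y ∈ B, (x, y) ∈ d.R} →
          x' ∈ {x | ∃ y ∈ B, (x, y) ∈ d.R} := by
        rintro x x' hxx ⟨y, hyB, hy⟩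
        exact ⟨y, hyB, d.sat x y x' y hy (S.eqv_of_E _ hxx) (PS.Eqv.refl T _ y)⟩
      exact fun x x' h => ⟨key x x' h, key x' x (PS.E.symm S h)⟩
    · rintro e x y hde ⟨hxy, -⟩
      constructor
      · rintro ⟨y₁, hy₁B, hy₁⟩
        have := (d.eqv x y x y₁ (hde.2.2 hxy) hy₁).1 (PS.Eqv.refl S _ x)
        exact (T.mem_iff_of_eqv hB hi this).2 hy₁B
      · intro hyB
        exact ⟨y, hyB, hde.2.2 hxy⟩

end H69M
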