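import Pool.Agent.H69M.IrrGd
import Pool.Agent.H69M.FnCl
import Pool.Agent.H69M.NAct
import Pool.Agent.H69M.PIsoS

/-!
# NMain : the spectrum of a separable C*-algebra; partial isomorphisms of nonstandard spectra

`polish_NIrr`: `NIrr A = Σ n, NIrrN A n` is Polish: `polish_sigma`, `polish_NIrrN` (`Dim = Option ℕ` is countable).
`psOf A : PS` : `X = NIrr A`, `G = UAll` (a countable product of Polish groups), `F = FX A`, `D` from
`exists_countable_dense_subgroup`. `F_iff` from `act_iff`, `dim_eq`, `FX_iff`.
`std_NIrr` (C1), `nequiv_meas` (C2) (a countable union of closed sets; the Borel sigma-algebra of the product is the product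
sigma-algebra, as `NIrr A` is second countable), `class_meas` (C3).
`piso_spec`: `(psOf A).E = NEquiv` (funext, propext) and `(psOf A).Quo` is `NSpec A` with the same sigma-algebra (or transport
`StandardBorelSpace` along the measurable equivalence `Quotient.congr`-like), then `piso`.
-/

namespace H69M

open TopologicalSpace MeasureTheory Set Topology Filter
open MBS DX
open scoped InnerProductSpace

noncomputable section

theorem polish_NIrr (A : Type) [NonUnitalCStarAlgebra A] [SeparableSpace A] :
    PolishSpace (NIrr A) := by
  have h : ∀ n : Dim, PolishSpace (NIrrN A n) := polish_NIrrN A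
  exact polish_sigma (ι := Dim) (E := fun n => NIrrN A n)

theorem std_NIrr (A : Type) [NonUnitalCStarAlgebra A] [SeparableSpace A] :
    StandardBorelSpace (NIrr A) := by
  have := polish_NIrr A
  infer_instance

theorem nequiv_meas (A : Type) [NonUnitalCStarAlgebra A] [SeparableSpace A] :
    MeasurableSet {p : NIrr A × NIrr A | NEquiv p.1 p.2} := by
  have := polish_NIrr A
  have h : {p : NIrr A × NIrr A | NEquiv p.1 p.2} = ⋃ k, FX A k := by
    ext p
    rw [mem_iUnion]
    exact FX_iff p.1 p.2
  rw [h]
  exact MeasurableSet.iUnion fun k => (FX_closed k).measurableSet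

theorem class_meas (A : Type) [NonUnitalCStarAlgebra A] [SeparableSpace A] (σ : NIrr A) :
    MeasurableSet {τ : NIrr A | NEquiv σ τ} :=
  measurable_prodMk_left (x := σ) (nequiv_meas A)

/-- the Polish space of irreducible representations with the action of the unitary groups -/
private def psOf (A : Type) [NonUnitalCStarAlgebra A] [SeparableSpace A] : PS where
  X := NIrr A
  G := UAll
  tX := inferInstance
  pX := polish_NIrr A
  mX := inferInstance
  bX := inferInstance
  gG := inferInstance
  tG := inferInstance
  tgG := inferInstance
  pG := inferInstance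
  aG := inferInstance
  cG := inferInstance
  F := FX A
  F_closed := FX_closed
  F_mono := FX_mono
  F_symm := FX_symm
  F_iff := fun x y => (act_iff (fun U => dim_eq U) x y).trans (FX_iff x y)
  D := (exists_countable_dense_subgroup UAll).choose
  D_countable := (exists_countable_dense_subgroup UAll).choose_spec.1
  D_dense := (exists_countable_dense_subgroup UAll).choose_spec.2

private theorem psOf_E (A : Type) [NonUnitalCStarAlgebra A] [SeparableSpace A] :
    (psOf A).E = (NEquiv : NIrr A → NIrr A → Prop) := by
  funext σ τ
  exact propext (act_iff (fun U => dim_eq U) σ τ)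

private theorem std_transfer {X : Type} [MeasurableSpace X] (s t : Setoid X) (h : s = t) :
    @StandardBorelSpace (Quotient s) (MeasurableSpace.map (Quotient.mk s) inferInstance) →
    @StandardBorelSpace (Quotient t) (MeasurableSpace.map (Quotient.mk t) inferInstance) := by
  subst h
  exact id

private theorem psOf_std (A : Type) [NonUnitalCStarAlgebra A] [SeparableSpace A]
    (nA : ¬ StandardBorelSpace (NSpec A)) : ¬ StandardBorelSpace (psOf A).Quo := by
  intro h
  apply nA
  refine std_transfer (X := NIrr A) (psOf A).setoid (nSetoid A) ?_ h
  apply Setoid.ext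
  intro σ τ
  exact act_iff (fun U => dim_eq U) σ τ

theorem piso_spec {A B : Type} [NonUnitalCStarAlgebra A] [NonUnitalCStarAlgebra B]
    (hA : SeparableSpace A) (hB : SeparableSpace B) (nA : ¬ StandardBorelSpace (NSpec A))
    (nB : ¬ StandardBorelSpace (NSpec B)) :
    Nonempty (DX.PIso (NEquiv (A := A)) (NEquiv (A := B))) := by
  have h : Nonempty (@DX.PIso (NIrr A) (NIrr B) _ _ (psOf A).E (psOf B).E) :=
    piso (psOf A) (psOf B) (psOf_std A nA) (psOf_std B nB)
  rw [psOf_E A, psOf_E B] at h
  exact h

end

end H69M
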