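import Pool.Agent.H69M.Defs

/-!
# Alg : countable Boolean algebras of Borel sets which are bases of Polish topologies

`exists_alg`. Let `f n` be countably many operations on sets which preserve Borel sets and `𝒮` a
countable family of Borel sets of the Polish space `X`. There are a countable `𝒰 ⊇ 𝒮` of Borel
sets, containing `univ`, closed under complements, binary intersections and all `f n`, and a
Polish topology `t` on `X`, finer than the given one, such that `𝒰` is a base of `t`.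

Proof. Construct by recursion countable families `𝒜 0 ⊆ 𝒜 1 ⊆ ...` of Borel sets and Polish topologies
`t 0 ≥ t 1 ≥ ...`, all `≤ tX`, (a sequence of triples with properties; `choose` a step function on the
subtype of pairs `(𝒜, t)` with `𝒜` countable, consisting of Borel sets, `t ≤ tX` Polish), such that
* every member of `𝒜 n` is `t n`-open,
* `𝒜 (n + 1)` contains `𝒜 n`, a countable base of `t n`, `univ`, and the complements, the pairwise
  intersections, and the images under all `f m` of the members of `𝒜 n`.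
Step: given `(𝒜, t)` let `𝒜'` be the countable family so obtained (the `t`-open sets are Borel for
`tX` : `borel_eq_borel_of_le` for the Polish topologies `t ≤ tX`, as in `MBS/Sel.lean`). For `s ∈ 𝒜'`
`MeasurableSet.isClopenable` gives a Polish topology `t_s ≤ tX` for which `s` is clopen;
`PolishSpace.exists_polishSpace_forall_le` gives a Polish `t'` which is `≤ t` and `≤ t_s` for all `s ∈ 𝒜'`
(index set `Option 𝒜'`). The next pair is `(𝒜', t')`.
At the end: `𝒰 = ⋃ n, 𝒜 n`, `t = ⨅ n, t n`, Polish by `PolishSpace.iInf` (with `t 0` the largest).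
`𝒰` is a base of `t`: its members are `t`-open, and for `x ∈ O`, `O` `t`-open, there are `n` and
a `t n`-open `O'` with `x ∈ O' ⊆ O` (the topologies decrease, so a `t`-open set is a union of
`t n`-open sets: `nhds_iInf`, or `(isTopologicalBasis ...)`; or show `t = generateFrom 𝒰`: `≤` as the members of `𝒰`
are `t`-open, `≥` as `generateFrom 𝒰 ≤ t n` for each `n`, since `𝒰` contains a base of `t n`; then
`𝒰` is closed under finite intersections so it is a base of `generateFrom 𝒰`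
(`isTopologicalBasis_of_subbasis`, or direct)).
-/

namespace H69M

open TopologicalSpace MeasureTheory Set Topology Filter

/-- pairs of a countable family of Borel sets and a finer Polish topology -/
private def Pr (X : Type) [tX : TopologicalSpace X] [MeasurableSpace X] : Type :=
  {p : Set (Set X) × TopologicalSpace X // p.1.Countable ∧ (∀ U ∈ p.1, MeasurableSet U) ∧
    p.2 ≤ tX ∧ @PolishSpace X p.2}

private theorem alg_step {X : Type} [tX : TopologicalSpace X] [PolishSpace X] [MeasurableSpace X]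
    [BorelSpace X] (f : ℕ → Set X → Set X)
    (hf : ∀ n U, MeasurableSet U → MeasurableSet (f n U)) (p : Pr X) :
    ∃ p' : Pr X, p'.1.2 ≤ p.1.2 ∧ p.1.1 ⊆ p'.1.1 ∧ (∀ U ∈ p'.1.1, IsOpen[p'.1.2] U) ∧
      (∃ b, b ⊆ p'.1.1 ∧ p.1.2 = generateFrom b) ∧ Set.univ ∈ p'.1.1 ∧
      (∀ U ∈ p.1.1, Uᶜ ∈ p'.1.1) ∧ (∀ U ∈ p.1.1, ∀ V ∈ p.1.1, U ∩ V ∈ p'.1.1) ∧
      ∀ n, ∀ U ∈ p.1.1, f n U ∈ p'.1.1 := by
  obtain ⟨⟨A, t⟩, hA, hAm, htX, htP⟩ := p
  simp only at hA hAm htX htP ⊢
  obtain ⟨b, hbc, -, hb⟩ := @exists_countable_basis X t htP.toSecondCountableTopology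
  have hbor : @borel X t = @borel X tX :=
    borel_eq_borel_of_le htP (inferInstance : @PolishSpace X tX) htX
  obtain ⟨A', hA'⟩ : ∃ A' : Set (Set X), A' = A ∪ b ∪ {Set.univ} ∪ (compl '' A) ∪
      (Set.image2 (· ∩ ·) A A) ∪ (⋃ n, f n '' A) := ⟨_, rfl⟩
  have hA'c : A'.Countable := by
    rw [hA']
    exact ((((hA.union hbc).union (countable_singleton _)).union (hA.image _)).union
      (hA.image2 hA _)).union (countable_iUnion fun n => hA.image _)
  have hA'm : ∀ U ∈ A', MeasurableSet U := by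
    intro U hU
    rw [hA'] at hU
    rcases hU with ((((hU | hU) | hU) | hU) | hU) | hU
    · exact hAm U hU
    · have h1 : IsOpen[t] U := @IsTopologicalBasis.isOpen X t U b hb hU
      rw [@BorelSpace.measurable_eq X tX _ _, ← hbor]
      exact MeasurableSpace.measurableSet_generateFrom h1
    · rw [mem_singleton_iff] at hU
      rw [hU]
      exact MeasurableSet.univ
    · obtain ⟨V, hV, rfl⟩ := hU
      exact (hAm V hV).compl
    · obtain ⟨V, hV, W, hW, rfl⟩ := hU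
      exact (hAm V hV).inter (hAm W hW)
    · rw [mem_iUnion] at hU
      obtain ⟨n, V, hV, rfl⟩ := hU
      exact hf n V (hAm V hV)
  have hcl : ∀ s : A', ∃ t' : TopologicalSpace X, t' ≤ tX ∧ @PolishSpace X t' ∧
      IsOpen[t'] s.1 := by
    intro s
    obtain ⟨t', h1, h2, _, h4⟩ := @MeasurableSet.isClopenable X tX _ _ _ s.1 (hA'm s.1 s.2)
    exact ⟨t', h1, h2, h4⟩
  choose ts hts1 hts2 hts3 using hcl
  have hcount : Countable A' := hA'c.to_subtype
  obtain ⟨t', h1, h2, h3⟩ := PolishSpace.exists_polishSpace_forall_le (t := tX)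
    (fun o : Option A' => o.elim t ts) (by
      intro o
      cases o with
      | none => exact htX
      | some s => exact hts1 s) (by
      intro o
      cases o with
      | none => exact htP
      | some s => exact hts2 s)
  refine ⟨⟨(A', t'), hA'c, hA'm, h2, h3⟩, h1 none, ?_, ?_, ⟨b, ?_, @IsTopologicalBasis.eq_generateFrom X t b hb⟩, ?_, ?_,
    ?_, ?_⟩
  · intro U hU
    show U ∈ A'
    rw [hA']
    exact Or.inl (Or.inl (Or.inl (Or.inl (Or.inl hU))))
  · intro U hU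
    exact h1 (some ⟨U, hU⟩) U (hts3 ⟨U, hU⟩)
  · intro U hU
    show U ∈ A'
    rw [hA']
    exact Or.inl (Or.inl (Or.inl (Or.inl (Or.inr hU))))
  · show Set.univ ∈ A'
    rw [hA']
    exact Or.inl (Or.inl (Or.inl (Or.inr rfl)))
  · intro U hU
    show Uᶜ ∈ A'
    rw [hA']
    exact Or.inl (Or.inl (Or.inr ⟨U, hU, rfl⟩))
  · intro U hU V hV
    show U ∩ V ∈ A'
    rw [hA']
    exact Or.inl (Or.inr ⟨U, hU, V, hV, rfl⟩)
  · intro n U hU
    show f n U ∈ A'
    rw [hA']
    exact Or.inr (mem_iUnion.2 ⟨n, U, hU, rfl⟩)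

theorem exists_alg {X : Type} [tX : TopologicalSpace X] [PolishSpace X] [MeasurableSpace X]
    [BorelSpace X] (f : ℕ → Set X → Set X)
    (hf : ∀ n U, MeasurableSet U → MeasurableSet (f n U)) {𝒮 : Set (Set X)} (hc : 𝒮.Countable)
    (hm : ∀ U ∈ 𝒮, MeasurableSet U) :
    ∃ (𝒰 : Set (Set X)) (t : TopologicalSpace X), 𝒮 ⊆ 𝒰 ∧ 𝒰.Countable ∧
      (∀ U ∈ 𝒰, MeasurableSet U) ∧ Set.univ ∈ 𝒰 ∧ (∀ U ∈ 𝒰, Uᶜ ∈ 𝒰) ∧
      (∀ U ∈ 𝒰, ∀ V ∈ 𝒰, U ∩ V ∈ 𝒰) ∧ (∀ n, ∀ U ∈ 𝒰, f n U ∈ 𝒰) ∧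
      t ≤ tX ∧ @PolishSpace X t ∧ @IsTopologicalBasis X t 𝒰 := by
  choose st h1 h2 h3 h4 h5 h6 h7 h8 using alg_step (X := X) f hf
  obtain ⟨q, hq0, hq⟩ : ∃ q : ℕ → Pr X, (q 0).1 = (𝒮, tX) ∧ ∀ n, q (n + 1) = st (q n) :=
    ⟨fun n => Nat.rec ⟨(𝒮, tX), hc, hm, le_rfl, inferInstance⟩ (fun _ p => st p) n, rfl,
      fun _ => rfl⟩
  have hmono : Monotone fun n => (q n).1.1 := by
    refine monotone_nat_of_le_succ fun n => ?_
    show (q n).1.1 ⊆ (q (n + 1)).1.1
    rw [hq n]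
    exact h2 (q n)
  have hanti : Antitone fun n => (q n).1.2 := by
    refine antitone_nat_of_succ_le fun n => ?_
    show (q (n + 1)).1.2 ≤ (q n).1.2
    rw [hq n]
    exact h1 (q n)
  have hU1 : ∀ n, ∀ U ∈ (q n).1.1, Uᶜ ∈ (q (n + 1)).1.1 := fun n => by
    rw [hq n]; exact h6 (q n)
  have hU2 : ∀ n, ∀ U ∈ (q n).1.1, ∀ V ∈ (q n).1.1, U ∩ V ∈ (q (n + 1)).1.1 := fun n => by
    rw [hq n]; exact h7 (q n)
  have hU3 : ∀ n, ∀ m, ∀ U ∈ (q n).1.1, f m U ∈ (q (n + 1)).1.1 := fun n => by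
    rw [hq n]; exact h8 (q n)
  have hU4 : ∀ n, ∀ U ∈ (q (n + 1)).1.1, IsOpen[(q (n + 1)).1.2] U := fun n => by
    rw [hq n]; exact h3 (q n)
  have hU5 : ∀ n, ∃ b, b ⊆ (q (n + 1)).1.1 ∧ (q n).1.2 = generateFrom b := fun n => by
    rw [hq n]; exact h4 (q n)
  have huniv : Set.univ ∈ ⋃ n, (q n).1.1 := by
    refine mem_iUnion.2 ⟨1, ?_⟩
    rw [hq 0]
    exact h5 (q 0)
  have hinter : ∀ U ∈ ⋃ n, (q n).1.1, ∀ V ∈ ⋃ n, (q n).1.1, U ∩ V ∈ ⋃ n, (q n).1.1 := by
    intro U hU V hV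
    obtain ⟨n, hn⟩ := mem_iUnion.1 hU
    obtain ⟨m, hm'⟩ := mem_iUnion.1 hV
    exact mem_iUnion.2 ⟨max n m + 1, hU2 _ U (hmono (le_max_left n m) hn) V
      (hmono (le_max_right n m) hm')⟩
  refine ⟨⋃ n, (q n).1.1, ⨅ n, (q n).1.2, ?_, ?_, ?_, huniv, ?_, hinter, ?_, ?_, ?_, ?_⟩
  · intro U hU
    refine mem_iUnion.2 ⟨0, ?_⟩
    rw [hq0]
    exact hU
  · exact countable_iUnion fun n => (q n).2.1
  · intro U hU
    obtain ⟨n, hn⟩ := mem_iUnion.1 hU
    exact (q n).2.2.1 U hn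
  · intro U hU
    obtain ⟨n, hn⟩ := mem_iUnion.1 hU
    exact mem_iUnion.2 ⟨n + 1, hU1 n U hn⟩
  · intro m U hU
    obtain ⟨n, hn⟩ := mem_iUnion.1 hU
    exact mem_iUnion.2 ⟨n + 1, hU3 n m U hn⟩
  · have h := iInf_le (fun n => (q n).1.2) 0
    simp only [hq0] at h
    exact h
  · exact PolishSpace.iInf ⟨0, fun n => hanti (Nat.zero_le n)⟩ fun n => (q n).2.2.2.2
  · refine @IsTopologicalBasis.mk X (⨅ n, (q n).1.2) _ ?_ ?_ ?_
    · intro U hU V hV x hx
      exact ⟨U ∩ V, hinter U hU V hV, hx, Subset.rfl⟩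
    · exact eq_univ_of_univ_subset (subset_sUnion_of_mem huniv)
    · apply le_antisymm
      · refine le_generateFrom fun U hU => ?_
        obtain ⟨n, hn⟩ := mem_iUnion.1 hU
        exact iInf_le (fun n => (q n).1.2) (n + 1) U (hU4 n U (hmono (Nat.le_succ n) hn))
      · refine le_iInf fun n => ?_
        obtain ⟨b, hb, e⟩ := hU5 n
        rw [e]
        exact generateFrom_anti fun U hU => mem_iUnion.2 ⟨n + 1, hb hU⟩

end H69M
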