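import Mathlib

/-!
# H69M : quotients of Polish spaces by F_sigma orbit equivalence relations, definitions

`PS` : a Polish space `X` with a continuous action of a Polish group `G` whose orbit equivalence
relation is an increasing union of closed symmetric sets `F k`, and a countable dense subgroup
`D` of `G`.

* `S.E x y` : `x`, `y` are in the same orbit.
* `S.Quo` : the quotient, with the quotient sigma-algebra.
* `S.VT U` : the Vaught transform of `U`, the set of all `x` such that `{g | g • x ∈ U}` is not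
  meager.
* `S.Good 𝒰` : `𝒰` is a good countable Boolean algebra of Borel sets.
* `S.Eqv 𝒰 x y` : `x` and `y` have the same type over `𝒰`: they belong to the same sets `VT U`,
  `U ∈ 𝒰`.
* `S.Triv 𝒰 x` : the type of `x` over `𝒰` is trivial, i.e. it is the orbit of `x`.
-/

namespace H69M

open TopologicalSpace MeasureTheory Set Topology Filter

noncomputable section

/-- A Polish space with a continuous action of a Polish group with `F_σ` orbit equivalence
relation. -/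
structure PS where
  /-- the space -/
  X : Type
  /-- the group -/
  G : Type
  [tX : TopologicalSpace X]
  [pX : PolishSpace X]
  [mX : MeasurableSpace X]
  [bX : BorelSpace X]
  [gG : Group G]
  [tG : TopologicalSpace G]
  [tgG : IsTopologicalGroup G]
  [pG : PolishSpace G]
  [aG : MulAction G X]
  [cG : ContinuousSMul G X]
  /-- the closed sets which exhaust the orbit equivalence relation -/
  F : ℕ → Set (X × X)
  F_closed : ∀ k, IsClosed (F k)
  F_mono : ∀ k, F k ⊆ F (k + 1)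
  F_symm : ∀ k x y, (x, y) ∈ F k → (y, x) ∈ F k
  F_iff : ∀ x y, (∃ g : G, g • x = y) ↔ ∃ k, (x, y) ∈ F k
  /-- a countable dense subgroup -/
  D : Subgroup G
  D_countable : (D : Set G).Countable
  D_dense : Dense (D : Set G)

attribute [instance] PS.tX PS.pX PS.mX PS.bX PS.gG PS.tG PS.tgG PS.pG PS.aG PS.cG

/-- A system of small sets for a family of sets `𝒰`, with a completeness property. Think of the
members of `Sm n` as the sets of diameter at most `2 ^ (-n)` for a complete metric for the topology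
with base `𝒰`. -/
structure Sys {X : Type} (𝒰 : Set (Set X)) (Sm : ℕ → Set (Set X)) : Prop where
  fine : ∀ n, ∀ U ∈ 𝒰, ∀ y ∈ U, ∃ V ∈ 𝒰, y ∈ V ∧ V ⊆ U ∧ V ∈ Sm n
  down : ∀ n, ∀ U V : Set X, U ⊆ V → V ∈ Sm n → U ∈ Sm n
  anti : ∀ n, Sm (n + 1) ⊆ Sm n
  complete : ∀ y : ℕ → X, (∀ n, ∃ V ∈ Sm n, ∀ᶠ i in atTop, y i ∈ V) →
    ∃ x, ∀ W ∈ 𝒰, x ∈ W → ∀ᶠ i in atTop, y i ∈ W

namespace PS

variable (S : PS)

/-- the orbit equivalence relation -/
def E (x y : S.X) : Prop := ∃ g : S.G, g • x = y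

theorem E.refl (x : S.X) : S.E x x := ⟨1, one_smul _ _⟩

theorem E.symm {x y : S.X} (h : S.E x y) : S.E y x := by
  obtain ⟨g, rfl⟩ := h
  exact ⟨g⁻¹, inv_smul_smul _ _⟩

theorem E.trans {x y z : S.X} (h : S.E x y) (h' : S.E y z) : S.E x z := by
  obtain ⟨g, rfl⟩ := h
  obtain ⟨g', rfl⟩ := h'
  exact ⟨g' * g, mul_smul _ _ _⟩

/-- the orbit equivalence relation as a setoid -/
def setoid : Setoid S.X where
  r := S.E
  iseqv := ⟨E.refl S, fun h => E.symm S h, fun h h' => E.trans S h h'⟩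

/-- the quotient -/
def Quo : Type := Quotient S.setoid

/-- the quotient map -/
def toQuo (x : S.X) : S.Quo := Quotient.mk S.setoid x

/-- the quotient sigma-algebra -/
instance : MeasurableSpace S.Quo := MeasurableSpace.map S.toQuo inferInstance

theorem toQuo_eq_iff (x y : S.X) : S.toQuo x = S.toQuo y ↔ S.E x y := Quotient.eq (r := S.setoid)

theorem toQuo_surj (p : S.Quo) : ∃ x, S.toQuo x = p := Quotient.exists_rep p

/-- invariant sets -/
def Inv (B : Set S.X) : Prop := ∀ x y, S.E x y → x ∈ B → y ∈ B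

/-- the Vaught transform -/
def VT (U : Set S.X) : Set S.X := {x | ¬ IsMeagre {g : S.G | g • x ∈ U}}

/-- Good countable Boolean algebras of Borel sets. -/
structure Good (𝒰 : Set (Set S.X)) : Prop where
  countable : 𝒰.Countable
  meas : ∀ U ∈ 𝒰, MeasurableSet U
  univ : Set.univ ∈ 𝒰
  compl : ∀ U ∈ 𝒰, Uᶜ ∈ 𝒰
  inter : ∀ U ∈ 𝒰, ∀ V ∈ 𝒰, U ∩ V ∈ 𝒰
  vt : ∀ U ∈ 𝒰, S.VT U ∈ 𝒰
  tr : ∀ U ∈ 𝒰, ∀ g ∈ S.D, (fun x => g • x) ⁻¹' U ∈ 𝒰
  base : ∀ O : Set S.X, IsOpen O → ∀ x ∈ O, ∃ U ∈ 𝒰, x ∈ U ∧ U ⊆ O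
  sys : ∃ Sm, Sys 𝒰 Sm

/-- the translate of `V` by `g` -/
def trl (g : S.G) (V : Set S.X) : Set S.X := (fun x => g⁻¹ • x) ⁻¹' V

open Classical in
/-- the code of the type of `x`, for an enumeration `U` of the algebra -/
def tp (U : ℕ → Set S.X) (x : S.X) : ℕ → Bool := fun n => decide (x ∈ S.VT (U n))

/-- `x` and `y` have the same type over `𝒰`. -/
def Eqv (𝒰 : Set (Set S.X)) (x y : S.X) : Prop := ∀ U ∈ 𝒰, (x ∈ S.VT U ↔ y ∈ S.VT U)

/-- the type of `x` over `𝒰` is trivial -/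
def Triv (𝒰 : Set (Set S.X)) (x : S.X) : Prop := ∀ y, S.Eqv 𝒰 x y → S.E x y

theorem Eqv.refl (𝒰 : Set (Set S.X)) (x : S.X) : S.Eqv 𝒰 x x := fun _ _ => Iff.rfl

theorem Eqv.symm {𝒰 : Set (Set S.X)} {x y : S.X} (h : S.Eqv 𝒰 x y) : S.Eqv 𝒰 y x :=
  fun U hU => (h U hU).symm

theorem Eqv.trans {𝒰 : Set (Set S.X)} {x y z : S.X} (h : S.Eqv 𝒰 x y) (h' : S.Eqv 𝒰 y z) :
    S.Eqv 𝒰 x z :=
  fun U hU => (h U hU).trans (h' U hU)

theorem Eqv.mono {𝒰 𝒱 : Set (Set S.X)} (hUV : 𝒰 ⊆ 𝒱) {x y : S.X} (h : S.Eqv 𝒱 x y) :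
    S.Eqv 𝒰 x y :=
  fun U hU => h U (hUV hU)

/-- The types over `𝒱` in `T` over a nontrivial type over `𝒰` are parametrized, in a Borel way, by
the Cantor space: `Q (x, c)` is a point of `T` whose type over `𝒱` extends the type of `x` over `𝒰`,
and is determined by this type and by `c`. -/
def Param (𝒰 𝒱 : Set (Set S.X)) (T : Set S.X) : Prop :=
  ∃ Q : S.X × (ℕ → Bool) → S.X, Measurable Q ∧
    (∀ x c, ¬ S.Triv 𝒰 x → Q (x, c) ∈ T ∧ S.Eqv 𝒰 (Q (x, c)) x) ∧
    ∀ x y c c', S.Eqv 𝒰 x y → ¬ S.Triv 𝒰 x → (S.Eqv 𝒱 (Q (x, c)) (Q (y, c')) ↔ c = c')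

end PS

/-- The equivalence relation `E_0` : eventual equality of sequences. -/
def E0 (z z' : ℕ → Bool) : Prop := ∀ᶠ n in atTop, z n = z' n

/-- The conditions of the back and forth argument: good algebras `𝒰` for `S`, `𝒱` for `T`, and a
Borel isomorphism of the spaces of types, which preserves triviality; it is given by the
relation `R` between points: the types of `x` and `y` correspond to each other. -/
structure Cond (S T : PS) where
  /-- the algebra for the first space -/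
  𝒰 : Set (Set S.X)
  /-- the algebra for the second space -/
  𝒱 : Set (Set T.X)
  /-- the relation -/
  R : Set (S.X × T.X)
  good : S.Good 𝒰
  good' : T.Good 𝒱
  meas : MeasurableSet R
  left : ∀ x, ∃ y, (x, y) ∈ R
  right : ∀ y, ∃ x, (x, y) ∈ R
  eqv : ∀ x y x' y', (x, y) ∈ R → (x', y') ∈ R → (S.Eqv 𝒰 x x' ↔ T.Eqv 𝒱 y y')
  sat : ∀ x y x' y', (x, y) ∈ R → S.Eqv 𝒰 x x' → T.Eqv 𝒱 y y' → (x', y') ∈ R
  triv : ∀ x y, (x, y) ∈ R → (S.Triv 𝒰 x ↔ T.Triv 𝒱 y)

/-- extension of conditions -/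
instance (S T : PS) : Preorder (Cond S T) where
  le c d := c.𝒰 ⊆ d.𝒰 ∧ c.𝒱 ⊆ d.𝒱 ∧ d.R ⊆ c.R
  le_refl c := ⟨subset_rfl, subset_rfl, subset_rfl⟩
  le_trans c d e h h' := ⟨h.1.trans h'.1, h.2.1.trans h'.2.1, h'.2.2.trans h.2.2⟩

theorem Cond.le_def {S T : PS} (c d : Cond S T) :
    c ≤ d ↔ c.𝒰 ⊆ d.𝒰 ∧ c.𝒱 ⊆ d.𝒱 ∧ d.R ⊆ c.R := Iff.rfl

end

end H69M
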