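import Pool.Agent.DX.Defs
import Pool.Agent.H69M.Defs

/-!
# CDefs : the Polish group of unitaries and the space of representations, definitions

* `UG n` : the group of unitary operators of `HSp n`, with the topology of pointwise (strong) convergence
  of `u` and of `u⁻¹`; `UAll` is the product over all dimensions.
* `RepT A n` : all (possibly degenerate) representations of the (possibly non-unital) C*-algebra `A` on
  `HSp n`, with the topology of pointwise weak convergence.
* `toRep : NIrrN A n → RepT A n`.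
* `cj u π` : the conjugate of the irreducible representation `π` by the unitary `u`.
* `FN n k` : the set of all pairs `(π, ρ)` of irreducible representations with an intertwiner `T` of norm at most
  one, having a matrix coefficient `⟪bvec i, T bvec j⟫` with `i, j ≤ k`, of absolute value at least `1 / (k + 1)`.
* `FX A k` : the corresponding subset of `NIrr A × NIrr A`.
-/

namespace H69M

open TopologicalSpace MeasureTheory Set Topology Filter
open MBS DX
open scoped InnerProductSpace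

noncomputable section

/-- the unitary group of `HSp n` -/
def UG (n : Dim) : Type := HSp n ≃ₗᵢ[ℂ] HSp n

instance (n : Dim) : Group (UG n) := inferInstanceAs (Group (HSp n ≃ₗᵢ[ℂ] HSp n))

/-- the value of the unitary `u` at the vector `v` -/
def UG.ap {n : Dim} (u : UG n) (v : HSp n) : HSp n := (show HSp n ≃ₗᵢ[ℂ] HSp n from u) v

/-- pointwise convergence of `u` and of `u⁻¹` -/
instance (n : Dim) : TopologicalSpace (UG n) :=
  TopologicalSpace.induced (fun (u : UG n) (v : HSp n) => (u.ap v, u⁻¹.ap v))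
    Pi.topologicalSpace

/-- the product of the unitary groups -/
abbrev UAll : Type := ∀ n : Dim, UG n

theorem UG.one_ap {n : Dim} (v : HSp n) : (1 : UG n).ap v = v := rfl

theorem UG.mul_ap {n : Dim} (u w : UG n) (v : HSp n) : (u * w).ap v = u.ap (w.ap v) := rfl

theorem UG.inv_ap_ap {n : Dim} (u : UG n) (v : HSp n) : u⁻¹.ap (u.ap v) = v := by
  rw [← UG.mul_ap, inv_mul_cancel, UG.one_ap]

theorem UG.ap_inv_ap {n : Dim} (u : UG n) (v : HSp n) : u.ap (u⁻¹.ap v) = v := by
  rw [← UG.mul_ap, mul_inv_cancel, UG.one_ap]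

theorem UG.norm_ap {n : Dim} (u : UG n) (v : HSp n) : ‖u.ap v‖ = ‖v‖ :=
  LinearIsometryEquiv.norm_map (show HSp n ≃ₗᵢ[ℂ] HSp n from u) v

theorem UG.ap_sub {n : Dim} (u : UG n) (v w : HSp n) : u.ap (v - w) = u.ap v - u.ap w :=
  map_sub (show HSp n ≃ₗᵢ[ℂ] HSp n from u) v w

/-- All representations on `HSp n`. -/
def RepT (A : Type) [NonUnitalCStarAlgebra A] (n : Dim) : Type := NRepN A n

section

variable {A : Type} [NonUnitalCStarAlgebra A]

/-- the operator `π a` -/
def RepT.op {n : Dim} (π : RepT A n) (a : A) : HSp n →L[ℂ] HSp n :=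
  (show A →⋆ₙₐ[ℂ] (HSp n →L[ℂ] HSp n) from π) a

/-- the topology of pointwise weak convergence -/
instance (n : Dim) : TopologicalSpace (RepT A n) :=
  TopologicalSpace.induced
    (fun (π : RepT A n) (p : A × HSp n × HSp n) => (⟪p.2.1, π.op p.1 p.2.2⟫_ℂ : ℂ))
    Pi.topologicalSpace

/-- forget irreducibility -/
def toRep {n : Dim} (π : NIrrN A n) : RepT A n := π.1

theorem toRep_op {n : Dim} (π : NIrrN A n) (a : A) : (toRep π).op a = π.1 a := rfl

theorem isEmbedding_toRep (n : Dim) : IsEmbedding (toRep : NIrrN A n → RepT A n) where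
  toIsInducing := ⟨by
    rw [instTopologicalSpaceNIrrN, instTopologicalSpaceRepT, induced_compose]
    rfl⟩
  injective := fun _ _ h => Subtype.ext h

theorem UG.inner_ap {n : Dim} (u : UG n) (v w : HSp n) : ⟪u.ap v, u.ap w⟫_ℂ = ⟪v, w⟫_ℂ :=
  LinearIsometryEquiv.inner_map_map (show HSp n ≃ₗᵢ[ℂ] HSp n from u) v w

theorem UG.inner_ap_left {n : Dim} (u : UG n) (v w : HSp n) :
    ⟪u.ap v, w⟫_ℂ = ⟪v, u⁻¹.ap w⟫_ℂ := by
  rw [← UG.inner_ap u v (u⁻¹.ap w), UG.ap_inv_ap]

/-- the unitary `u` as a bounded operator -/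
def UG.cl {n : Dim} (u : UG n) : HSp n →L[ℂ] HSp n :=
  ((show HSp n ≃ₗᵢ[ℂ] HSp n from u).toContinuousLinearEquiv : HSp n →L[ℂ] HSp n)

theorem UG.cl_apply {n : Dim} (u : UG n) (v : HSp n) : u.cl v = u.ap v := rfl

/-- the conjugate of `π` by `u` -/
def cjRep {n : Dim} (u : UG n) (π : NRepN A n) : NRepN A n where
  toFun a := u.cl ∘L (π a) ∘L u⁻¹.cl
  map_smul' c a := by
    ext v : 1
    simp
  map_zero' := by
    ext v : 1
    simp
  map_add' a b := by
    ext v : 1
    simp
  map_mul' a b := by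
    ext v : 1
    rw [map_mul]
    show u.ap (π a (π b (u⁻¹.ap v))) = u.ap (π a (u⁻¹.ap (u.ap (π b (u⁻¹.ap v)))))
    rw [UG.inv_ap_ap]
  map_star' a := by
    rw [ContinuousLinearMap.star_eq_adjoint, ContinuousLinearMap.eq_adjoint_iff]
    intro v w
    simp only [ContinuousLinearMap.comp_apply, map_star, ContinuousLinearMap.star_eq_adjoint]
    rw [UG.cl_apply u, UG.cl_apply u, UG.inner_ap_left, ContinuousLinearMap.adjoint_inner_left,
      UG.cl_apply u⁻¹ v, UG.cl_apply, UG.inner_ap_left u⁻¹, inv_inv]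

theorem cjRep_apply {n : Dim} (u : UG n) (π : NRepN A n) (a : A) (v : HSp n) :
    cjRep u π a v = u.ap (π a (u⁻¹.ap v)) := rfl

/-- the intertwiners of norm at most one, with a matrix coefficient of absolute value at least
`1 / (k + 1)` at some pair of basis vectors with indices at most `k` -/
def IsItw {n : Dim} (k : ℕ) (π ρ : RepT A n) (T : HSp n →L[ℂ] HSp n) : Prop :=
  ‖T‖ ≤ 1 ∧ (∀ a, T ∘L π.op a = ρ.op a ∘L T) ∧
    ∃ i ≤ k, ∃ j ≤ k, (1 : ℝ) / (k + 1) ≤ ‖⟪bvec n i, T (bvec n j)⟫_ℂ‖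

/-- pairs of irreducible representations with such an intertwiner -/
def FN (A : Type) [NonUnitalCStarAlgebra A] (n : Dim) (k : ℕ) : Set (NIrrN A n × NIrrN A n) :=
  {p | ∃ T, IsItw k (toRep p.1) (toRep p.2) T}

/-- the pairs of `NIrr A × NIrr A` with such an intertwiner -/
def FX (A : Type) [NonUnitalCStarAlgebra A] (k : ℕ) : Set (NIrr A × NIrr A) :=
  {p | ∃ (n : Dim) (π ρ : NIrrN A n), p = (⟨n, π⟩, ⟨n, ρ⟩) ∧ (π, ρ) ∈ FN A n k}

/-- `π` has a commuting operator of norm at most one which is not scalar, in a quantitative way -/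
def IsRed {n : Dim} (k : ℕ) (π : RepT A n) (T : HSp n →L[ℂ] HSp n) : Prop :=
  ‖T‖ ≤ 1 ∧ (∀ a, T ∘L π.op a = π.op a ∘L T) ∧
    ∃ i ≤ k, ∃ j ≤ k, (i ≠ j ∧ (1 : ℝ) / (k + 1) ≤ ‖⟪bvec n i, T (bvec n j)⟫_ℂ‖) ∨
      (bvec n i ≠ 0 ∧ bvec n j ≠ 0 ∧
        (1 : ℝ) / (k + 1) ≤ ‖⟪bvec n i, T (bvec n i)⟫_ℂ - ⟪bvec n j, T (bvec n j)⟫_ℂ‖)

end

end

end H69M
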