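import Pool.Agent.H69M.Defs

/-!
# CatQ : category quantifiers are measurable

`measurable_catq`: if `A ⊆ X × G` is measurable (`X` any measurable space, `G` a second countable Baire
space with its Borel sets) then `{x | the section A_x is meager}` is measurable.

Proof. Let `B` be a countable base of `G` (`countableBasis G`, nonempty members). Show by induction on
the measurable set `A` (`MeasurableSpace.induction_on_inter` for `generateFrom_prod`, the
pi-system of rectangles; or `induction` on the generated sigma-algebra) the statement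
`∀ V ∈ B, MeasurableSet {x | IsMeagre {g | g ∈ V ∧ (x, g) ∈ A}}` (allow also `V = univ`, or
`∀ V open`, at the end `V = univ`).
* rectangle `s ×ˢ t`: the set `{g ∈ V | (x, g) ∈ s ×ˢ t}` is `V ∩ t` if `x ∈ s` and empty otherwise; the set is
  `sᶜ` or everything (`by_cases IsMeagre (V ∩ t)`).
* countable union: `IsMeagre (⋃ n, M n) ↔ ∀ n, IsMeagre (M n)` (`isMeagre_iUnion`, `IsMeagre.mono`).
* complement: the section `A_x` is Borel, so it has the Baire property; for `V ∈ B`,
  `V \ A_x` is meager iff for all nonempty `V' ∈ B`, `V' ⊆ V`: `V' ∩ A_x` is NOT meager. (Left to right: `V'` is not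
  meager because `G` is a Baire space. Right to left: `(A_x)ᶜ =ᵇ O` with `O` open
  (`MeasurableSet.residualEq_isOpen`); if `V \ A_x` is not meager then `O ∩ V` is nonempty; take a
  nonempty `V' ∈ B` inside `O ∩ V`; then `V' ∩ A_x` is meager, since `V' ⊆ O` and `A_x ∩ O` is meager.) So
  the set is a countable intersection of complements of sets for `A`.

`meagre_smul_iff`: in a topological group, right and left translates of meager sets are meager (homeomorphisms
`Homeomorph.mulRight`, `Homeomorph.mulLeft`, `IsMeagre.preimage_of_isOpenMap`).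

`open_not_meagre`: nonempty open sets in a Baire space are not meager.
`exists_open_comeager`: a non-meager Borel set `A` is comeager in some nonempty open set `V` : `V \ A` is
meager.
-/

namespace H69M

open TopologicalSpace MeasureTheory Set Topology Filter

theorem open_not_meagre {G : Type*} [TopologicalSpace G] [BaireSpace G] {V : Set G}
    (hV : IsOpen V) (hne : V.Nonempty) : ¬ IsMeagre V := by
  intro h
  have h1 : Dense Vᶜ := dense_of_mem_residual h
  obtain ⟨x, hx, hx'⟩ := h1.inter_open_nonempty V hV hne
  exact hx' hx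

/-- the two halves of the Baire property -/
theorem baire_halves {G : Type*} [TopologicalSpace G] [MeasurableSpace G]
    [BorelSpace G] {A : Set G} (hA : MeasurableSet A) :
    ∃ V : Set G, IsOpen V ∧ IsMeagre (V \ A) ∧ IsMeagre (A \ V) := by
  obtain ⟨u, hu, h⟩ := hA.residualEq_isOpen
  have h' : {x | x ∈ A ↔ x ∈ u} ∈ residual G := by
    filter_upwards [h] with x hx
    have : (x ∈ A) = (x ∈ u) := hx
    show x ∈ A ↔ x ∈ u
    rw [this]
  refine ⟨u, hu, ?_, ?_⟩
  · refine Filter.mem_of_superset h' ?_
    rintro x hx ⟨h1, h2⟩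
    exact h2 (hx.2 h1)
  · refine Filter.mem_of_superset h' ?_
    rintro x hx ⟨h1, h2⟩
    exact h2 (hx.1 h1)

theorem exists_open_comeager {G : Type*} [TopologicalSpace G] [BaireSpace G] [MeasurableSpace G]
    [BorelSpace G] {A : Set G} (hA : MeasurableSet A) (hne : ¬ IsMeagre A) :
    ∃ V : Set G, IsOpen V ∧ V.Nonempty ∧ IsMeagre (V \ A) := by
  obtain ⟨V, hV, h1, h2⟩ := baire_halves hA
  refine ⟨V, hV, ?_, h1⟩
  by_contra h
  rw [Set.not_nonempty_iff_eq_empty] at h
  rw [h, sdiff_empty] at h2
  exact hne h2

theorem measurable_catq {X G : Type*} [MeasurableSpace X] [TopologicalSpace G] [BaireSpace G]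
    [SecondCountableTopology G] [MeasurableSpace G] [BorelSpace G] {A : Set (X × G)}
    (hA : MeasurableSet A) : MeasurableSet {x | IsMeagre {g | (x, g) ∈ A}} := by
  have key : ∀ A : Set (X × G), MeasurableSet A → ∀ V : Set G, IsOpen V →
      MeasurableSet {x | IsMeagre {g | g ∈ V ∧ (x, g) ∈ A}} := by
    intro A hA
    refine MeasurableSpace.induction_on_inter
      (C := fun (A : Set (X × G)) _ => ∀ V : Set G, IsOpen V →
        MeasurableSet {x | IsMeagre {g | g ∈ V ∧ (x, g) ∈ A}})
      generateFrom_prod.symm isPiSystem_prod ?_ ?_ ?_ ?_ A hA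
    · intro V _
      have : {x : X | IsMeagre {g : G | g ∈ V ∧ (x, g) ∈ (∅ : Set (X × G))}} = Set.univ := by
        ext x
        simp only [Set.mem_empty_iff_false, and_false, Set.mem_univ, iff_true]
        exact IsMeagre.empty
      rw [this]
      exact MeasurableSet.univ
    · rintro _ ⟨s, hs, t, ht, rfl⟩ V _
      by_cases hm : IsMeagre (V ∩ t)
      · have : {x : X | IsMeagre {g : G | g ∈ V ∧ (x, g) ∈ s ×ˢ t}} = Set.univ := by
          ext x
          simp only [Set.mem_univ, iff_true]
          refine hm.mono ?_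
          rintro g ⟨h1, h2⟩
          exact ⟨h1, h2.2⟩
        rw [this]
        exact MeasurableSet.univ
      · have : {x : X | IsMeagre {g : G | g ∈ V ∧ (x, g) ∈ s ×ˢ t}} = sᶜ := by
          ext x
          constructor
          · intro h hx
            refine hm (IsMeagre.mono ?_ h)
            rintro g ⟨h1, h2⟩
            exact ⟨h1, hx, h2⟩
          · intro hx
            refine IsMeagre.mono ?_ IsMeagre.empty
            rintro g ⟨_, h2⟩
            exact hx h2.1
        rw [this]
        exact MeasurableSet.compl hs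
    · intro A hA ih V hV
      have e : {x : X | IsMeagre {g : G | g ∈ V ∧ (x, g) ∈ Aᶜ}} =
          ⋂ W ∈ {W : Set G | W ∈ countableBasis G ∧ W ⊆ V},
            {x : X | IsMeagre {g : G | g ∈ W ∧ (x, g) ∈ A}}ᶜ := by
        ext x
        simp only [Set.mem_iInter, Set.mem_compl_iff]
        constructor
        · rintro h W ⟨hW, hWV⟩ hm
          have hWo : IsOpen W := isOpen_of_mem_countableBasis hW
          refine open_not_meagre hWo (nonempty_of_mem_countableBasis hW) ?_
          refine (h.union hm).mono ?_
          intro g hg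
          by_cases hgA : (x, g) ∈ A
          · exact Or.inr ⟨hg, hgA⟩
          · exact Or.inl ⟨hWV hg, hgA⟩
        · intro h
          have hAx : MeasurableSet {g : G | (x, g) ∈ A} := measurable_prodMk_left hA
          obtain ⟨O, hO, h1, h2⟩ := baire_halves hAx.compl
          by_contra hnm
          have hne : (O ∩ V).Nonempty := by
            by_contra hemp
            rw [Set.not_nonempty_iff_eq_empty] at hemp
            refine hnm (IsMeagre.mono ?_ h2)
            rintro g ⟨hg1, hg2⟩
            refine ⟨hg2, fun hgO => ?_⟩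
            have : g ∈ O ∩ V := ⟨hgO, hg1⟩
            rw [hemp] at this
            exact this
          obtain ⟨g, hg⟩ := hne
          obtain ⟨W, hW, hgW, hWs⟩ := (isBasis_countableBasis G).exists_subset_of_mem_open hg
            (hO.inter hV)
          refine h W ⟨hW, fun y hy => (hWs hy).2⟩ (IsMeagre.mono ?_ h1)
          rintro y ⟨hy1, hy2⟩
          exact ⟨(hWs hy1).1, fun hy3 => hy3 hy2⟩
      rw [e]
      refine MeasurableSet.biInter ?_ ?_
      · exact (countable_countableBasis G).mono fun W hW => hW.1
      · rintro W ⟨hW, _⟩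
        exact (ih W (isOpen_of_mem_countableBasis hW)).compl
    · intro f _ _ ih V hV
      have e : {x : X | IsMeagre {g : G | g ∈ V ∧ (x, g) ∈ ⋃ i, f i}} =
          ⋂ i, {x : X | IsMeagre {g : G | g ∈ V ∧ (x, g) ∈ f i}} := by
        ext x
        simp only [Set.mem_iInter]
        constructor
        · intro h i
          refine IsMeagre.mono ?_ h
          rintro g ⟨h1, h2⟩
          exact ⟨h1, Set.mem_iUnion.2 ⟨i, h2⟩⟩
        · intro h
          refine IsMeagre.mono ?_ (isMeagre_iUnion h)
          rintro g ⟨h1, h2⟩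
          obtain ⟨i, hi⟩ := Set.mem_iUnion.1 h2
          exact Set.mem_iUnion.2 ⟨i, h1, hi⟩
      rw [e]
      exact MeasurableSet.iInter fun i => ih i V hV
  have h := key A hA Set.univ isOpen_univ
  simpa using h

theorem meagre_mul_right {G : Type*} [TopologicalSpace G] [Group G] [IsTopologicalGroup G]
    {A : Set G} (h : G) : IsMeagre {g | g * h ∈ A} ↔ IsMeagre A := by
  have key : ∀ (B : Set G) (k : G), IsMeagre B → IsMeagre {g | g * k ∈ B} := fun B k hB =>
    hB.preimage_of_isOpenMap (Homeomorph.mulRight k).continuous (Homeomorph.mulRight k).isOpenMap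
  refine ⟨fun hA => ?_, key A h⟩
  have h1 := key _ h⁻¹ hA
  have e : {g : G | g * h⁻¹ ∈ {g : G | g * h ∈ A}} = A := by
    ext g
    show g * h⁻¹ * h ∈ A ↔ g ∈ A
    rw [inv_mul_cancel_right]
  rw [e] at h1
  exact h1

theorem meagre_mul_left {G : Type*} [TopologicalSpace G] [Group G] [IsTopologicalGroup G]
    {A : Set G} (h : G) : IsMeagre {g | h * g ∈ A} ↔ IsMeagre A := by
  have key : ∀ (B : Set G) (k : G), IsMeagre B → IsMeagre {g | k * g ∈ B} := fun B k hB =>
    hB.preimage_of_isOpenMap (Homeomorph.mulLeft k).continuous (Homeomorph.mulLeft k).isOpenMap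
  refine ⟨fun hA => ?_, key A h⟩
  have h1 := key _ h⁻¹ hA
  have e : {g : G | h⁻¹ * g ∈ {g : G | h * g ∈ A}} = A := by
    ext g
    show h * (h⁻¹ * g) ∈ A ↔ g ∈ A
    rw [mul_inv_cancel_left]
  rw [e] at h1
  exact h1

end H69M
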