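import Pool.Agent.H69M.Lim

/-!
# Triv : trivial types

`not_triv_iff`. (→) Suppose `x` is not trivial but `k`, `U`, `V` violate the right side. Then any `y`, `y'`
with `Eqv 𝒰 x y`, `Eqv 𝒰 x y'` are equivalent, so `x` is trivial: `y ∈ VT U`, `y' ∈ VT V`; `vt_hit` gives
`a`, `E y a`, `a ∈ U`, `a` in the core of `𝒰`, and `b`, `E y' b`, `b ∈ V`, `b` in the core. If `(a, b) ∉ F k`, since `F k` is
closed there are open `O ∋ a`, `O' ∋ b` with `O ×ˢ O'` disjoint from `F k`, and by `base` and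
`inter` members `U' ⊆ U`, `V' ⊆ V` of `𝒰` with `a ∈ U' ⊆ O`, `b ∈ V' ⊆ O'`. As `a` is in the core, `a ∈ VT U'`,
so `x ∈ VT U'` (`E y a`, `Eqv 𝒰 x y`), the same for `V'`, contradiction. So `(a, b) ∈ F k`,
`E a b`, hence `E y y'`. Take `y' = x`... (for `Triv 𝒰 x` use the pair `x`, `y`).
(←) Choose `Sm` (`hg.sys`). Choose recursively `U n`, `V n ∈ 𝒰`, decreasing, `x ∈ VT (U n)`, `x ∈ VT (V n)`,
`U (n+1), V (n+1) ∈ Sm n`, `(U (n + 1)) ×ˢ (V (n + 1))` disjoint from `F n` (the right side for `k = n`, then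
`vt_shrink` twice with `fine`); start with `univ`. Limit points `a`, `b` (`Sys.limit`), `Eqv 𝒰 a x`, `Eqv 𝒰 b x`
(`limit_eqv`), `(a, b) ∉ F n` for all `n`, so not `E a b` (`F_iff`). If `x` were trivial, `E x a`, `E x b`.

`triv_meas`: by `not_triv_iff` the complement is a countable intersection over `k`, `U`, `V ∈ 𝒰` of
countable unions of sets `VT`, measurable by `vt_meas` (the condition about `a`, `b` does not depend on `x`).

`not_triv_iUnion`: by `not_triv_iff` for the union (good by `Union.lean`, here a hypothesis): `U`, `V` in the union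
are in a common `𝒰 n`.

`orbit_meas`, `E_meas`: `E = ⋃ k, F k` (`F_iff`) is a countable union of closed sets.
`triv_of_orbit_mem`: if the orbit `B` of `x` is in `𝒰` and `Eqv 𝒰 x y` then `y ∈ B` by `mem_iff_of_eqv`.
-/

namespace H69M

open TopologicalSpace MeasureTheory Set Topology Filter

namespace PS

variable (S : PS)

theorem not_triv_iff {𝒰 : Set (Set S.X)} (hg : S.Good 𝒰) (x : S.X) :
    ¬ S.Triv 𝒰 x ↔ ∀ k, ∀ U ∈ 𝒰, ∀ V ∈ 𝒰, x ∈ S.VT U → x ∈ S.VT V →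
      ∃ U' ∈ 𝒰, ∃ V' ∈ 𝒰, U' ⊆ U ∧ V' ⊆ V ∧ x ∈ S.VT U' ∧ x ∈ S.VT V' ∧
        ∀ a ∈ U', ∀ b ∈ V', (a, b) ∉ S.F k := by
  constructor
  · intro hnt k U hU V hV hxU hxV
    by_contra hcon
    push Not at hcon
    apply hnt
    intro y hxy
    have hyV : y ∈ S.VT V := (hxy V hV).1 hxV
    obtain ⟨a, hxa, haU, hac⟩ := S.vt_hit hg.countable hxU
    obtain ⟨b, hyb, hbV, hbc⟩ := S.vt_hit hg.countable hyV
    have hab : (a, b) ∈ S.F k := by
      by_contra hab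
      have hO : IsOpen (S.F k)ᶜ := (S.F_closed k).isOpen_compl
      obtain ⟨O, O', hOo, hOo', haO, hbO', hsub⟩ := isOpen_prod_iff.1 hO a b hab
      obtain ⟨U₁, hU₁, haU₁, hU₁O⟩ := hg.base O hOo a haO
      obtain ⟨V₁, hV₁, hbV₁, hV₁O⟩ := hg.base O' hOo' b hbO'
      have hU' := hg.inter U hU U₁ hU₁
      have hV' := hg.inter V hV V₁ hV₁
      have h1 : x ∈ S.VT (U ∩ U₁) := (S.vt_iff hxa).2 (hac _ hU' ⟨haU, haU₁⟩)
      have h2 : y ∈ S.VT (V ∩ V₁) := (S.vt_iff hyb).2 (hbc _ hV' ⟨hbV, hbV₁⟩)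
      have h3 : x ∈ S.VT (V ∩ V₁) := (hxy _ hV').2 h2
      obtain ⟨a', ha', b', hb', hab'⟩ :=
        hcon _ hU' _ hV' inter_subset_left inter_subset_left h1 h3
      exact hsub (mk_mem_prod (hU₁O ha'.2) (hV₁O hb'.2)) hab'
    have hE : S.E a b := (S.F_iff a b).2 ⟨k, hab⟩
    exact E.trans S hxa (E.trans S hE (E.symm S hyb))
  · intro h hT
    obtain ⟨Sm, hS⟩ := hg.sys
    let Q : Type := {p : Set S.X × Set S.X //
      p.1 ∈ 𝒰 ∧ p.2 ∈ 𝒰 ∧ x ∈ S.VT p.1 ∧ x ∈ S.VT p.2}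
    have step : ∀ (n : ℕ) (p : Q), ∃ q : Q, q.1.1 ⊆ p.1.1 ∧ q.1.2 ⊆ p.1.2 ∧ q.1.1 ∈ Sm n ∧
        q.1.2 ∈ Sm n ∧ ∀ a ∈ q.1.1, ∀ b ∈ q.1.2, (a, b) ∉ S.F n := by
      rintro n ⟨⟨U, V⟩, hU, hV, hxU, hxV⟩
      obtain ⟨U', hU', V', hV', hUU, hVV, hxU', hxV', hF⟩ := h n U hU V hV hxU hxV
      obtain ⟨U₂, hU₂, hUU₂, hs₂, hx₂⟩ := S.vt_shrink hg.countable (fun W => W ∈ Sm n) hxU'
        (fun y hy => hS.fine n U' hU' y hy)
      obtain ⟨V₂, hV₂, hVV₂, hs₂', hx₂'⟩ := S.vt_shrink hg.countable (fun W => W ∈ Sm n) hxV'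
        (fun y hy => hS.fine n V' hV' y hy)
      exact ⟨⟨(U₂, V₂), hU₂, hV₂, hx₂, hx₂'⟩, hUU₂.trans hUU, hVV₂.trans hVV, hs₂, hs₂',
        fun a ha b hb => hF a (hUU₂ ha) b (hVV₂ hb)⟩
    choose nx hnx using step
    let q : ℕ → Q := fun n => Nat.rec (motive := fun _ => Q)
      ⟨(Set.univ, Set.univ), hg.univ, hg.univ, S.vt_univ x, S.vt_univ x⟩ (fun m p => nx m p) n
    have hq : ∀ n, q (n + 1) = nx n (q n) := fun n => rfl
    have hne1 : ∀ n, ((q n).1.1).Nonempty := fun n => by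
      obtain ⟨y, -, hy⟩ := S.vt_hit' (q n).2.2.2.1
      exact ⟨y, hy⟩
    have hne2 : ∀ n, ((q n).1.2).Nonempty := fun n => by
      obtain ⟨y, -, hy⟩ := S.vt_hit' (q n).2.2.2.2
      exact ⟨y, hy⟩
    obtain ⟨a, ha, haW⟩ := hS.limit hg.compl (fun _ _ hxy => S.good_sep hg hxy)
      (fun n => (q n).1.1) (fun n => (q n).2.1) hne1
      (fun n => by rw [hq]; exact (hnx n (q n)).1)
      (fun n => by rw [hq]; exact (hnx n (q n)).2.2.1)
    obtain ⟨b, hb, hbW⟩ := hS.limit hg.compl (fun _ _ hxy => S.good_sep hg hxy)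
      (fun n => (q n).1.2) (fun n => (q n).2.2.1) hne2
      (fun n => by rw [hq]; exact (hnx n (q n)).2.1)
      (fun n => by rw [hq]; exact (hnx n (q n)).2.2.2.1)
    have hax : S.Eqv 𝒰 a x := S.limit_eqv hg (fun n => (q n).2.2.2.1) haW
    have hbx : S.Eqv 𝒰 b x := S.limit_eqv hg (fun n => (q n).2.2.2.2) hbW
    have hE : S.E a b := E.trans S (E.symm S (hT a (Eqv.symm S hax))) (hT b (Eqv.symm S hbx))
    obtain ⟨k, hk⟩ := (S.F_iff a b).1 hE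
    have ha' := ha (k + 1)
    have hb' := hb (k + 1)
    rw [hq] at ha' hb'
    exact (hnx k (q k)).2.2.2.2 a ha' b hb' hk

theorem triv_meas {𝒰 : Set (Set S.X)} (hg : S.Good 𝒰) : MeasurableSet {x | S.Triv 𝒰 x} := by
  have hvt : ∀ U ∈ 𝒰, MeasurableSet {x | x ∈ S.VT U} := fun U hU => S.vt_meas (hg.meas U hU)
  have key : MeasurableSet {x | ¬ S.Triv 𝒰 x} := by
    have he : {x | ¬ S.Triv 𝒰 x} = ⋂ k : ℕ, ⋂ U ∈ 𝒰, ⋂ V ∈ 𝒰,
        ({x | x ∈ S.VT U}ᶜ ∪ ({x | x ∈ S.VT V}ᶜ ∪ ⋃ U' ∈ 𝒰, ⋃ V' ∈ 𝒰,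
          ({x | x ∈ S.VT U'} ∩ {x | x ∈ S.VT V'} ∩
            {_x : S.X | U' ⊆ U ∧ V' ⊆ V ∧ ∀ a ∈ U', ∀ b ∈ V', (a, b) ∉ S.F k}))) := by
      ext x
      simp only [mem_setOf_eq, mem_iInter, mem_union, mem_compl_iff, mem_iUnion, mem_inter_iff]
      rw [S.not_triv_iff hg x]
      constructor
      · intro h k U hU V hV
        by_cases h1 : x ∈ S.VT U
        · by_cases h2 : x ∈ S.VT V
          · obtain ⟨U', hU', V', hV', c1, c2, c3, c4, c5⟩ := h k U hU V hV h1 h2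
            exact Or.inr (Or.inr ⟨U', hU', V', hV', ⟨c3, c4⟩, c1, c2, c5⟩)
          · exact Or.inr (Or.inl h2)
        · exact Or.inl h1
      · intro h k U hU V hV h1 h2
        rcases h k U hU V hV with h3 | h3 | h3
        · exact absurd h1 h3
        · exact absurd h2 h3
        · obtain ⟨U', hU', V', hV', ⟨c3, c4⟩, c1, c2, c5⟩ := h3
          exact ⟨U', hU', V', hV', c1, c2, c3, c4, c5⟩
    rw [he]
    refine MeasurableSet.iInter fun k => MeasurableSet.biInter hg.countable fun U hU =>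
      MeasurableSet.biInter hg.countable fun V hV => ?_
    refine (hvt U hU).compl.union ((hvt V hV).compl.union ?_)
    refine MeasurableSet.biUnion hg.countable fun U' hU' =>
      MeasurableSet.biUnion hg.countable fun V' hV' => ?_
    exact ((hvt U' hU').inter (hvt V' hV')).inter (MeasurableSet.const _)
  have := key.compl
  convert this using 1
  ext x
  simp

theorem triv_eqv {𝒰 : Set (Set S.X)} {x y : S.X} (h : S.Eqv 𝒰 x y) :
    S.Triv 𝒰 x ↔ S.Triv 𝒰 y := by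
  have key : ∀ {x y : S.X}, S.Eqv 𝒰 x y → S.Triv 𝒰 x → S.Triv 𝒰 y := fun h hx w hw =>
    E.trans S (E.symm S (hx _ h)) (hx w (Eqv.trans S h hw))
  exact ⟨key h, key (Eqv.symm S h)⟩

theorem triv_mono {𝒰 𝒱 : Set (Set S.X)} (h : 𝒰 ⊆ 𝒱) {x : S.X} (hx : S.Triv 𝒰 x) :
    S.Triv 𝒱 x :=
  fun y hy => hx y (Eqv.mono S h hy)

theorem not_triv_iUnion (𝒰 : ℕ → Set (Set S.X)) (hg : ∀ n, S.Good (𝒰 n))
    (hmono : ∀ n, 𝒰 n ⊆ 𝒰 (n + 1)) (hU : S.Good (⋃ n, 𝒰 n)) {x : S.X}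
    (hx : ∀ n, ¬ S.Triv (𝒰 n) x) : ¬ S.Triv (⋃ n, 𝒰 n) x := by
  have hm : Monotone 𝒰 := monotone_nat_of_le_succ hmono
  rw [S.not_triv_iff hU]
  intro k U hU' V hV' hxU hxV
  obtain ⟨m, hm'⟩ := mem_iUnion.1 hU'
  obtain ⟨n, hn'⟩ := mem_iUnion.1 hV'
  have h1 : U ∈ 𝒰 (max m n) := hm (le_max_left m n) hm'
  have h2 : V ∈ 𝒰 (max m n) := hm (le_max_right m n) hn'
  obtain ⟨U', hU'', V', hV'', c⟩ :=
    (S.not_triv_iff (hg (max m n)) x).1 (hx _) k U h1 V h2 hxU hxV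
  exact ⟨U', mem_iUnion.2 ⟨_, hU''⟩, V', mem_iUnion.2 ⟨_, hV''⟩, c⟩

theorem E_meas : MeasurableSet {p : S.X × S.X | S.E p.1 p.2} := by
  have he : {p : S.X × S.X | S.E p.1 p.2} = ⋃ k, S.F k := by
    ext ⟨a, b⟩
    simp only [mem_setOf_eq, mem_iUnion]
    exact S.F_iff a b
  rw [he]
  exact MeasurableSet.iUnion fun k => (S.F_closed k).measurableSet

theorem orbit_meas (x : S.X) : MeasurableSet {y | S.E x y} :=
  measurable_prodMk_left (x := x) S.E_meas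

theorem triv_of_orbit_mem {𝒰 : Set (Set S.X)} {x : S.X} (hx : {y | S.E x y} ∈ 𝒰) :
    S.Triv 𝒰 x := by
  intro y hy
  have hi : S.Inv {y | S.E x y} := fun a b hab ha => E.trans S ha hab
  exact (S.mem_iff_of_eqv hx hi hy).1 (E.refl S x)

end PS

end H69M
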