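import Pool.Agent.H69M.Union
import Pool.Agent.H69M.Triv

/-!
# CondSig : increasing sequences of conditions have upper bounds

`𝒰 = ⋃ n, (c n).𝒰`, `𝒱 = ⋃ n, (c n).𝒱`, `R = ⋂ n, (c n).R`. `good`: `good_iUnion`.
* `left`: let `(x, y n) ∈ (c n).R`. As `(c (n + 1)).R ⊆ (c n).R`, `(x, y (n+1)) ∈ (c n).R`, so `(c n).eqv` gives
  `Eqv (c n).𝒱 (y n) (y (n + 1))`. `thread`: `y` with `Eqv (c n).𝒱 y (y n)` for all `n`. `(c n).sat` : `(x, y) ∈ (c n).R`.
  `right` is symmetric.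
* `eqv`, `sat`: `Eqv (⋃ n, 𝒰 n) x x' ↔ ∀ n, Eqv (𝒰 n) x x'`.
* `triv`: `Triv (⋃ n, 𝒰 n) x ↔ ∃ n, Triv (𝒰 n) x` (`triv_mono`, `not_triv_iUnion`).
-/

namespace H69M

open TopologicalSpace MeasureTheory Set Topology Filter

private theorem eqv_iUnion {S : PS} (𝒰 : ℕ → Set (Set S.X)) (x y : S.X) :
    S.Eqv (⋃ n, 𝒰 n) x y ↔ ∀ n, S.Eqv (𝒰 n) x y := by
  constructor
  · intro h n
    exact PS.Eqv.mono S (subset_iUnion 𝒰 n) h
  · intro h U hU
    obtain ⟨n, hn⟩ := mem_iUnion.1 hU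
    exact h n U hn

private theorem triv_iUnion {S : PS} (𝒰 : ℕ → Set (Set S.X)) (hg : ∀ n, S.Good (𝒰 n))
    (hmono : ∀ n, 𝒰 n ⊆ 𝒰 (n + 1)) (x : S.X) :
    S.Triv (⋃ n, 𝒰 n) x ↔ ∃ n, S.Triv (𝒰 n) x := by
  constructor
  · intro h
    by_contra hno
    push Not at hno
    exact S.not_triv_iUnion 𝒰 hg hmono (S.good_iUnion 𝒰 hg hmono) hno h
  · rintro ⟨n, hn⟩
    exact S.triv_mono (subset_iUnion 𝒰 n) hn

theorem cond_sigma {S T : PS} (c : ℕ → Cond S T) (hc : ∀ n, c n ≤ c (n + 1)) :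
    ∃ d, ∀ n, c n ≤ d := by
  have hU : ∀ n, (c n).𝒰 ⊆ (c (n + 1)).𝒰 := fun n => (hc n).1
  have hV : ∀ n, (c n).𝒱 ⊆ (c (n + 1)).𝒱 := fun n => (hc n).2.1
  have hR : ∀ n, (c (n + 1)).R ⊆ (c n).R := fun n => (hc n).2.2
  refine ⟨{ 𝒰 := ⋃ n, (c n).𝒰
            𝒱 := ⋃ n, (c n).𝒱
            R := ⋂ n, (c n).R
            good := S.good_iUnion _ (fun n => (c n).good) hU
            good' := T.good_iUnion _ (fun n => (c n).good') hV
            meas := MeasurableSet.iInter fun n => (c n).meas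
            left := ?_
            right := ?_
            eqv := ?_
            sat := ?_
            triv := ?_ }, ?_⟩
  · intro x
    choose y hy using fun n => (c n).left x
    obtain ⟨y', hy'⟩ := T.thread (fun n => (c n).𝒱) (fun n => (c n).good') hV y (by
      intro n
      exact ((c n).eqv x (y n) x (y (n + 1)) (hy n) (hR n (hy (n + 1)))).1 (PS.Eqv.refl S _ x))
    refine ⟨y', mem_iInter.2 fun n => ?_⟩
    exact (c n).sat x (y n) x y' (hy n) (PS.Eqv.refl S _ x) (PS.Eqv.symm T (hy' n))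
  · intro y
    choose x hx using fun n => (c n).right y
    obtain ⟨x', hx'⟩ := S.thread (fun n => (c n).𝒰) (fun n => (c n).good) hU x (by
      intro n
      exact ((c n).eqv (x n) y (x (n + 1)) y (hx n) (hR n (hx (n + 1)))).2 (PS.Eqv.refl T _ y))
    refine ⟨x', mem_iInter.2 fun n => ?_⟩
    exact (c n).sat (x n) y x' y (hx n) (PS.Eqv.symm S (hx' n)) (PS.Eqv.refl T _ y)
  · intro x y x' y' h h'
    rw [eqv_iUnion, eqv_iUnion]
    exact forall_congr' fun n => (c n).eqv x y x' y' (mem_iInter.1 h n) (mem_iInter.1 h' n)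
  · intro x y x' y' h hx hy
    refine mem_iInter.2 fun n => ?_
    exact (c n).sat x y x' y' (mem_iInter.1 h n) ((eqv_iUnion _ _ _).1 hx n)
      ((eqv_iUnion _ _ _).1 hy n)
  · intro x y h
    rw [triv_iUnion _ (fun n => (c n).good) hU, triv_iUnion _ (fun n => (c n).good') hV]
    exact exists_congr fun n => (c n).triv x y (mem_iInter.1 h n)
  · intro n
    exact ⟨subset_iUnion (fun n => (c n).𝒰) n, subset_iUnion (fun n => (c n).𝒱) n,
      iInter_subset (fun n => (c n).R) n⟩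

end H69M
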