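import Pool.Agent.H69M.EmbStep
import Pool.Agent.H69M.Left

/-!
# Emb : the uniform embedding of E_0 into nontrivial types

For a list `l = [γ (n-1), ..., γ 0]` of elements of `D` and `z : ℕ → Bool` let `gp l z` be defined by
`gp [] z = 1`, `gp (γ :: l) z = gp l z * (if z l.length then γ else 1)`; it depends on `z 0, ..., z (n-1)` only.

States: `St = ↥𝒰 × List ↥S.D`, countable. Transition `R n (V, l) (V', l')`: there is `g : S.D` with
`l' = g :: l`, `V' ⊆ V`, `∀ y ∈ V', g • y ∈ V`, and for all `z`, `z'`: `trl (gp l z) V'` and `trl (gp l z * g) V'` are in `Sm n`, and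
`(gp l z • a, (gp l z' * g) • b) ∉ F n` for `a, b ∈ V'`. `C (V, l) = {x | x ∈ VT V}`.
`leftmost` with `α = S.X`, `s₀ = (univ, [])` gives `σ`. For nontrivial `x` the existence of the next state is
`emb_step` with the finite set `H = {gp l z | z}`; so by induction `x ∈ VT V_n`, where `σ n x = (V_n, l_n)`, and
`R n (σ n x) (σ (n+1) x)`, `l_n` has length `n`.

For `(x, z)` let `A n (x, z) = trl (gp l_n z) V_n`. It is in `𝒰`; it is nonempty; decreasing:
`gp l_(n+1) z = gp l_n z * (γ or 1)` and `V_(n+1) ⊆ V_n`, `γ • V_(n+1) ⊆ V_n`; `A (n+1) (x, z) ∈ Sm n`. Let `f` be the function of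
`exists_limit` for `α = S.X × (ℕ → Bool)` (the sets `{(x, z) | A n (x, z) = V}` are measurable: `σ n x` takes countably many
values on measurable sets, and for a fixed value `(V_n, l)` the condition on `z` depends on finitely many
coordinates), and `K x z = f (x, z)` for nontrivial `x`, `K x z = x` for trivial `x` (`triv_meas`).
* `K x` is continuous: for nontrivial `x` and an open `O ∋ K x z` take `W ∈ 𝒰` with `K x z ∈ W ⊆ O` and `n` with
  `A n (x, z) ⊆ W`; if `z'` agrees with `z` below `n` then `A n (x, z') = A n (x, z)` and `K x z' ∈ A n (x, z')`.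
* `K x = K y` if `Eqv 𝒰 x y`: `x`, `y` are in the same sets `C s`, so `σ n x = σ n y`, `A n (x, z) = A n (y, z)`.
* `Eqv 𝒰 (K x z) x`: `limit_eqv`, `x ∈ VT (A n (x, z))` by `vt_trl`.
* if `E0 z z'` then `E (K x z) (K x z')`: say `z m = z' m` for `m ≥ n`. Let `g = gp l_n z`, `g' = gp l_n z'` and
  `k = g' * g⁻¹`. For `m ≥ n`, `gp l_m z' = k * gp l_m z`, so `A m (x, z') = trl k (A m (x, z))`, so `k • K x z ∈ A m (x, z')` for all
  `m ≥ n`, and therefore `k • K x z = K x z'`, as two points in all the sets `A m (x, z')` are equal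
  (members of `𝒰` containing one of them contain some `A m`, and `𝒰` separates points).
* if not `E0 z z'` then not `E (K x z) (K x z')`: for infinitely many `n`, `z n ≠ z' n`, say `z n = false`, `z' n = true`; then
  `K x z ∈ trl (gp l_n z) V_(n+1)`, `K x z' ∈ trl (gp l_n z' * γ_n) V_(n+1)`, so `(K x z, K x z') ∉ F n`; in the
  other case `(K x z', K x z) ∉ F n`, by symmetry `(K x z, K x z') ∉ F n`. As `F` is increasing, `(K x z, K x z') ∉ F k`
  for all `k`; `F_iff`.
-/

namespace H69M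

open TopologicalSpace MeasureTheory Set Topology Filter

namespace PS

variable (S : PS)

/-- the products `gp l z` -/
def gp : List S.D → (ℕ → Bool) → S.G
  | [], _ => 1
  | γ :: l, z => gp l z * (if z l.length then (γ : S.G) else 1)

open Classical in
/-- the finite set of all the products `gp l z` -/
noncomputable def gps : List S.D → Finset S.G
  | [] => {1}
  | γ :: l => gps l ∪ (gps l).image (fun h => h * (γ : S.G))

theorem gp_mem_gps (l : List S.D) (z : ℕ → Bool) : S.gp l z ∈ S.gps l := by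
  classical
  induction l with
  | nil => simp [gp, gps]
  | cons γ l ih =>
    rw [gp, gps, Finset.mem_union]
    by_cases h : z l.length = true
    · right
      rw [if_pos h]
      exact Finset.mem_image_of_mem _ ih
    · left
      rw [if_neg h, mul_one]
      exact ih

theorem gps_mem (l : List S.D) : ∀ h ∈ S.gps l, h ∈ S.D := by
  classical
  induction l with
  | nil =>
    intro h hh
    rw [gps, Finset.mem_singleton] at hh
    rw [hh]
    exact S.D.one_mem
  | cons γ l ih =>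
    intro h hh
    rw [gps, Finset.mem_union, Finset.mem_image] at hh
    rcases hh with hh | ⟨k, hk, rfl⟩
    · exact ih h hh
    · exact S.D.mul_mem (ih k hk) γ.2

theorem gp_mem (l : List S.D) (z : ℕ → Bool) : S.gp l z ∈ S.D :=
  S.gps_mem l _ (S.gp_mem_gps l z)

theorem gp_congr (l : List S.D) (z z' : ℕ → Bool) (h : ∀ i < l.length, z i = z' i) :
    S.gp l z = S.gp l z' := by
  induction l with
  | nil => rfl
  | cons γ l ih =>
    rw [gp, gp, ih (fun i hi => h i (by simp only [List.length_cons]; omega)),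
      h l.length (by simp)]

theorem gp_meas (l : List S.D) : ∀ Q : S.G → Prop, MeasurableSet {z | Q (S.gp l z)} := by
  induction l with
  | nil =>
    intro Q
    simp only [gp]
    exact MeasurableSet.const _
  | cons γ l ih =>
    intro Q
    have h1 : {z | Q (S.gp (γ :: l) z)} =
        ({z : ℕ → Bool | z l.length = true} ∩ {z | Q (S.gp l z * γ)}) ∪
          ({z : ℕ → Bool | z l.length = true}ᶜ ∩ {z | Q (S.gp l z)}) := by
      ext z
      simp only [gp, Set.mem_ofPred_eq, Set.mem_union, Set.mem_inter_iff, Set.mem_compl_iff]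
      by_cases h : z l.length = true
      · simp [h]
      · simp [h]
    have h0 : Measurable (fun z : ℕ → Bool => z l.length) := measurable_pi_apply _
    have h2 : MeasurableSet {z : ℕ → Bool | z l.length = true} := h0 (measurableSet_singleton true)
    rw [h1]
    exact (h2.inter (ih (fun g => Q (g * γ)))).union (h2.compl.inter (ih Q))

/-- the transition relation -/
def embR (𝒰 : Set (Set S.X)) (Sm : ℕ → Set (Set S.X)) (n : ℕ) (s s' : ↥𝒰 × List S.D) : Prop :=
  ∃ γ : S.D, s'.2 = γ :: s.2 ∧ (s'.1 : Set S.X) ⊆ s.1 ∧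
    (∀ y ∈ (s'.1 : Set S.X), (γ : S.G) • y ∈ (s.1 : Set S.X)) ∧
    (∀ z, S.trl (S.gp s.2 z) s'.1 ∈ Sm n ∧ S.trl (S.gp s.2 z * γ) s'.1 ∈ Sm n) ∧
    ∀ z z', ∀ a ∈ (s'.1 : Set S.X), ∀ b ∈ (s'.1 : Set S.X),
      (S.gp s.2 z • a, (S.gp s.2 z' * γ) • b) ∉ S.F n

theorem exists_states {𝒰 : Set (Set S.X)} (hg : S.Good 𝒰) {Sm : ℕ → Set (Set S.X)}
    (hS : Sys 𝒰 Sm) :
    ∃ σ : ℕ → S.X → ↥𝒰 × List S.D, (∀ n s, MeasurableSet {a | σ n a = s}) ∧
      (∀ x y, S.Eqv 𝒰 x y → ∀ n, σ n x = σ n y) ∧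
      ∀ x, ¬ S.Triv 𝒰 x → ∀ n, x ∈ S.VT (σ n x).1 ∧ (σ n x).2.length = n ∧
        S.embR 𝒰 Sm n (σ n x) (σ (n + 1) x) := by
  have : Countable 𝒰 := hg.countable.to_subtype
  have : Countable S.D := S.D_countable.to_subtype
  obtain ⟨σ, hσm, hσ0, hσe, hσR⟩ := leftmost (α := S.X) (St := ↥𝒰 × List S.D)
    (fun s => S.VT s.1) (fun s => S.vt_meas (hg.meas _ s.1.2)) (S.embR 𝒰 Sm)
    (⟨Set.univ, hg.univ⟩, [])
  refine ⟨σ, hσm, fun x y hxy n => hσe x y (fun s => hxy _ s.1.2) n, fun x hx => ?_⟩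
  have hstep : ∀ n, x ∈ S.VT (σ n x).1 →
      S.embR 𝒰 Sm n (σ n x) (σ (n + 1) x) ∧ x ∈ S.VT (σ (n + 1) x).1 := by
    intro n hn
    refine hσR n x ?_
    obtain ⟨γ, hγ, V', hV', hxV', hsub, hmap, hsm, hF⟩ := S.emb_step hg hS hx (σ n x).1.2 hn
      (S.gps (σ n x).2) (S.gps_mem _) n
    refine ⟨(⟨V', hV'⟩, ⟨γ, hγ⟩ :: (σ n x).2), ⟨⟨γ, hγ⟩, rfl, hsub, hmap,
      fun z => hsm _ (S.gp_mem_gps _ z), fun z z' => hF _ (S.gp_mem_gps _ z) _
        (S.gp_mem_gps _ z')⟩, hxV'⟩
  have hmem : ∀ n, x ∈ S.VT (σ n x).1 := by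
    intro n
    induction n with
    | zero =>
      rw [hσ0]
      exact S.vt_univ x
    | succ n ih => exact (hstep n ih).2
  have hlen : ∀ n, (σ n x).2.length = n := by
    intro n
    induction n with
    | zero =>
      rw [hσ0]
      rfl
    | succ n ih =>
      obtain ⟨γ, h1, -⟩ := (hstep n (hmem n)).1
      rw [h1, List.length_cons, ih]
  exact fun n => ⟨hmem n, hlen n, (hstep n (hmem n)).1⟩

theorem exists_emb {𝒰 : Set (Set S.X)} (hg : S.Good 𝒰) :
    ∃ K : S.X → (ℕ → Bool) → S.X, Measurable (fun p : S.X × (ℕ → Bool) => K p.1 p.2) ∧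
      (∀ x, Continuous (K x)) ∧
      (∀ x y, S.Eqv 𝒰 x y → ¬ S.Triv 𝒰 x → K x = K y) ∧
      (∀ x, ¬ S.Triv 𝒰 x → ∀ z, S.Eqv 𝒰 (K x z) x) ∧
      ∀ x, ¬ S.Triv 𝒰 x → ∀ z z', S.E (K x z) (K x z') ↔ E0 z z' := by
  classical
  rcases isEmpty_or_nonempty S.X with hX | hX
  · exact ⟨fun x _ => x, measurable_fst, fun x => isEmptyElim x, fun x => isEmptyElim x,
      fun x => isEmptyElim x, fun x => isEmptyElim x⟩
  obtain ⟨x₀⟩ := hX
  obtain ⟨Sm, hS⟩ := hg.sys
  obtain ⟨σ, hσm, hσe, hσ⟩ := S.exists_states hg hS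
  have : Countable 𝒰 := hg.countable.to_subtype
  have : Countable S.D := S.D_countable.to_subtype
  let A : ℕ → S.X × (ℕ → Bool) → Set S.X := fun n p =>
    S.trl (S.gp (σ n p.1).2 p.2) (σ n p.1).1
  have hA : ∀ n p, A n p ∈ 𝒰 := fun n p => S.trl_mem hg (S.gp_mem _ _) (σ n p.1).1.2
  have hAm : ∀ n, ∀ V : Set S.X, MeasurableSet {p | A n p = V} := by
    intro n V
    have h1 : {p | A n p = V} = ⋃ s : ↥𝒰 × List S.D,
        (Prod.fst ⁻¹' {x | σ n x = s}) ∩
          (Prod.snd ⁻¹' {z : ℕ → Bool | S.trl (S.gp s.2 z) s.1 = V}) := by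
      ext p
      simp only [A, Set.mem_ofPred_eq, Set.mem_iUnion, Set.mem_inter_iff, Set.mem_preimage]
      constructor
      · intro h
        exact ⟨σ n p.1, rfl, h⟩
      · rintro ⟨s, h2, h3⟩
        rw [h2]
        exact h3
    rw [h1]
    refine MeasurableSet.iUnion fun s => ?_
    exact (measurable_fst (hσm n s)).inter
      (measurable_snd (S.gp_meas s.2 (fun g => S.trl g s.1 = V)))
  obtain ⟨f, hfm, hfe, hf⟩ := S.exists_limit hg hS x₀ A hA hAm
  -- the successor sets
  have hsucc : ∀ x, ¬ S.Triv 𝒰 x → ∀ n, ∃ γ : S.D, (σ (n + 1) x).2 = γ :: (σ n x).2 ∧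
      (∀ z, S.gp (σ (n + 1) x).2 z = S.gp (σ n x).2 z * (if z n then (γ : S.G) else 1)) ∧
      ((σ (n + 1) x).1 : Set S.X) ⊆ (σ n x).1 ∧
      (∀ y ∈ ((σ (n + 1) x).1 : Set S.X), (γ : S.G) • y ∈ ((σ n x).1 : Set S.X)) ∧
      (∀ z, S.trl (S.gp (σ n x).2 z) (σ (n + 1) x).1 ∈ Sm n ∧
        S.trl (S.gp (σ n x).2 z * γ) (σ (n + 1) x).1 ∈ Sm n) ∧
      ∀ z z', ∀ a ∈ ((σ (n + 1) x).1 : Set S.X), ∀ b ∈ ((σ (n + 1) x).1 : Set S.X),
        (S.gp (σ n x).2 z • a, (S.gp (σ n x).2 z' * γ) • b) ∉ S.F n := by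
    intro x hx n
    obtain ⟨-, hl, γ, h1, h2, h3, h4, h5⟩ := hσ x hx n
    refine ⟨γ, h1, fun z => ?_, h2, h3, h4, h5⟩
    rw [h1, gp, hl]
  have hlim : ∀ x, ¬ S.Triv 𝒰 x → ∀ z, (∀ n, A (n + 1) (x, z) ⊆ A n (x, z)) ∧
      (∀ n, f (x, z) ∈ A n (x, z)) ∧ ∀ W ∈ 𝒰, f (x, z) ∈ W → ∃ n, A n (x, z) ⊆ W := by
    intro x hx z
    have hdec : ∀ n, A (n + 1) (x, z) ⊆ A n (x, z) := by
      intro n y hy
      obtain ⟨γ, h1, h2, h3, h4, h5, h6⟩ := hsucc x hx n
      have hy' : (S.gp (σ (n + 1) x).2 z)⁻¹ • y ∈ ((σ (n + 1) x).1 : Set S.X) := hy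
      show (S.gp (σ n x).2 z)⁻¹ • y ∈ ((σ n x).1 : Set S.X)
      rw [h2] at hy'
      by_cases hz : z n = true
      · rw [if_pos hz] at hy'
        have h7 := h4 _ hy'
        rwa [mul_inv_rev, mul_smul, smul_inv_smul] at h7
      · rw [if_neg hz, mul_one] at hy'
        exact h3 hy'
    refine ⟨hdec, hf (x, z) ?_ hdec ?_⟩
    · intro n
      obtain ⟨y, -, hy⟩ := S.vt_hit' (hσ x hx n).1
      refine ⟨S.gp (σ n x).2 z • y, ?_⟩
      show (S.gp (σ n x).2 z)⁻¹ • S.gp (σ n x).2 z • y ∈ ((σ n x).1 : Set S.X)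
      rw [inv_smul_smul]
      exact hy
    · intro n
      obtain ⟨γ, h1, h2, h3, h4, h5, h6⟩ := hsucc x hx n
      show S.trl (S.gp (σ (n + 1) x).2 z) (σ (n + 1) x).1 ∈ Sm n
      rw [h2]
      by_cases hz : z n = true
      · rw [if_pos hz]
        exact (h5 z).2
      · rw [if_neg hz, mul_one]
        exact (h5 z).1
  let K : S.X → (ℕ → Bool) → S.X := fun x z => if S.Triv 𝒰 x then x else f (x, z)
  have hK : ∀ x, ¬ S.Triv 𝒰 x → ∀ z, K x z = f (x, z) := fun x hx z => if_neg hx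
  refine ⟨K, ?_, ?_, ?_, ?_, ?_⟩
  · exact Measurable.ite (measurable_fst (S.triv_meas hg)) measurable_fst hfm
  · intro x
    by_cases hx : S.Triv 𝒰 x
    · have h1 : K x = fun _ => x := by
        funext z
        exact if_pos hx
      rw [h1]
      exact continuous_const
    · have h1 : K x = fun z => f (x, z) := by
        funext z
        exact hK x hx z
      rw [h1, continuous_iff_continuousAt]
      intro z
      rw [ContinuousAt, tendsto_nhds]
      intro O hO hz
      obtain ⟨W, hW, hzW, hWO⟩ := hg.base O hO _ hz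
      obtain ⟨n, hn⟩ := (hlim x hx z).2.2 W hW hzW
      have h2 : ∀ᶠ z' in 𝓝 z, ∀ i ∈ Finset.range n, z' i = z i := by
        rw [Filter.eventually_all_finset]
        intro i _
        exact (continuous_apply i).continuousAt.eventually
          ((isOpen_discrete {z i}).mem_nhds rfl)
      filter_upwards [h2] with z' hz'
      have h3 : A n (x, z') = A n (x, z) := by
        show S.trl (S.gp (σ n x).2 z') (σ n x).1 = S.trl (S.gp (σ n x).2 z) (σ n x).1
        rw [S.gp_congr (σ n x).2 z' z]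
        intro i hi
        rw [(hσ x hx n).2.1] at hi
        exact hz' i (Finset.mem_range.2 hi)
      have h4 := (hlim x hx z').2.1 n
      rw [h3] at h4
      exact hWO (hn h4)
  · intro x y hxy hx
    have hy : ¬ S.Triv 𝒰 y := fun h => hx ((S.triv_eqv hxy).2 h)
    funext z
    rw [hK x hx, hK y hy]
    refine hfe _ _ fun n => ?_
    show S.trl (S.gp (σ n x).2 z) (σ n x).1 = S.trl (S.gp (σ n y).2 z) (σ n y).1
    rw [hσe x y hxy n]
  · intro x hx z
    rw [hK x hx]
    refine S.limit_eqv hg (V := fun n => A n (x, z)) (fun n => ?_) (hlim x hx z).2.2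
    show x ∈ S.VT (S.trl (S.gp (σ n x).2 z) (σ n x).1)
    rw [S.vt_trl]
    exact (hσ x hx n).1
  · intro x hx z z'
    rw [hK x hx, hK x hx]
    constructor
    · -- not equivalent
      intro hE
      have key : ∀ w w' : ℕ → Bool, ∀ n, w n = false → w' n = true →
          (f (x, w), f (x, w')) ∉ S.F n := by
        intro w w' n hw hw'
        obtain ⟨γ, h1, h2, h3, h4, h5, h6⟩ := hsucc x hx n
        have ha : (S.gp (σ (n + 1) x).2 w)⁻¹ • f (x, w) ∈ ((σ (n + 1) x).1 : Set S.X) :=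
          (hlim x hx w).2.1 (n + 1)
        have hb : (S.gp (σ (n + 1) x).2 w')⁻¹ • f (x, w') ∈ ((σ (n + 1) x).1 : Set S.X) :=
          (hlim x hx w').2.1 (n + 1)
        rw [h2, if_neg (by rw [hw]; exact Bool.false_ne_true), mul_one] at ha
        rw [h2, if_pos hw'] at hb
        have h7 := h6 w w' _ ha _ hb
        rwa [smul_inv_smul, smul_inv_smul] at h7
      by_contra hne
      obtain ⟨k, hk⟩ := (S.F_iff _ _).1 hE
      have hmono : Monotone S.F := monotone_nat_of_le_succ S.F_mono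
      rw [E0, Filter.not_eventually, Filter.frequently_atTop] at hne
      obtain ⟨n, hn, hzn⟩ := hne k
      have hFn : (f (x, z), f (x, z')) ∈ S.F n := hmono hn hk
      cases hz : z n with
      | false =>
        cases hz' : z' n with
        | false => exact hzn (hz.trans hz'.symm)
        | true => exact key z z' n hz hz' hFn
      | true =>
        cases hz' : z' n with
        | false => exact key z' z n hz' hz (S.F_symm _ _ _ hFn)
        | true => exact hzn (hz.trans hz'.symm)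
    · -- equivalent
      intro hE
      obtain ⟨N, hN⟩ := Filter.eventually_atTop.1 hE
      let k : S.G := S.gp (σ N x).2 z' * (S.gp (σ N x).2 z)⁻¹
      have hk : ∀ m, N ≤ m → S.gp (σ m x).2 z' = k * S.gp (σ m x).2 z := by
        intro m hm
        induction m, hm using Nat.le_induction with
        | base => exact (inv_mul_cancel_right _ _).symm
        | succ m hm ih =>
          obtain ⟨γ, h1, h2, -⟩ := hsucc x hx m
          rw [h2, h2, ih, hN m hm, mul_assoc]
      have hmem : ∀ m, N ≤ m → k • f (x, z) ∈ A m (x, z') := by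
        intro m hm
        show (S.gp (σ m x).2 z')⁻¹ • k • f (x, z) ∈ ((σ m x).1 : Set S.X)
        rw [hk m hm, mul_inv_rev, mul_smul, inv_smul_smul]
        exact (hlim x hx z).2.1 m
      refine ⟨k, ?_⟩
      by_contra hne
      obtain ⟨U, hU, hU1, hU2⟩ := hg.base {k • f (x, z)}ᶜ isOpen_compl_singleton (f (x, z'))
        (fun h => hne (Set.mem_singleton_iff.1 h).symm)
      obtain ⟨n, hn⟩ := (hlim x hx z').2.2 U hU hU1
      have hanti : Antitone (fun m => A m (x, z')) := antitone_nat_of_succ_le (hlim x hx z').1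
      have h3 : k • f (x, z) ∈ A n (x, z') :=
        hanti (le_max_left n N) (hmem (max n N) (le_max_right n N))
      exact hU2 (hn h3) rfl

end PS

end H69M
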