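import Pool.Agent.H69M.Triv

/-!
# EmbStep : one step of the embedding of E_0

`trl g V = (fun x => g⁻¹ • x) ⁻¹' V` is the translate of `V`.

Step A. `disj`: for a nontrivial `x`, `V ∈ 𝒰`, `x ∈ VT V`, `H` finite, `H ⊆ D`, there are `W`, `W' ∈ 𝒰`, both contained in
`V`, `x ∈ VT W`, `x ∈ VT W'`, with `(h • a, h' • b) ∉ F n` for `h, h' ∈ H`, `a ∈ W`, `b ∈ W'`. Induction on the finite
set of pairs `(h, h')` : given `W`, `W'` for some set of pairs, and a new pair `(h, h')`, apply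
`not_triv_iff` to `trl h W`, `trl h' W'` (members of `𝒰` by `tr`, and `x ∈ VT (trl h W)` by `vt_smul`): there are
`U₁ ⊆ trl h W`, `V₁ ⊆ trl h' W'` in `𝒰` with `x ∈ VT U₁`, `x ∈ VT V₁` and no pair of `U₁ ×ˢ V₁` in `F n`. Replace `W` by the preimage
of `U₁` under `h` (a subset of `W`) and `W'` by the preimage of `V₁` under `h'`.

Step B. `vt_erg` for `W`, `W'`: `g ∈ D` with `x ∈ VT V₀`, `V₀ = W ∩ (g • ·)⁻¹' W' ∈ 𝒰`.

Step C. Shrink by `vt_shrink` with `P V' := ∀ h ∈ H, trl h V' ∈ Sm n ∧ trl (h * g) V' ∈ Sm n`: for `y ∈ V₀` and each of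
the finitely many `k ∈ {h, h * g | h ∈ H} ⊆ D` there is by `fine` (for `trl k V₀ ∈ 𝒰`, which contains `k • y`) a
`V_k ∈ 𝒰` with `k • y ∈ V_k ⊆ trl k V₀`, `V_k ∈ Sm n`; let `V'` be the intersection of `V₀` and of the preimages of the `V_k` under
`k`; then `trl k V' ⊆ V_k`, so it is small by `down`.
-/

namespace H69M

open TopologicalSpace MeasureTheory Set Topology Filter

namespace PS

variable (S : PS)

theorem trl_mem {𝒰 : Set (Set S.X)} (hg : S.Good 𝒰) {g : S.G} (hgD : g ∈ S.D) {V : Set S.X}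
    (hV : V ∈ 𝒰) : S.trl g V ∈ 𝒰 :=
  hg.tr V hV g⁻¹ (S.D.inv_mem hgD)

theorem mem_trl {g : S.G} {V : Set S.X} {x : S.X} : x ∈ S.trl g V ↔ g⁻¹ • x ∈ V := Iff.rfl

theorem vt_trl (g : S.G) (V : Set S.X) : S.VT (S.trl g V) = S.VT V := S.vt_smul V g⁻¹

/-- Step A -/
private theorem emb_disj {𝒰 : Set (Set S.X)} (hg : S.Good 𝒰) {x : S.X} (hx : ¬ S.Triv 𝒰 x)
    {V : Set S.X} (hV : V ∈ 𝒰) (hxV : x ∈ S.VT V) (n : ℕ) (P : Finset (S.G × S.G))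
    (hP : ∀ q ∈ P, q.1 ∈ S.D ∧ q.2 ∈ S.D) :
    ∃ W ∈ 𝒰, ∃ W' ∈ 𝒰, W ⊆ V ∧ W' ⊆ V ∧ x ∈ S.VT W ∧ x ∈ S.VT W' ∧
      ∀ q ∈ P, ∀ a ∈ W, ∀ b ∈ W', (q.1 • a, q.2 • b) ∉ S.F n := by
  classical
  induction P using Finset.induction_on with
  | empty => exact ⟨V, hV, V, hV, Subset.rfl, Subset.rfl, hxV, hxV, by simp⟩
  | insert q P _ ih =>
    obtain ⟨W, hW, W', hW', hWV, hWV', hxW, hxW', hF⟩ :=
      ih (fun r hr => hP r (Finset.mem_insert_of_mem hr))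
    obtain ⟨hq1, hq2⟩ := hP q (Finset.mem_insert_self _ _)
    obtain ⟨U₁, hU₁, V₁, hV₁, hUs, hVs, hxU₁, hxV₁, hF₁⟩ := (S.not_triv_iff hg x).1 hx n
      (S.trl q.1 W) (S.trl_mem hg hq1 hW) (S.trl q.2 W') (S.trl_mem hg hq2 hW')
      (by rw [S.vt_trl]; exact hxW) (by rw [S.vt_trl]; exact hxW')
    have h1 : (fun x => q.1 • x) ⁻¹' U₁ ⊆ W := by
      intro y hy
      have := hUs hy
      rw [mem_trl, inv_smul_smul] at this
      exact this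
    have h2 : (fun x => q.2 • x) ⁻¹' V₁ ⊆ W' := by
      intro y hy
      have := hVs hy
      rw [mem_trl, inv_smul_smul] at this
      exact this
    refine ⟨(fun x => q.1 • x) ⁻¹' U₁, hg.tr _ hU₁ _ hq1, (fun x => q.2 • x) ⁻¹' V₁,
      hg.tr _ hV₁ _ hq2, h1.trans hWV, h2.trans hWV', ?_, ?_, ?_⟩
    · rw [S.vt_smul]; exact hxU₁
    · rw [S.vt_smul]; exact hxV₁
    · intro r hr a ha b hb
      rcases Finset.mem_insert.1 hr with rfl | hr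
      · exact hF₁ _ ha _ hb
      · exact hF r hr a (h1 ha) b (h2 hb)

/-- Step C, local version -/
private theorem emb_small {𝒰 : Set (Set S.X)} (hg : S.Good 𝒰) {Sm : ℕ → Set (Set S.X)}
    (hS : Sys 𝒰 Sm) {V₀ : Set S.X} (hV₀ : V₀ ∈ 𝒰) {y : S.X} (hy : y ∈ V₀) (n : ℕ)
    (K : Finset S.G) (hK : ∀ k ∈ K, k ∈ S.D) :
    ∃ V' ∈ 𝒰, y ∈ V' ∧ V' ⊆ V₀ ∧ ∀ k ∈ K, S.trl k V' ∈ Sm n := by
  classical
  induction K using Finset.induction_on with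
  | empty => exact ⟨V₀, hV₀, hy, Subset.rfl, by simp⟩
  | insert k K _ ih =>
    obtain ⟨V', hV', hyV', hsub, hsm⟩ := ih (fun r hr => hK r (Finset.mem_insert_of_mem hr))
    have hk := hK k (Finset.mem_insert_self _ _)
    obtain ⟨Vk, hVk, hkV, hVks, hVsm⟩ := hS.fine n (S.trl k V') (S.trl_mem hg hk hV') (k • y)
      (by rw [mem_trl, inv_smul_smul]; exact hyV')
    have h1 : (fun x => k • x) ⁻¹' Vk ⊆ V' := by
      intro z hz
      have := hVks hz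
      rw [mem_trl, inv_smul_smul] at this
      exact this
    refine ⟨(fun x => k • x) ⁻¹' Vk, hg.tr _ hVk _ hk, hkV, h1.trans hsub, ?_⟩
    intro r hr
    rcases Finset.mem_insert.1 hr with rfl | hr
    · have h2 : S.trl r ((fun x => r • x) ⁻¹' Vk) = Vk := by
        ext w
        rw [mem_trl, mem_preimage, smul_inv_smul]
      rw [h2]
      exact hVsm
    · refine hS.down n _ _ ?_ (hsm r hr)
      intro w hw
      rw [mem_trl] at hw ⊢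
      exact h1 hw

theorem emb_step {𝒰 : Set (Set S.X)} (hg : S.Good 𝒰) {Sm : ℕ → Set (Set S.X)}
    (hS : Sys 𝒰 Sm) {x : S.X} (hx : ¬ S.Triv 𝒰 x) {V : Set S.X} (hV : V ∈ 𝒰)
    (hxV : x ∈ S.VT V) (H : Finset S.G) (hH : ∀ h ∈ H, h ∈ S.D) (n : ℕ) :
    ∃ g ∈ S.D, ∃ V' ∈ 𝒰, x ∈ S.VT V' ∧ V' ⊆ V ∧ (∀ y ∈ V', g • y ∈ V) ∧
      (∀ h ∈ H, S.trl h V' ∈ Sm n ∧ S.trl (h * g) V' ∈ Sm n) ∧
      ∀ h ∈ H, ∀ h' ∈ H, ∀ a ∈ V', ∀ b ∈ V', (h • a, (h' * g) • b) ∉ S.F n := by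
  classical
  obtain ⟨W, hW, W', hW', hWV, hWV', hxW, hxW', hF⟩ := S.emb_disj hg hx hV hxV n (H ×ˢ H)
    (fun q hq => by
      rw [Finset.mem_product] at hq
      exact ⟨hH _ hq.1, hH _ hq.2⟩)
  obtain ⟨g, hgD, hxg⟩ := S.vt_erg (hg.meas W hW) (hg.meas W' hW') hxW hxW'
  have hV₀ : W ∩ (fun y => g • y) ⁻¹' W' ∈ 𝒰 := hg.inter _ hW _ (hg.tr _ hW' _ hgD)
  obtain ⟨V', hV', hsub, hsm, hxV'⟩ := S.vt_shrink hg.countable
    (fun V' => ∀ h ∈ H, S.trl h V' ∈ Sm n ∧ S.trl (h * g) V' ∈ Sm n) hxg (by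
      intro y hy
      obtain ⟨V', hV', hyV', hsub, hsm⟩ := S.emb_small hg hS hV₀ hy n
        (H ∪ H.image fun h => h * g) (by
          intro k hk
          rcases Finset.mem_union.1 hk with hk | hk
          · exact hH k hk
          · obtain ⟨h, hh, rfl⟩ := Finset.mem_image.1 hk
            exact S.D.mul_mem (hH h hh) hgD)
      exact ⟨V', hV', hyV', hsub, fun h hh => ⟨hsm h (Finset.mem_union_left _ hh),
        hsm _ (Finset.mem_union_right _ (Finset.mem_image_of_mem _ hh))⟩⟩)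
  refine ⟨g, hgD, V', hV', hxV', fun y hy => hWV (hsub hy).1, fun y hy => hWV' (hsub hy).2,
    hsm, ?_⟩
  intro h hh h' hh' a ha b hb
  rw [mul_smul]
  exact hF (h, h') (Finset.mk_mem_product hh hh') a (hsub ha).1 (g • b) (hsub hb).2

end PS

end H69M
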