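import Mathlib

/-!
# FSB : the fibrewise measurable Schroeder-Bernstein theorem

Copy the proof of Mathlib's `MeasurableEmbedding.schroederBernstein`
(Mathlib/MeasureTheory/MeasurableSpace/Embedding.lean): there is a measurable `A ⊆ α` with
`A = (g '' (f '' A)ᶜ)ᶜ`; the equivalence is `f` on `A` and the inverse of `g` on `Aᶜ = g '' (f '' A)ᶜ`. On `A`:
`q (f a) = p a`; on `Aᶜ`: `a = g b`, `q b = p (g b) = p a`.
-/

namespace H69M

open MeasureTheory Set

theorem fsb {α β γ : Type*} [MeasurableSpace α] [MeasurableSpace β] (p : α → γ) (q : β → γ)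
    {f : α → β} {g : β → α} (hf : MeasurableEmbedding f) (hg : MeasurableEmbedding g)
    (hfp : ∀ a, q (f a) = p a) (hgq : ∀ b, p (g b) = q b) :
    ∃ e : α ≃ᵐ β, ∀ a, q (e a) = p a := by
  classical
  let F : Set α → Set α := fun A => (g '' (f '' A)ᶜ)ᶜ
  have key : ∃ A : Set α, MeasurableSet A ∧ F A = A := by
    have Fmono : ∀ {A B}, A ⊆ B → F A ⊆ F B := fun h =>
      compl_subset_compl.mpr <| Set.image_mono <| compl_subset_compl.mpr <| Set.image_mono h
    let X : ℕ → Set α := fun n => F^[n] univ
    refine ⟨iInter X, ?_, ?_⟩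
    · refine MeasurableSet.iInter fun n ↦ ?_
      induction n with
      | zero => exact MeasurableSet.univ
      | succ n ih =>
        rw [Function.iterate_succ', Function.comp_apply]
        exact (hg.measurableSet_image' (hf.measurableSet_image' ih).compl).compl
    apply subset_antisymm
    · apply subset_iInter
      intro n
      cases n
      · exact subset_univ _
      simp only [X]
      rw [Function.iterate_succ', Function.comp_apply]
      exact Fmono (iInter_subset _ _)
    rintro x hx ⟨y, hy, rfl⟩
    rw [mem_iInter] at hx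
    apply hy
    rw [hf.injective.injOn.image_iInter_eq]
    rw [mem_iInter]
    intro n
    specialize hx n.succ
    change g y ∈ F^[n + 1] univ at hx
    rw [Function.iterate_succ', Function.comp_apply] at hx
    by_contra h
    apply hx
    exact ⟨y, h, rfl⟩
  obtain ⟨A, Ameas, Afp⟩ := key
  have Bmeas : MeasurableSet (f '' A) := hf.measurableSet_image' Ameas
  have hc : Aᶜ = g '' (f '' A)ᶜ := by
    apply compl_injective
    rw [compl_compl]
    exact Afp.symm
  have hE : ∀ s : Set α, s = g '' (f '' A)ᶜ →
      ∃ E : s ≃ᵐ ((f '' A)ᶜ : Set β), ∀ x : s, g (E x : β) = x := by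
    rintro s rfl
    refine ⟨(hg.equivImage _).symm, fun x => ?_⟩
    have h1 := (hg.equivImage ((f '' A)ᶜ)).apply_symm_apply x
    have h2 := congrArg Subtype.val h1
    exact h2
  obtain ⟨E, hEg⟩ := hE _ hc
  let e : α ≃ᵐ β := (MeasurableEquiv.sumCompl Ameas).symm.trans
    ((MeasurableEquiv.sumCongr (hf.equivImage A) E).trans (MeasurableEquiv.sumCompl Bmeas))
  refine ⟨e, fun a => ?_⟩
  obtain ⟨x, rfl⟩ := (MeasurableEquiv.sumCompl Ameas).surjective a
  have he : e (MeasurableEquiv.sumCompl Ameas x) = MeasurableEquiv.sumCompl Bmeas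
      (MeasurableEquiv.sumCongr (hf.equivImage A) E x) := by
    simp only [e, MeasurableEquiv.trans_apply, MeasurableEquiv.symm_apply_apply]
  rw [he]
  rcases x with x | x
  · exact hfp x
  · have h3 : q ((E x : ((f '' A)ᶜ : Set β)) : β) = p x := by
      rw [← hgq, hEg]
    exact h3

end H69M
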