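import Pool.Agent.H69M.Sect
import Pool.Agent.H69M.Triv
import Pool.Agent.H69M.FSB

/-!
# Fib : types over a nontrivial type form a Cantor space, uniformly

Let `s`, `s'` be the maps of `exists_section'` for `𝒰` and `𝒱`. Put
`α = {x : X // s' x = x ∧ x ∈ T}`, `β = {x : X // s x = x ∧ ¬ Triv 𝒰 x} × (ℕ → Bool)`; both are standard Borel spaces
(measurable subsets: `MeasurableSet.standardBorelSpace`; `{x | s x = x}` is measurable, as the diagonal is;
`triv_meas`). `γ = X`, `p x = s x`, `q (x, c) = x`.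
* `f : α → β`, `f x = (s x, i x)` with `i : X → (ℕ → Bool)` an injective measurable map (exists, `X` is standard Borel:
  `MeasurableSpace.measurable_injection_nat_bool_of_countablySeparated` and relatives). `s (s x) = s x` as `Eqv 𝒰 (s x) x`;
  `s x` is not trivial over `𝒰` by `triv_eqv` and `hTn`.
* `g : β → α`, `g (x, c) = s' (Q (x, c))`: in `T` by saturation; injective: if `s' (Q (x, c)) = s' (Q (y, c'))` then
  `Eqv 𝒱 (Q (x, c)) (Q (y, c'))`, so `Eqv 𝒰 x y` (`Q (x, c)` has the `𝒰`-type of `x`), `x = s x = s y = y`, and `c = c'` by the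
  last property of `Param`. `p (g (x, c)) = s (s' (Q (x, c))) = s x = x`.
Injective measurable maps between standard Borel spaces are measurable embeddings
(`Measurable.measurableEmbedding`). `fsb` gives `e : α ≃ᵐ β` with `(e x).1 = s x`. Define `φ x = (e (s' x)).2` for
`x ∈ T` and arbitrary (constant) outside `T` (`Measurable.piecewise` or `measurable_extend`-like; if `α` is empty take any constant).
* for `x, y ∈ T`: `Eqv 𝒱 x y ↔ s' x = s' y ↔ e (s' x) = e (s' y) ↔ s (s' x) = s (s' y) ∧ φ x = φ y`, and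
  `s (s' x) = s x` (`Eqv 𝒱 (s' x) x` implies `Eqv 𝒰`), `s x = s y ↔ Eqv 𝒰 x y`.
* for nontrivial `x` and `c`, `y = e⁻¹ (s x, c)`.
-/

namespace H69M

open TopologicalSpace MeasureTheory Set Topology Filter

namespace PS

variable (S : PS)

theorem fib {𝒰 𝒱 : Set (Set S.X)} (hg : S.Good 𝒰) (hg' : S.Good 𝒱) (hsub : 𝒰 ⊆ 𝒱)
    {T : Set S.X} (hT : MeasurableSet T) (hTs : ∀ x y, S.Eqv 𝒱 x y → x ∈ T → y ∈ T)
    (hTn : ∀ x ∈ T, ¬ S.Triv 𝒰 x) (h : S.Param 𝒰 𝒱 T) :
    ∃ φ : S.X → (ℕ → Bool), Measurable φ ∧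
      (∀ x ∈ T, ∀ y ∈ T, S.Eqv 𝒱 x y ↔ (S.Eqv 𝒰 x y ∧ φ x = φ y)) ∧
      ∀ x, ¬ S.Triv 𝒰 x → ∀ c, ∃ y ∈ T, S.Eqv 𝒰 x y ∧ φ y = c := by
  obtain ⟨s, hsm, hs, hss⟩ := S.exists_section' hg
  obtain ⟨s', hsm', hs', hss'⟩ := S.exists_section' hg'
  obtain ⟨Q, hQm, hQT, hQ⟩ := h
  obtain ⟨i, him, hi⟩ :=
    MeasurableSpace.measurable_injection_nat_bool_of_countablySeparated S.X
  have hidem : ∀ x, s (s x) = s x := fun x => hss _ _ (hs x)
  have hidem' : ∀ x, s' (s' x) = s' x := fun x => hss' _ _ (hs' x)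
  have hfix : MeasurableSet {x | s x = x} :=
    (hsm.prodMk measurable_id) (isClosed_diagonal (X := S.X)).measurableSet
  have hfix' : MeasurableSet {x | s' x = x} :=
    (hsm'.prodMk measurable_id) (isClosed_diagonal (X := S.X)).measurableSet
  have hA : MeasurableSet {x | s' x = x ∧ x ∈ T} := hfix'.inter hT
  have hB : MeasurableSet {x | s x = x ∧ ¬ S.Triv 𝒰 x} := hfix.inter (S.triv_meas hg).compl
  have hTs' : ∀ x ∈ T, s' x ∈ T := fun x hx => hTs x (s' x) (Eqv.symm S (hs' x)) hx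
  have hss2 : ∀ x, s (s' x) = s x := fun x => hss _ _ (Eqv.mono S hsub (hs' x))
  have : StandardBorelSpace {x | s' x = x ∧ x ∈ T} := hA.standardBorel
  have : StandardBorelSpace {x | s x = x ∧ ¬ S.Triv 𝒰 x} := hB.standardBorel
  let f : {x | s' x = x ∧ x ∈ T} → {x | s x = x ∧ ¬ S.Triv 𝒰 x} × (ℕ → Bool) := fun a =>
    (⟨s a.1, hidem _, fun ht => hTn a.1 a.2.2 ((S.triv_eqv (hs a.1)).1 ht)⟩, i a.1)
  let g : {x | s x = x ∧ ¬ S.Triv 𝒰 x} × (ℕ → Bool) → {x | s' x = x ∧ x ∈ T} := fun b =>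
    ⟨s' (Q (b.1.1, b.2)), hidem' _, hTs' _ (hQT b.1.1 b.2 b.1.2.2).1⟩
  have hfm : Measurable f :=
    (Measurable.subtype_mk (hsm.comp measurable_subtype_coe)).prodMk
      (him.comp measurable_subtype_coe)
  have hgm : Measurable g := by
    refine Measurable.subtype_mk (hsm'.comp (hQm.comp ?_))
    exact (measurable_subtype_coe.comp measurable_fst).prodMk measurable_snd
  have hfi : Function.Injective f := by
    intro a a' haa
    exact Subtype.ext (hi (congrArg Prod.snd haa))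
  have hgi : Function.Injective g := by
    rintro ⟨⟨x, hx1, hx2⟩, c⟩ ⟨⟨y, hy1, hy2⟩, c'⟩ hxy
    have h1 : s' (Q (x, c)) = s' (Q (y, c')) := congrArg Subtype.val hxy
    have h2 : S.Eqv 𝒱 (Q (x, c)) (Q (y, c')) :=
      Eqv.trans S (Eqv.symm S (hs' (Q (x, c)))) (h1 ▸ hs' (Q (y, c')))
    have h3 : S.Eqv 𝒰 x y :=
      Eqv.trans S (Eqv.symm S (hQT x c hx2).2)
        (Eqv.trans S (Eqv.mono S hsub h2) (hQT y c' hy2).2)
    have h4 : x = y := by
      rw [← hx1, ← hy1]
      exact hss _ _ h3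
    have h5 : c = c' := (hQ x y c c' h3 hx2).1 h2
    subst h4 h5
    rfl
  obtain ⟨e, he⟩ := fsb (fun a : {x | s' x = x ∧ x ∈ T} => s a.1)
    (fun b : {x | s x = x ∧ ¬ S.Triv 𝒰 x} × (ℕ → Bool) => (b.1 : S.X))
    (hfm.measurableEmbedding hfi) (hgm.measurableEmbedding hgi) (fun a => rfl)
    (fun b => by
      change s (s' (Q (b.1.1, b.2))) = b.1.1
      rw [hss2, hss _ _ (hQT b.1.1 b.2 b.1.2.2).2]
      exact b.1.2.1)
  rcases isEmpty_or_nonempty {x | s' x = x ∧ x ∈ T} with hem | ⟨⟨a0⟩⟩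
  · have hTe : ∀ x, x ∉ T := fun x hx => hem.false ⟨s' x, hidem' x, hTs' x hx⟩
    refine ⟨fun _ _ => true, measurable_const, fun x hx => absurd hx (hTe x), fun x hx c => ?_⟩
    exact absurd (hQT x c hx).1 (hTe _)
  · classical
    have hr0 : ∀ x, (if x ∈ T then s' x else a0.1) ∈ {x | s' x = x ∧ x ∈ T} := by
      intro x
      split_ifs with hx
      · exact ⟨hidem' x, hTs' x hx⟩
      · exact a0.2
    let r : S.X → {x | s' x = x ∧ x ∈ T} := fun x => ⟨if x ∈ T then s' x else a0.1, hr0 x⟩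
    have hrm : Measurable r := Measurable.subtype_mk (Measurable.ite hT hsm' measurable_const)
    have hr : ∀ x ∈ T, (r x).1 = s' x := fun x hx => if_pos hx
    have her : ∀ x ∈ T, ((e (r x)).1 : S.X) = s x := by
      intro x hx
      have := he (r x)
      rw [hr x hx, hss2] at this
      exact this
    refine ⟨fun x => (e (r x)).2, measurable_snd.comp (e.measurable.comp hrm), ?_, ?_⟩
    · intro x hx y hy
      constructor
      · intro hxy
        refine ⟨Eqv.mono S hsub hxy, ?_⟩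
        have : r x = r y := Subtype.ext (by rw [hr x hx, hr y hy]; exact hss' _ _ hxy)
        change (e (r x)).2 = (e (r y)).2
        rw [this]
      · rintro ⟨hxy, h2⟩
        have h1 : (e (r x)).1 = (e (r y)).1 :=
          Subtype.ext (by rw [her x hx, her y hy]; exact hss _ _ hxy)
        have h3 : r x = r y := e.injective (Prod.ext h1 h2)
        have h4 : s' x = s' y := by rw [← hr x hx, ← hr y hy, h3]
        exact Eqv.trans S (Eqv.symm S (hs' x)) (h4 ▸ hs' y)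
    · intro x hx c
      have hb : s x ∈ {x | s x = x ∧ ¬ S.Triv 𝒰 x} :=
        ⟨hidem x, fun ht => hx ((S.triv_eqv (hs x)).1 ht)⟩
      have hy := (e.symm (⟨s x, hb⟩, c)).2
      have hry : r (e.symm (⟨s x, hb⟩, c)).1 = e.symm (⟨s x, hb⟩, c) :=
        Subtype.ext (by rw [hr _ hy.2]; exact hy.1)
      have hey : e (r (e.symm (⟨s x, hb⟩, c)).1) = (⟨s x, hb⟩, c) := by
        rw [hry, e.apply_symm_apply]
      refine ⟨(e.symm (⟨s x, hb⟩, c)).1, hy.2, ?_, ?_⟩
      · have h1 : s x = s (e.symm (⟨s x, hb⟩, c)).1 := by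
          rw [← her _ hy.2, hey]
        have h2 := hs (e.symm (⟨s x, hb⟩, c)).1
        rw [← h1] at h2
        exact Eqv.trans S (Eqv.symm S (hs x)) h2
      · change (e (r (e.symm (⟨s x, hb⟩, c)).1)).2 = c
        rw [hey]

end PS

end H69M
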