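import Pool.Agent.H69M.CatQ

/-!
# VTB : basic facts about the Vaught transform `S.VT U`

`S.VT U = {x | ¬ IsMeagre {g | g • x ∈ U}}`.

* `vt_inv` : `VT U` is invariant. If `y = h • x`, `{g | g • y ∈ U} = {g | g * h • x ∈ U}` is a right translate
  of `{g | g • x ∈ U}` (`meagre_mul_right`).
* `vt_meas` : for measurable `U` it is measurable: `measurable_catq` for
  `A = {(x, g) | g • x ∈ U}` (the map `(x, g) ↦ g • x` is continuous, hence measurable; put the Borel
  sigma-algebra on `S.G` by `borelize`; `X × G` has the Borel sigma-algebra as both are second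
  countable).
* `vt_of_inv` : `VT B = B` for invariant `B`: the set of `g` is `univ` (not meager, Baire space) or empty.
* `vt_mono`.
* `vt_smul` : `VT (g⁻¹ U) = VT U` : `{h | g • h • x ∈ U}` is a left translate of `{h | h • x ∈ U}`
  (`meagre_mul_left`).
* `vt_sUnion` : if `x ∈ VT (⋃₀ 𝒮)`, `𝒮` countable, then `x ∈ VT U` for some `U ∈ 𝒮` (a countable union of meager
  sets is meager).
* `vt_nonempty`, `vt_hit` : if `x ∈ VT U` there is `g` with `g • x ∈ U`; moreover (`vt_hit`) `g • x` is a point of the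
  core `{y | ∀ V ∈ 𝒰, y ∈ V → y ∈ VT V}` of `𝒰`, for `𝒰` countable. Proof: for each `V ∈ 𝒰`,
  the set `{g | g • x ∈ V ∧ g • x ∉ VT V}` is meager: if it is nonempty, then by invariance
  `x ∉ VT V`, i.e. `{g | g • x ∈ V}` is meager. So the set of `g` with `g • x` outside
  the core is meager (countable union), and `{g | g • x ∈ U}` is not meager.
* `vt_erg` : if `U`, `V` are measurable, `x ∈ VT U` and `x ∈ VT V`, there is `g ∈ S.D` such that
  `x ∈ VT {y ∈ U | g • y ∈ V}`. Proof: `{h | h • x ∈ U}` is comeager in a nonempty open set `V₁`,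
  `{h | h • x ∈ V}` is comeager in a nonempty open `V₂` (`exists_open_comeager`). As `D` is dense there
  is `g ∈ D` with `W := V₁ ∩ {h | g * h ∈ V₂}` nonempty (pick `v₁ ∈ V₁`; `{g | g * v₁ ∈ V₂}` is open
  and nonempty). `W` is open, not meager, and `W \ {h | h • x ∈ U ∧ g • h • x ∈ V}` is meager.
-/

namespace H69M

open TopologicalSpace MeasureTheory Set Topology Filter

namespace PS

variable (S : PS)

theorem vtb_eq (U : Set S.X) (x : S.X) (g : S.G) :
    {h : S.G | h • g • x ∈ U} = {h : S.G | h * g ∈ {k : S.G | k • x ∈ U}} := by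
  ext h
  simp only [Set.mem_ofPred_eq, mul_smul]

theorem vtb_eq' (U : Set S.X) (x : S.X) (g : S.G) :
    {h : S.G | g • h • x ∈ U} = {h : S.G | g * h ∈ {k : S.G | k • x ∈ U}} := by
  ext h
  simp only [Set.mem_ofPred_eq, mul_smul]

theorem vt_inv (U : Set S.X) : S.Inv (S.VT U) := by
  rintro x y ⟨h, rfl⟩ hx hy
  apply hx
  rw [vtb_eq S U x h] at hy
  exact (meagre_mul_right h).1 hy

theorem vt_iff {U : Set S.X} {x y : S.X} (h : S.E x y) : x ∈ S.VT U ↔ y ∈ S.VT U :=
  ⟨S.vt_inv U x y h, S.vt_inv U y x (E.symm S h)⟩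

theorem eqv_of_E (𝒰 : Set (Set S.X)) {x y : S.X} (h : S.E x y) : S.Eqv 𝒰 x y :=
  fun _ _ => S.vt_iff h

theorem vt_meas {U : Set S.X} (hU : MeasurableSet U) : MeasurableSet (S.VT U) := by
  borelize S.G
  have hc : Continuous fun p : S.X × S.G => p.2 • p.1 := continuous_snd.smul continuous_fst
  have hA : MeasurableSet {p : S.X × S.G | p.2 • p.1 ∈ U} := hc.measurable hU
  exact (measurable_catq hA).compl

theorem vt_of_inv {B : Set S.X} (hB : S.Inv B) : S.VT B = B := by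
  ext x
  constructor
  · intro hx
    by_contra hxB
    apply hx
    have : {g : S.G | g • x ∈ B} = ∅ := by
      ext g
      simp only [Set.mem_ofPred_eq, Set.mem_empty_iff_false, iff_false]
      intro hg
      exact hxB (hB (g • x) x ⟨g⁻¹, inv_smul_smul _ _⟩ hg)
    rw [this]
    exact IsMeagre.empty
  · intro hx hm
    have : {g : S.G | g • x ∈ B} = Set.univ := by
      ext g
      simp only [Set.mem_ofPred_eq, Set.mem_univ, iff_true]
      exact hB x (g • x) ⟨g, rfl⟩ hx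
    rw [this] at hm
    exact open_not_meagre isOpen_univ ⟨1, trivial⟩ hm

theorem vt_mono {U V : Set S.X} (h : U ⊆ V) : S.VT U ⊆ S.VT V := by
  intro x hx hm
  exact hx (hm.mono fun g hg => h hg)

theorem vt_smul (U : Set S.X) (g : S.G) : S.VT ((fun x => g • x) ⁻¹' U) = S.VT U := by
  ext x
  have h1 : {h : S.G | h • x ∈ (fun x => g • x) ⁻¹' U} =
      {h : S.G | g * h ∈ {k : S.G | k • x ∈ U}} := vtb_eq' S U x g
  show ¬ IsMeagre {h : S.G | h • x ∈ (fun x => g • x) ⁻¹' U} ↔ ¬ IsMeagre {h : S.G | h • x ∈ U}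
  rw [h1, meagre_mul_left]

theorem vt_sUnion {𝒮 : Set (Set S.X)} (h𝒮 : 𝒮.Countable) {x : S.X} (hx : x ∈ S.VT (⋃₀ 𝒮)) :
    ∃ U ∈ 𝒮, x ∈ S.VT U := by
  by_contra hne
  push Not at hne
  apply hx
  have h1 : {g : S.G | g • x ∈ ⋃₀ 𝒮} = ⋃ U ∈ 𝒮, {g : S.G | g • x ∈ U} := by
    ext g
    simp only [Set.mem_ofPred_eq, Set.mem_sUnion, Set.mem_iUnion, exists_prop]
  rw [h1]
  unfold IsMeagre
  rw [Set.compl_iUnion₂]
  refine (countable_bInter_mem h𝒮).2 fun U hU => ?_
  have := hne U hU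
  unfold VT at this
  rw [Set.mem_ofPred_eq, not_not] at this
  exact this

theorem vt_hit {𝒰 : Set (Set S.X)} (h𝒰 : 𝒰.Countable) {U : Set S.X} {x : S.X}
    (hx : x ∈ S.VT U) : ∃ y, S.E x y ∧ y ∈ U ∧ ∀ V ∈ 𝒰, y ∈ V → y ∈ S.VT V := by
  have hM : IsMeagre (⋃ V ∈ 𝒰, {g : S.G | g • x ∈ V ∧ g • x ∉ S.VT V}) := by
    unfold IsMeagre
    rw [Set.compl_iUnion₂]
    refine (countable_bInter_mem h𝒰).2 fun V _ => ?_
    show IsMeagre {g : S.G | g • x ∈ V ∧ g • x ∉ S.VT V}
    by_cases hV : x ∈ S.VT V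
    · have : {g : S.G | g • x ∈ V ∧ g • x ∉ S.VT V} = ∅ := by
        ext g
        simp only [Set.mem_ofPred_eq, Set.mem_empty_iff_false, iff_false, not_and, not_not]
        intro _
        exact S.vt_inv V x (g • x) ⟨g, rfl⟩ hV
      rw [this]
      exact IsMeagre.empty
    · unfold VT at hV
      rw [Set.mem_ofPred_eq, not_not] at hV
      exact hV.mono fun g hg => hg.1
  by_contra hne
  push Not at hne
  apply hx
  refine hM.mono fun g hg => ?_
  obtain ⟨V, hV, h1, h2⟩ := hne (g • x) ⟨g, rfl⟩ hg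
  exact Set.mem_biUnion hV ⟨h1, h2⟩

theorem vt_hit' {U : Set S.X} {x : S.X} (hx : x ∈ S.VT U) : ∃ y, S.E x y ∧ y ∈ U := by
  obtain ⟨y, h1, h2, -⟩ := S.vt_hit (𝒰 := ∅) Set.countable_empty hx
  exact ⟨y, h1, h2⟩

theorem vt_univ (x : S.X) : x ∈ S.VT Set.univ := by
  rw [S.vt_of_inv (B := Set.univ) (fun _ _ _ _ => trivial)]
  trivial

theorem vt_erg {U V : Set S.X} (hU : MeasurableSet U) (hV : MeasurableSet V) {x : S.X}
    (hxU : x ∈ S.VT U) (hxV : x ∈ S.VT V) :
    ∃ g ∈ S.D, x ∈ S.VT (U ∩ (fun y => g • y) ⁻¹' V) := by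
  borelize S.G
  have hc : Continuous fun h : S.G => h • x := continuous_id.smul continuous_const
  have hA : MeasurableSet {h : S.G | h • x ∈ U} := hc.measurable hU
  have hB : MeasurableSet {h : S.G | h • x ∈ V} := hc.measurable hV
  obtain ⟨V₁, o₁, ⟨v₁, n₁⟩, m₁⟩ := exists_open_comeager hA hxU
  obtain ⟨V₂, o₂, ⟨v₂, n₂⟩, m₂⟩ := exists_open_comeager hB hxV
  have ho : IsOpen {g : S.G | g * v₁ ∈ V₂} := o₂.preimage (continuous_id.mul continuous_const)
  obtain ⟨g, hg, hgD⟩ := S.D_dense.exists_mem_open ho ⟨v₂ * v₁⁻¹, by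
    simp only [Set.mem_ofPred_eq, inv_mul_cancel_right]
    exact n₂⟩
  refine ⟨g, hg, fun hm => ?_⟩
  have hW : IsOpen (V₁ ∩ {h : S.G | g * h ∈ V₂}) :=
    o₁.inter (o₂.preimage (continuous_const.mul continuous_id))
  apply open_not_meagre hW ⟨v₁, n₁, hgD⟩
  have m₂' : IsMeagre {h : S.G | g * h ∈ V₂ \ {h : S.G | h • x ∈ V}} :=
    (meagre_mul_left g).2 m₂
  refine ((hm.union m₁).union m₂').mono ?_
  rintro h ⟨h1, h2⟩
  by_cases a1 : h • x ∈ U
  · by_cases a2 : (g * h) • x ∈ V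
    · left; left
      refine ⟨a1, ?_⟩
      show g • h • x ∈ V
      rw [← mul_smul]
      exact a2
    · right
      exact ⟨h2, a2⟩
  · left; right
    exact ⟨h1, a1⟩

end PS

end H69M
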