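import Pool.Agent.H69M.Alg
import Pool.Agent.H69M.VTB

/-!
# GoodEx : every countable family of Borel sets is contained in a good algebra

`sys_of_polish`: if `𝒰` is a base of the Polish topology `t`, take a complete metric for `t`
(`upgradeIsCompletelyMetrizable`, with `t` as the local instance) and `Sm n = {V | ∀ a ∈ V, ∀ b ∈ V, dist a b ≤ 2 ^ (-n)}`.
`fine`: `IsTopologicalBasis.exists_subset_of_mem_open` for `U ∩ ball y (2 ^ (-n) / 2)`. `complete`: the sequence
is Cauchy, take the limit.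

`good_exists`: apply `exists_alg` to `𝒮 ∪ countableBasis` with operations `f 0 = S.VT` and `f (n + 1) =` preimage under
`x ↦ d n • x`, where `d` enumerates the countable group `S.D` (nonempty, countable). Measurability of `VT`: `vt_meas`.
`base`: the members of a base of the given topology are `t`-open as `t ≤ tX`, so use that `𝒰` is a base of
`t`.

`good_sep`: distinct points are separated by a set of `𝒰` (`base`, Hausdorff).
`good_open`: an open set is a countable union of members of `𝒰`.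
-/

namespace H69M

open TopologicalSpace MeasureTheory Set Topology Filter

theorem sys_of_polish {X : Type} (t : TopologicalSpace X) (hp : @PolishSpace X t)
    {𝒰 : Set (Set X)} (hb : @IsTopologicalBasis X t 𝒰) : ∃ Sm, Sys 𝒰 Sm := by
  let _ := t
  have := hp
  let _ := upgradeIsCompletelyMetrizable X
  refine ⟨fun n => {V | ∀ a ∈ V, ∀ b ∈ V, dist a b ≤ (1 / 2 : ℝ) ^ n}, ?_, ?_, ?_, ?_⟩
  · intro n U hU y hy
    have ho : IsOpen (U ∩ Metric.ball y ((1 / 2 : ℝ) ^ n / 2)) :=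
      (hb.isOpen hU).inter Metric.isOpen_ball
    obtain ⟨V, hV, hyV, hsub⟩ := hb.exists_subset_of_mem_open
      (show y ∈ U ∩ Metric.ball y ((1 / 2 : ℝ) ^ n / 2) from
        ⟨hy, Metric.mem_ball_self (by positivity)⟩) ho
    refine ⟨V, hV, hyV, fun z hz => (hsub hz).1, fun a ha b hb' => ?_⟩
    have h1 : dist a y < (1 / 2 : ℝ) ^ n / 2 := (hsub ha).2
    have h2 : dist b y < (1 / 2 : ℝ) ^ n / 2 := (hsub hb').2
    have h3 := dist_triangle_right a b y
    linarith
  · intro n U V hUV hV a ha b hb'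
    exact hV a (hUV ha) b (hUV hb')
  · intro n V hV a ha b hb'
    refine (hV a ha b hb').trans ?_
    exact pow_le_pow_of_le_one (by norm_num) (by norm_num) (Nat.le_succ n)
  · intro y hy
    have hC : CauchySeq y := by
      rw [Metric.cauchySeq_iff']
      intro ε hε
      obtain ⟨n, hn⟩ := exists_pow_lt_of_lt_one hε (show (1 / 2 : ℝ) < 1 by norm_num)
      obtain ⟨V, hV, hev⟩ := hy n
      obtain ⟨N, hN⟩ := eventually_atTop.1 hev
      exact ⟨N, fun m hm => (hV _ (hN m hm) _ (hN N le_rfl)).trans_lt hn⟩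
    obtain ⟨x, hx⟩ := cauchySeq_tendsto_of_complete hC
    exact ⟨x, fun W hW hxW => hx.eventually ((hb.isOpen hW).mem_nhds hxW)⟩

namespace PS

variable (S : PS)

theorem good_exists {𝒮 : Set (Set S.X)} (hc : 𝒮.Countable) (hm : ∀ U ∈ 𝒮, MeasurableSet U) :
    ∃ 𝒰, S.Good 𝒰 ∧ 𝒮 ⊆ 𝒰 := by
  obtain ⟨d, hd⟩ := S.D_countable.exists_eq_range ⟨1, S.D.one_mem⟩
  obtain ⟨𝒰, t, h1, h2, h3, h4, h5, h6, h7, h8, h9, h10⟩ :=
    exists_alg (X := S.X) (fun n U => Nat.casesOn n (S.VT U) fun n => (fun x => d n • x) ⁻¹' U)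
      (fun n U hU => by
        cases n with
        | zero => exact S.vt_meas hU
        | succ n => exact (continuous_const_smul (d n)).measurable hU) hc hm
  refine ⟨𝒰, ⟨h2, h3, h4, h5, h6, fun U hU => h7 0 U hU, fun U hU g hg => ?_, ?_,
    sys_of_polish t h9 h10⟩, h1⟩
  · have hg' : g ∈ (S.D : Set S.G) := hg
    rw [hd] at hg'
    obtain ⟨n, rfl⟩ := hg'
    exact h7 (n + 1) U hU
  · intro O hO x hx
    obtain ⟨U, hU, hxU, hUO⟩ := h10.exists_subset_of_mem_open hx (h8 O hO)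
    exact ⟨U, hU, hxU, hUO⟩

theorem good_sep {𝒰 : Set (Set S.X)} (hg : S.Good 𝒰) {x y : S.X} (h : x ≠ y) :
    ∃ U ∈ 𝒰, x ∈ U ∧ y ∉ U := by
  obtain ⟨u, v, hu, _, hxu, hyv, hd⟩ := t2_separation h
  obtain ⟨U, hU, hxU, hUu⟩ := hg.base u hu x hxu
  exact ⟨U, hU, hxU, fun hy => Set.disjoint_left.1 hd (hUu hy) hyv⟩

theorem good_open {𝒰 : Set (Set S.X)} (hg : S.Good 𝒰) {O : Set S.X} (hO : IsOpen O) :
    O = ⋃ U ∈ {U ∈ 𝒰 | U ⊆ O}, U := by
  apply Set.Subset.antisymm
  · intro x hx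
    obtain ⟨U, hU, hxU, hUO⟩ := hg.base O hO x hx
    exact Set.mem_biUnion (show U ∈ {U ∈ 𝒰 | U ⊆ O} from ⟨hU, hUO⟩) hxU
  · exact Set.iUnion₂_subset fun U hU => hU.2

/-- an invariant member of a good algebra is determined by the types -/
theorem mem_iff_of_eqv {𝒰 : Set (Set S.X)} {B : Set S.X} (hB : B ∈ 𝒰) (hi : S.Inv B) {x y : S.X}
    (h : S.Eqv 𝒰 x y) : x ∈ B ↔ y ∈ B := by
  have := h B hB
  rwa [S.vt_of_inv hi] at this

end PS

end H69M
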