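import Pool.Agent.H69M.Strong

/-!
# NSch : Schur's lemma; the commutant of an irreducible representation
-/

namespace H69M

open TopologicalSpace MeasureTheory Set Topology Filter
open MBS DX
open scoped InnerProductSpace

noncomputable section

variable {A : Type} [NonUnitalCStarAlgebra A]

section X

variable {H K : Type*} [NormedAddCommGroup H] [InnerProductSpace ℂ H] [CompleteSpace H]
  [NormedAddCommGroup K] [InnerProductSpace ℂ K] [CompleteSpace K]

private def IrrX (π : A →⋆ₙₐ[ℂ] (H →L[ℂ] H)) : Prop :=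
  ∀ S : Submodule ℂ H, IsClosed (S : Set H) → (∀ a, ∀ v ∈ S, π a v ∈ S) → S = ⊥ ∨ S = ⊤



/-- an irreducible representation has no zero divisors in its commutant -/
private theorem xcommutant_domain {π : A →⋆ₙₐ[ℂ] (H →L[ℂ] H)} (hπ : IrrX π) (F G : H →L[ℂ] H)
    (hG : ∀ a, Commute (π a) G) (hGF : G * F = 0) : G = 0 ∨ F = 0 := by
  rcases hπ (LinearMap.ker (G : H →ₗ[ℂ] H)) (ContinuousLinearMap.isClosed_ker G) (by
    intro a v hv
    have hv' : G v = 0 := hv
    show G (π a v) = 0
    have : (π a) (G v) = G (π a v) := congrArg (fun S : H →L[ℂ] H => S v) (hG a).eq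
    rw [← this, hv', map_zero]) with h | h
  · right
    ext x
    have h1 : G (F x) = 0 := by
      have := congrArg (fun S : H →L[ℂ] H => S x) hGF
      simpa using this
    have h2 : F x ∈ LinearMap.ker (G : H →ₗ[ℂ] H) := h1
    rw [h] at h2
    simpa using h2
  · left
    ext x
    have h2 : x ∈ LinearMap.ker (G : H →ₗ[ℂ] H) := by rw [h]; trivial
    exact h2

private theorem xschur_sa {π : A →⋆ₙₐ[ℂ] (H →L[ℂ] H)} (hπ : IrrX π) (T : H →L[ℂ] H)
    (hTs : IsSelfAdjoint T) (hT : ∀ a, Commute (π a) T) : ∃ c : ℝ, ∀ x, T x = (c : ℂ) • x := by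
  rcases subsingleton_or_nontrivial H with hH | hH
  · exact ⟨0, fun x => Subsingleton.elim _ _⟩
  by_cases h : ∃ l ∈ spectrum ℝ T, ∃ m ∈ spectrum ℝ T, l < m
  · exfalso
    obtain ⟨l, hl, m, hm, hlm⟩ := h
    set f : ℝ → ℝ := fun x => max 0 ((l + m) / 2 - x) with hf
    set g : ℝ → ℝ := fun x => max 0 (x - (l + m) / 2) with hg
    have hfc : Continuous f := by fun_prop
    have hgc : Continuous g := by fun_prop
    have hgf : cfc g T * cfc f T = 0 := by
      rw [← cfc_mul g f T hgc.continuousOn hfc.continuousOn]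
      have : (fun x => g x * f x) = fun _ => (0 : ℝ) := by
        funext x
        rcases le_total x ((l + m) / 2) with h | h
        · have : g x = 0 := max_eq_left (by linarith)
          rw [this, zero_mul]
        · have : f x = 0 := max_eq_left (by linarith)
          rw [this, mul_zero]
      rw [this]
      exact cfc_const_zero ℝ T
    have nz : ∀ (k : ℝ → ℝ) (hk : Continuous k) (t : ℝ), t ∈ spectrum ℝ T → k t ≠ 0 →
        cfc k T ≠ 0 := by
      intro k hk t ht hkt h0
      have h1 : k t ∈ spectrum ℝ (cfc k T) := by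
        rw [cfc_map_spectrum k T hTs hk.continuousOn]
        exact ⟨t, ht, rfl⟩
      rw [h0, spectrum.zero_eq] at h1
      exact hkt h1
    have hf0 : cfc f T ≠ 0 := nz f hfc l hl (by
      have : 0 < f l := lt_max_of_lt_right (by linarith)
      exact this.ne')
    have hg0 : cfc g T ≠ 0 := nz g hgc m hm (by
      have : 0 < g m := lt_max_of_lt_right (by linarith)
      exact this.ne')
    rcases xcommutant_domain hπ (cfc f T) (cfc g T) (fun a => ((hT a).symm.cfc_real g).symm) hgf
      with h | h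
    · exact hg0 h
    · exact hf0 h
  · push Not at h
    obtain ⟨l, hl⟩ : (spectrum ℝ T).Nonempty :=
      ContinuousFunctionalCalculus.spectrum_nonempty T hTs
    have hall : ∀ m ∈ spectrum ℝ T, m = l := fun m hm => le_antisymm (h l hl m hm) (h m hm l hl)
    have h1 : T = algebraMap ℝ (H →L[ℂ] H) l := by
      calc T = cfc (fun x : ℝ => x) T := (cfc_id' ℝ T hTs).symm
        _ = cfc (fun _ : ℝ => l) T := cfc_congr fun m hm => hall m hm
        _ = algebraMap ℝ (H →L[ℂ] H) l := cfc_const l T hTs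
    refine ⟨l, fun x => ?_⟩
    conv_lhs => rw [h1, Algebra.algebraMap_eq_smul_one]
    simp

private theorem xschur {π : A →⋆ₙₐ[ℂ] (H →L[ℂ] H)} (hπ : IrrX π) (T : H →L[ℂ] H)
    (hT : ∀ a x, T (π a x) = π a (T x)) : ∃ c : ℂ, ∀ x, T x = c • x := by
  have hc : ∀ a, Commute (π a) T := by
    intro a
    ext x
    exact (hT a x).symm
  have hcs : ∀ a, Commute (π a) (star T) := by
    intro a
    have := (hc (star a)).star_star
    rwa [map_star, star_star] at this
  have hre : ∀ a, Commute (π a) ((realPart T : H →L[ℂ] H)) := by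
    intro a
    rw [realPart_apply_coe]
    exact ((hc a).add_right (hcs a)).smul_right _
  have him : ∀ a, Commute (π a) ((imaginaryPart T : H →L[ℂ] H)) := by
    intro a
    rw [imaginaryPart_apply_coe]
    exact (((hc a).sub_right (hcs a)).smul_right _).smul_right _
  obtain ⟨c, hc1⟩ := xschur_sa hπ _ (realPart T).2 hre
  obtain ⟨d, hd1⟩ := xschur_sa hπ _ (imaginaryPart T).2 him
  refine ⟨(c : ℂ) + Complex.I * d, fun x => ?_⟩
  conv_lhs => rw [← realPart_add_I_smul_imaginaryPart T]
  simp only [_root_.add_apply, _root_.smul_apply, hc1, hd1, smul_smul, add_smul]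

private theorem xschur_equiv {π : A →⋆ₙₐ[ℂ] (H →L[ℂ] H)} (hπ : IrrX π)
    {ρ : A →⋆ₙₐ[ℂ] (K →L[ℂ] K)} (hρ : IrrX ρ) (T : H →L[ℂ] K) (hT0 : T ≠ 0)
    (hT : ∀ a x, T (π a x) = ρ a (T x)) :
    ∃ U : H ≃ₗᵢ[ℂ] K, ∀ a x, U (π a x) = ρ a (U x) := by
  -- the adjoint intertwines the other way
  have hadj : ∀ a y, T.adjoint (ρ a y) = π a (T.adjoint y) := by
    intro a y
    refine ext_inner_left ℂ fun x => ?_
    rw [ContinuousLinearMap.adjoint_inner_right]
    have h1 : ρ a = ContinuousLinearMap.adjoint (ρ (star a)) := by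
      rw [map_star, ContinuousLinearMap.star_eq_adjoint, ContinuousLinearMap.adjoint_adjoint]
    have h2 : π a = ContinuousLinearMap.adjoint (π (star a)) := by
      rw [map_star, ContinuousLinearMap.star_eq_adjoint, ContinuousLinearMap.adjoint_adjoint]
    rw [h1, h2, ContinuousLinearMap.adjoint_inner_right, ContinuousLinearMap.adjoint_inner_right,
      ContinuousLinearMap.adjoint_inner_right, hT]
  obtain ⟨c, hc⟩ := xschur hπ (T.adjoint ∘L T) (by
    intro a x
    simp only [ContinuousLinearMap.comp_apply]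
    rw [hT, hadj])
  have hn : ∀ x, ((‖T x‖ ^ 2 : ℝ) : ℂ) = c * ((‖x‖ ^ 2 : ℝ) : ℂ) := by
    intro x
    have h1 : ⟪x, (T.adjoint ∘L T) x⟫_ℂ = c * ⟪x, x⟫_ℂ := by rw [hc, inner_smul_right]
    rw [ContinuousLinearMap.comp_apply, ContinuousLinearMap.adjoint_inner_right,
      inner_self_eq_norm_sq_to_K, inner_self_eq_norm_sq_to_K] at h1
    push_cast
    exact h1
  obtain ⟨x0, hx0⟩ : ∃ x, T x ≠ 0 := by
    by_contra hcon
    push Not at hcon
    exact hT0 (ContinuousLinearMap.ext fun x => by rw [hcon]; rfl)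
  have hx0' : x0 ≠ 0 := fun h => hx0 (by rw [h, map_zero])
  set r : ℝ := ‖T x0‖ ^ 2 / ‖x0‖ ^ 2 with hr
  have hr0 : 0 < r := by
    have h1 := norm_pos_iff.2 hx0
    have h2 := norm_pos_iff.2 hx0'
    positivity
  have hcr : c = (r : ℂ) := by
    have h1 := hn x0
    have h2 : ((‖x0‖ ^ 2 : ℝ) : ℂ) ≠ 0 := by
      have := norm_pos_iff.2 hx0'
      exact_mod_cast (by positivity : (‖x0‖ ^ 2 : ℝ) ≠ 0)
    rw [hr, Complex.ofReal_div, h1, mul_div_cancel_right₀ _ h2]
  have hn2 : ∀ x, ‖T x‖ = Real.sqrt r * ‖x‖ := by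
    intro x
    have h1 := hn x
    rw [hcr] at h1
    have h2 : ‖T x‖ ^ 2 = r * ‖x‖ ^ 2 := by exact_mod_cast h1
    have h3 : ‖T x‖ ^ 2 = (Real.sqrt r * ‖x‖) ^ 2 := by
      rw [mul_pow, Real.sq_sqrt hr0.le, h2]
    exact (sq_eq_sq₀ (norm_nonneg _) (by positivity)).1 h3
  have hs0 : 0 < Real.sqrt r := Real.sqrt_pos.2 hr0
  let f : H →ₗᵢ[ℂ] K :=
    { toLinearMap := (((Real.sqrt r)⁻¹ : ℝ) : ℂ) • (T : H →ₗ[ℂ] K)
      norm_map' := fun x => by
        show ‖(((Real.sqrt r)⁻¹ : ℝ) : ℂ) • T x‖ = ‖x‖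
        rw [norm_smul, Complex.norm_real, Real.norm_eq_abs, abs_of_pos (inv_pos.2 hs0), hn2]
        field_simp }
  have hf : ∀ x, f x = (((Real.sqrt r)⁻¹ : ℝ) : ℂ) • T x := fun x => rfl
  have hfint : ∀ a x, f (π a x) = ρ a (f x) := by
    intro a x
    rw [hf, hf, hT, map_smul]
  have hcl : IsClosed ((LinearMap.range f.toLinearMap : Submodule ℂ K) : Set K) := by
    have := f.isometry.isClosedEmbedding.isClosed_range
    exact this
  have hsurj : Function.Surjective f := by
    rcases hρ (LinearMap.range f.toLinearMap) hcl (by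
      rintro a _ ⟨x, rfl⟩
      exact ⟨π a x, hfint a x⟩) with h | h
    · exfalso
      have h1 : f x0 ∈ (LinearMap.range f.toLinearMap : Submodule ℂ K) := ⟨x0, rfl⟩
      rw [h, Submodule.mem_bot] at h1
      have h2 : ‖f x0‖ = ‖x0‖ := f.norm_map x0
      rw [h1, norm_zero] at h2
      exact hx0' (norm_eq_zero.1 h2.symm)
    · intro y
      have : y ∈ (LinearMap.range f.toLinearMap : Submodule ℂ K) := by rw [h]; trivial
      obtain ⟨x, hx⟩ := this
      exact ⟨x, hx⟩
  refine ⟨LinearIsometryEquiv.ofSurjective f hsurj, fun a x => ?_⟩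
  exact hfint a x


end X

theorem nschur {n : Dim} {π : NRepN A n} (hπ : NIsIrred n π) (T : HSp n →L[ℂ] HSp n)
    (hT : ∀ a, T ∘L π a = π a ∘L T) : ∃ c : ℂ, ∀ v, T v = c • v :=
  xschur (π := π) hπ.2 T fun a x => congrArg (fun S : HSp n →L[ℂ] HSp n => S x) (hT a)

theorem irred_iff {n : Dim} (π : NRepN A n) :
    NIsIrred n π ↔ (∃ a, π a ≠ 0) ∧
      ∀ T : HSp n →L[ℂ] HSp n, (∀ a, T ∘L π a = π a ∘L T) → ∃ c : ℂ, ∀ v, T v = c • v := by
  constructor
  · intro h
    exact ⟨h.1, fun T hT => nschur h T hT⟩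
  · rintro ⟨h0, h⟩
    refine ⟨h0, fun K hK hinv => ?_⟩
    haveI : CompleteSpace K := hK.completeSpace_coe
    haveI : K.HasOrthogonalProjection := inferInstance
    have hperp : ∀ a, ∀ v ∈ Kᗮ, π a v ∈ Kᗮ := by
      intro a v hv
      rw [Submodule.mem_orthogonal]
      intro u hu
      have h1 : π a = ContinuousLinearMap.adjoint (π (star a)) := by
        rw [map_star, ContinuousLinearMap.star_eq_adjoint, ContinuousLinearMap.adjoint_adjoint]
      rw [h1, ContinuousLinearMap.adjoint_inner_right]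
      exact (Submodule.mem_orthogonal K v).1 hv _ (hinv _ _ hu)
    obtain ⟨c, hc⟩ := h K.starProjection (by
      intro a
      refine ContinuousLinearMap.ext fun v => ?_
      show K.starProjection (π a v) = π a (K.starProjection v)
      have hd : π a v = π a (K.starProjection v) + π a (v - K.starProjection v) := by
        rw [← map_add]
        congr 1
        abel
      have e1 : K.starProjection (π a (K.starProjection v)) = π a (K.starProjection v) :=
        Submodule.starProjection_eq_self_iff.2 (hinv a _ (Submodule.starProjection_apply_mem K v))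
      have e2 : K.starProjection (π a (v - K.starProjection v)) = 0 := by
        rw [Submodule.starProjection_apply_eq_zero_iff]
        exact hperp a _ (Submodule.sub_starProjection_mem_orthogonal v)
      conv_lhs => rw [hd, map_add, e1, e2, add_zero])
    by_cases hb : K = ⊥
    · exact Or.inl hb
    · right
      obtain ⟨v, hv, hv0⟩ := (Submodule.ne_bot_iff K).1 hb
      have h1 : K.starProjection v = v := Submodule.starProjection_eq_self_iff.2 hv
      have h2 : c = 1 := by
        have h3 := hc v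
        rw [h1] at h3
        have h4 : (1 - c) • v = 0 := by
          rw [sub_smul, one_smul, ← h3, sub_self]
        rcases smul_eq_zero.1 h4 with h5 | h5
        · exact (sub_eq_zero.1 h5).symm
        · exact absurd h5 hv0
      rw [eq_top_iff]
      intro w _
      have h3 := hc w
      rw [h2, one_smul] at h3
      exact Submodule.starProjection_eq_self_iff.1 h3

theorem nschur_equiv {n : Dim} {π ρ : NRepN A n} (hπ : NIsIrred n π) (hρ : NIsIrred n ρ)
    (T : HSp n →L[ℂ] HSp n) (hT0 : T ≠ 0) (hT : ∀ a, T ∘L π a = ρ a ∘L T) :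
    ∃ U : HSp n ≃ₗᵢ[ℂ] HSp n, ∀ (a : A) (v : HSp n), U (π a v) = ρ a (U v) :=
  xschur_equiv (π := π) hπ.2 (ρ := ρ) hρ.2 T hT0
    fun a x => congrArg (fun S : HSp n →L[ℂ] HSp n => S x) (hT a)

end

end H69M
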