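import Pool.Agent.H69M.RepPol
import Pool.Agent.H69M.NSch
import Pool.Agent.H69M.Intw

/-!
# IrrGd : the space of irreducible representations on `HSp n` is Polish

`red_closed`: `{π | ∃ T, IsRed k π T}` is closed in `RepT A n`. Let `π` be in the closure. There is an ultrafilter `l` on
`RepT A n` containing the set and converging to `π` (`mem_closure_iff_ultrafilter`). Transport it to the subtype of pairs, or:
choose `T ρ` for each `ρ` in the set and `T ρ = 0` outside; apply `intw` with `ι` the subtype of the set (the ultrafilter can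
be pulled back to it: `Ultrafilter.comap`, or `Ultrafilter.ofComapInfPrincipal`), `p = q =` the inclusion. The third
condition of `IsRed` holds for infinitely many ... : for `l`-almost all `ρ` one of the finitely many conditions (pair
`(i, j)` and one of the two alternatives) holds, hence (ultrafilter) a fixed one holds for `l`-almost all
`ρ`; it passes to the limit (`ge_of_tendsto`, closed conditions).

`irr_iff`: `π ∈ RepT` is irreducible iff `(∃ a v w, ⟪v, π.op a w⟫ ≠ 0)` and `∀ k, ¬ ∃ T, IsRed k π T`, by `irred_iff`: a non scalar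
`T` in the commutant may be divided by its norm, and has a nonzero matrix coefficient off the diagonal or two different
diagonal coefficients (if `⟪bvec i, T bvec j⟫ = 0` for `i ≠ j` and all diagonal coefficients are equal to `c` then
`T = c • 1`, because the `bvec` which are not zero form the standard orthonormal basis of `l²(Idx n)`); take `k` large.
Conversely a scalar `T` satisfies neither condition of `IsRed`: `⟪bvec i, bvec j⟫ = 0` for `i ≠ j`, and `= 1` for `i = j` if
`bvec i ≠ 0`.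

`gdelta_irr`: so the range of `toRep` is the intersection of an open set and countably many open sets.
`polish_NIrrN`: `NIrrN A n` is homeomorphic to this range (`isEmbedding_toRep`), Polish by `polish_gdelta`.
-/

namespace H69M

open TopologicalSpace MeasureTheory Set Topology Filter
open MBS DX
open scoped InnerProductSpace

noncomputable section

variable {A : Type} [NonUnitalCStarAlgebra A] {n : Dim}

private theorem inner_δ {G : Type} (x : G) (v : L2 G) : ⟪(δ x : L2 G), v⟫_ℂ = v x := by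
  classical
  unfold δ
  rw [lp.inner_single_left]
  simp

open Classical in
private theorem δ_ap {G : Type} (x y : G) :
    (δ x : L2 G) y = if y = x then (1 : ℂ) else 0 := by
  unfold δ
  rw [lp.single_apply, Pi.single_apply]

private theorem δ_inj {G : Type} {x y : G} (h : (δ x : L2 G) = δ y) : x = y := by
  classical
  by_contra hne
  have h1 := congrArg (fun v : L2 G => (v x : ℂ)) h
  simp only [δ_ap] at h1
  simp [hne] at h1

private theorem bvec_cases (n : Dim) (i : ℕ) : bvec n i = 0 ∨ ∃ x : Idx n, bvec n i = δ x := by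
  cases n with
  | none => exact Or.inr ⟨(i : ℕ), rfl⟩
  | some m =>
    by_cases h : i < m + 1
    · right
      refine ⟨(⟨i, h⟩ : Fin (m + 1)), ?_⟩
      show (if h : i < m + 1 then δ (G := Idx (some m)) (⟨i, h⟩ : Fin (m + 1)) else 0) = _
      rw [dif_pos h]
    · left
      show (if h : i < m + 1 then δ (G := Idx (some m)) (⟨i, h⟩ : Fin (m + 1)) else 0) = _
      rw [dif_neg h]

private theorem exists_bvec (n : Dim) (x : Idx n) : ∃ i, bvec n i = δ x := by
  cases n with
  | none => exact ⟨x, rfl⟩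
  | some m =>
    refine ⟨(show Fin (m + 1) from x).1, ?_⟩
    show (if h : (show Fin (m + 1) from x).1 < m + 1 then
      δ (G := Idx (some m)) (⟨(show Fin (m + 1) from x).1, h⟩ : Fin (m + 1)) else 0) = _
    rw [dif_pos (show Fin (m + 1) from x).2]
    rfl

private theorem bvec_inj (n : Dim) {i j : ℕ} (h0 : bvec n i ≠ 0) (h : bvec n i = bvec n j) :
    i = j := by
  cases n with
  | none => exact δ_inj (G := ℕ) h
  | some m =>
    by_cases hi : i < m + 1
    · by_cases hj : j < m + 1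
      · have h1 : (δ (G := Idx (some m)) (⟨i, hi⟩ : Fin (m + 1)) : HSp (some m)) =
            δ (G := Idx (some m)) (⟨j, hj⟩ : Fin (m + 1)) := by
          have h2 : bvec (some m) i = δ (G := Idx (some m)) (⟨i, hi⟩ : Fin (m + 1)) := by
            show (if h : i < m + 1 then δ (G := Idx (some m)) (⟨i, h⟩ : Fin (m + 1)) else 0) = _
            rw [dif_pos hi]
          have h3 : bvec (some m) j = δ (G := Idx (some m)) (⟨j, hj⟩ : Fin (m + 1)) := by
            show (if h : j < m + 1 then δ (G := Idx (some m)) (⟨j, h⟩ : Fin (m + 1)) else 0) = _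
            rw [dif_pos hj]
          rw [← h2, ← h3, h]
        have h4 := δ_inj h1
        exact congrArg (fun t : Fin (m + 1) => t.1) h4
      · exfalso
        apply h0
        rw [h]
        show (if h : j < m + 1 then δ (G := Idx (some m)) (⟨j, h⟩ : Fin (m + 1)) else 0) = _
        rw [dif_neg hj]
    · exfalso
      apply h0
      show (if h : i < m + 1 then δ (G := Idx (some m)) (⟨i, h⟩ : Fin (m + 1)) else 0) = _
      rw [dif_neg hi]

private theorem inner_bvec_ne (n : Dim) {i j : ℕ} (h : i ≠ j) :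
    ⟪bvec n i, bvec n j⟫_ℂ = 0 := by
  classical
  rcases bvec_cases n i with h0 | ⟨x, hx⟩
  · rw [h0, inner_zero_left]
  · rcases bvec_cases n j with h1 | ⟨y, hy⟩
    · rw [h1, inner_zero_right]
    · rw [hx, hy, inner_δ, δ_ap]
      have hxy : x ≠ y := by
        rintro rfl
        apply h
        refine bvec_inj n ?_ (hx.trans hy.symm)
        intro h2
        have h3 := congrArg (fun v : HSp n => (v x : ℂ)) (hx.symm.trans h2)
        simp only [δ_ap] at h3
        simp at h3
      rw [if_neg hxy]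

private theorem inner_bvec_self (n : Dim) {i : ℕ} (h : bvec n i ≠ 0) :
    ⟪bvec n i, bvec n i⟫_ℂ = 1 := by
  classical
  rcases bvec_cases n i with h0 | ⟨x, hx⟩
  · exact absurd h0 h
  · rw [hx, inner_δ, δ_ap, if_pos rfl]

theorem red_closed (k : ℕ) : IsClosed {π : RepT A n | ∃ T, IsRed k π T} := by
  classical
  rw [isClosed_iff_ultrafilter]
  intro π u hu hs
  have hex : ∀ ρ : RepT A n, ∃ T : HSp n →L[ℂ] HSp n, ‖T‖ ≤ 1 ∧
      (∀ a, T ∘L ρ.op a = ρ.op a ∘L T) ∧ ((∃ T, IsRed k ρ T) → IsRed k ρ T) := by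
    intro ρ
    by_cases h : ∃ T, IsRed k ρ T
    · obtain ⟨T, hT⟩ := h
      exact ⟨T, hT.1, hT.2.1, fun _ => hT⟩
    · exact ⟨0, by simp, fun a => by simp, fun h' => absurd h' h⟩
  choose T hT1 hT2 hT3 using hex
  obtain ⟨T', h1, h2, h3⟩ := intw u id id π π hu hu T hT1 hT2
  refine ⟨T', h1, h2, ?_⟩
  by_contra hcon
  push Not at hcon
  have hk0 : (0 : ℝ) < 1 / (k + 1) := by positivity
  have key : ∀ i ∈ Finset.range (k + 1), ∀ j ∈ Finset.range (k + 1), ∀ᶠ ρ in (u : Filter (RepT A n)),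
      ¬ ((i ≠ j ∧ (1 : ℝ) / (k + 1) ≤ ‖⟪bvec n i, T ρ (bvec n j)⟫_ℂ‖) ∨
      (bvec n i ≠ 0 ∧ bvec n j ≠ 0 ∧
        (1 : ℝ) / (k + 1) ≤
          ‖⟪bvec n i, T ρ (bvec n i)⟫_ℂ - ⟪bvec n j, T ρ (bvec n j)⟫_ℂ‖)) := by
    intro i hi j hj
    obtain ⟨c1, c2⟩ := hcon i (by have := Finset.mem_range.1 hi; omega) j
      (by have := Finset.mem_range.1 hj; omega)
    have e1 : ∀ᶠ ρ in (u : Filter (RepT A n)),
        ¬ (i ≠ j ∧ (1 : ℝ) / (k + 1) ≤ ‖⟪bvec n i, T ρ (bvec n j)⟫_ℂ‖) := by
      by_cases hij : i = j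
      · exact Eventually.of_forall fun ρ h => h.1 hij
      · exact ((h3 (bvec n i) (bvec n j)).norm.eventually_lt_const (c1 hij)).mono
          fun ρ hρ h => absurd h.2 (not_le.2 hρ)
    have e2 : ∀ᶠ ρ in (u : Filter (RepT A n)), ¬ (bvec n i ≠ 0 ∧ bvec n j ≠ 0 ∧
        (1 : ℝ) / (k + 1) ≤
          ‖⟪bvec n i, T ρ (bvec n i)⟫_ℂ - ⟪bvec n j, T ρ (bvec n j)⟫_ℂ‖) := by
      by_cases hi0 : bvec n i = 0
      · exact Eventually.of_forall fun ρ h => h.1 hi0
      · by_cases hj0 : bvec n j = 0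
        · exact Eventually.of_forall fun ρ h => h.2.1 hj0
        · exact (((h3 (bvec n i) (bvec n i)).sub (h3 (bvec n j) (bvec n j))).norm.eventually_lt_const
            (c2 hi0 hj0)).mono fun ρ hρ h => absurd h.2.2 (not_le.2 hρ)
    filter_upwards [e1, e2] with ρ h4 h5 h6
    exact h6.elim h4 h5
  have key2 : ∀ᶠ ρ in (u : Filter (RepT A n)), ∀ i ∈ Finset.range (k + 1),
      ∀ j ∈ Finset.range (k + 1),
      ¬ ((i ≠ j ∧ (1 : ℝ) / (k + 1) ≤ ‖⟪bvec n i, T ρ (bvec n j)⟫_ℂ‖) ∨
      (bvec n i ≠ 0 ∧ bvec n j ≠ 0 ∧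
        (1 : ℝ) / (k + 1) ≤
          ‖⟪bvec n i, T ρ (bvec n i)⟫_ℂ - ⟪bvec n j, T ρ (bvec n j)⟫_ℂ‖)) := by
    rw [Filter.eventually_all_finset]
    intro i hi
    rw [Filter.eventually_all_finset]
    exact key i hi
  have hs' : ∀ᶠ ρ in (u : Filter (RepT A n)), ∃ T, IsRed k ρ T := hs
  obtain ⟨ρ, h4, h5⟩ := (key2.and hs').exists
  obtain ⟨-, -, i, hi, j, hj, h6⟩ := hT3 ρ h5
  exact h4 i (Finset.mem_range.2 (by omega)) j (Finset.mem_range.2 (by omega)) h6

private theorem scalar_of {T : HSp n →L[ℂ] HSp n}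
    (h1 : ∀ i j, i ≠ j → ⟪bvec n i, T (bvec n j)⟫_ℂ = 0)
    (h2 : ∀ i j, bvec n i ≠ 0 → bvec n j ≠ 0 →
      ⟪bvec n i, T (bvec n i)⟫_ℂ = ⟪bvec n j, T (bvec n j)⟫_ℂ) :
    ∃ c : ℂ, ∀ v, T v = c • v := by
  classical
  choose num hnum using exists_bvec n
  have hne : ∀ x : Idx n, (δ x : HSp n) ≠ 0 := by
    intro x h
    have h3 := congrArg (fun v : HSp n => (v x : ℂ)) h
    simp only [δ_ap] at h3
    simp at h3
  have hoff : ∀ x y : Idx n, x ≠ y → ⟪(δ x : HSp n), T (δ y)⟫_ℂ = 0 := by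
    intro x y hxy
    rw [← hnum x, ← hnum y]
    apply h1
    intro h3
    apply hxy
    apply δ_inj
    rw [← hnum x, ← hnum y, h3]
  have hdiag : ∀ x y : Idx n, ⟪(δ x : HSp n), T (δ x)⟫_ℂ = ⟪(δ y : HSp n), T (δ y)⟫_ℂ := by
    intro x y
    rw [← hnum x, ← hnum y]
    apply h2
    · rw [hnum]; exact hne x
    · rw [hnum]; exact hne y
  refine ⟨⟪(δ (idx0 n) : HSp n), T (δ (idx0 n))⟫_ℂ, fun v => ?_⟩
  set c := ⟪(δ (idx0 n) : HSp n), T (δ (idx0 n))⟫_ℂ with hc
  have hadj : ∀ x : Idx n, ContinuousLinearMap.adjoint T (δ x) =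
      (starRingEnd ℂ c) • (δ x : HSp n) := by
    intro x
    ext y
    rw [← inner_δ y, ContinuousLinearMap.adjoint_inner_right, ← inner_δ y, inner_smul_right,
      inner_δ, δ_ap]
    by_cases hxy : y = x
    · subst hxy
      rw [if_pos rfl, mul_one, hc, hdiag (idx0 n) y, inner_conj_symm]
    · rw [if_neg hxy, mul_zero, ← inner_conj_symm, hoff x y (Ne.symm hxy), map_zero]
  ext x
  rw [← inner_δ x, ← inner_δ x, inner_smul_right, ← ContinuousLinearMap.adjoint_inner_left, hadj,
    inner_smul_left]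
  simp

theorem irr_iff (π : RepT A n) : π ∈ range (toRep : NIrrN A n → RepT A n) ↔
    (∃ a v w, ⟪v, π.op a w⟫_ℂ ≠ 0) ∧ ∀ k, ¬ ∃ T, IsRed k π T := by
  have h0 : π ∈ range (toRep : NIrrN A n → RepT A n) ↔
      NIsIrred n (show NRepN A n from π) := by
    constructor
    · rintro ⟨σ, rfl⟩
      exact σ.2
    · intro h
      exact ⟨⟨π, h⟩, rfl⟩
  rw [h0, irred_iff]
  have h1 : (∃ a, (show NRepN A n from π) a ≠ 0) ↔ ∃ a v w, ⟪v, π.op a w⟫_ℂ ≠ 0 := by
    constructor
    · rintro ⟨a, ha⟩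
      by_contra hcon
      push Not at hcon
      apply ha
      ext w : 1
      have h2 := hcon a (π.op a w) w
      rw [inner_self_eq_zero] at h2
      exact h2
    · rintro ⟨a, v, w, h⟩
      refine ⟨a, fun h2 => h ?_⟩
      have h3 : π.op a w = 0 := by
        show (show NRepN A n from π) a w = 0
        rw [h2]
        rfl
      rw [h3, inner_zero_right]
  rw [h1]
  refine and_congr_right fun _ => ?_
  constructor
  · rintro h k ⟨T, hT1, hT2, i, hi, j, hj, hT3⟩
    have hk0 : (0 : ℝ) < 1 / (k + 1) := by positivity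
    obtain ⟨c, hc⟩ := h T hT2
    rcases hT3 with ⟨hij, h4⟩ | ⟨hi0, hj0, h4⟩
    · rw [hc, inner_smul_right, inner_bvec_ne n hij, mul_zero, norm_zero] at h4
      linarith
    · rw [hc, hc, inner_smul_right, inner_smul_right, inner_bvec_self n hi0,
        inner_bvec_self n hj0, sub_self, norm_zero] at h4
      linarith
  · intro h T hT
    have hpos : 0 < ‖T‖ + 1 := by positivity
    set r : ℂ := ((‖T‖ + 1 : ℝ) : ℂ) with hr
    have hr0 : r ≠ 0 := by
      rw [hr]
      exact_mod_cast hpos.ne'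
    have hT' : ‖r⁻¹ • T‖ ≤ 1 := by
      rw [norm_smul, norm_inv, hr, Complex.norm_real, Real.norm_of_nonneg hpos.le,
        inv_mul_le_one₀ hpos]
      linarith
    have hcomm : ∀ a, (r⁻¹ • T) ∘L π.op a = π.op a ∘L (r⁻¹ • T) := by
      intro a
      have h5 := hT a
      ext v : 1
      have h6 := congrArg (fun S : HSp n →L[ℂ] HSp n => S v) h5
      simp only [ContinuousLinearMap.comp_apply, ContinuousLinearMap.smul_apply, map_smul] at h6 ⊢
      have h7 : T (π.op a v) = π.op a (T v) := h6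
      rw [h7]
    have hbig : ∀ x : ℝ, 0 < x → ∀ m : ℕ, ∃ k : ℕ, m ≤ k ∧ (1 : ℝ) / (k + 1) ≤ x := by
      intro x hx m
      obtain ⟨k, hk⟩ := exists_nat_one_div_lt hx
      refine ⟨max m k, le_max_left _ _, ?_⟩
      refine le_trans ?_ hk.le
      apply one_div_le_one_div_of_le (by positivity)
      have : (k : ℝ) ≤ ((max m k : ℕ) : ℝ) := by exact_mod_cast le_max_right m k
      linarith
    have hsc : ∃ c : ℂ, ∀ v, (r⁻¹ • T) v = c • v := by
      apply scalar_of
      · intro i j hij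
        by_contra h8
        obtain ⟨k, hk1, hk2⟩ := hbig _ (norm_pos_iff.2 h8) (max i j)
        exact h k ⟨r⁻¹ • T, hT', hcomm, i, (le_max_left _ _).trans hk1, j,
          (le_max_right _ _).trans hk1, Or.inl ⟨hij, hk2⟩⟩
      · intro i j hi0 hj0
        by_contra h8
        obtain ⟨k, hk1, hk2⟩ := hbig _ (norm_pos_iff.2 (sub_ne_zero.2 h8)) (max i j)
        exact h k ⟨r⁻¹ • T, hT', hcomm, i, (le_max_left _ _).trans hk1, j,
          (le_max_right _ _).trans hk1, Or.inr ⟨hi0, hj0, hk2⟩⟩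
    obtain ⟨c, hc⟩ := hsc
    refine ⟨r * c, fun v => ?_⟩
    have h9 := hc v
    rw [ContinuousLinearMap.smul_apply] at h9
    rw [mul_smul, ← h9, smul_smul, mul_inv_cancel₀ hr0, one_smul]

theorem gdelta_irr : IsGδ (range (toRep : NIrrN A n → RepT A n)) := by
  have he : range (toRep : NIrrN A n → RepT A n) =
      {π : RepT A n | ∃ a v w, ⟪v, π.op a w⟫_ℂ ≠ 0} ∩
        ⋂ k : ℕ, {π : RepT A n | ∃ T, IsRed k π T}ᶜ := by
    ext π
    rw [irr_iff]
    simp only [mem_inter_iff, mem_iInter, mem_compl_iff, mem_setOf_eq]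
  rw [he]
  refine IsGδ.inter (IsOpen.isGδ ?_) (IsGδ.iInter_of_isOpen fun k => (red_closed k).isOpen_compl)
  have he2 : {π : RepT A n | ∃ a v w, ⟪v, π.op a w⟫_ℂ ≠ 0} =
      ⋃ (a : A) (v : HSp n) (w : HSp n), {π : RepT A n | ⟪v, π.op a w⟫_ℂ ≠ 0} := by
    ext π
    simp only [mem_iUnion, mem_setOf_eq]
  rw [he2]
  refine isOpen_iUnion fun a => isOpen_iUnion fun v => isOpen_iUnion fun w => ?_
  have hc : Continuous fun π : RepT A n => (⟪v, π.op a w⟫_ℂ : ℂ) :=
    continuous_iff_continuousAt.2 fun π => (tendsto_weak id π).1 tendsto_id a v w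
  exact isOpen_compl_singleton.preimage hc

theorem polish_NIrrN (A : Type) [NonUnitalCStarAlgebra A] [SeparableSpace A] (n : Dim) :
    PolishSpace (NIrrN A n) := by
  have := polish_RepT A n
  have : PolishSpace (range (toRep : NIrrN A n → RepT A n)) := polish_gdelta gdelta_irr
  exact (isEmbedding_toRep (A := A) n).toHomeomorph.isClosedEmbedding.polishSpace

end

end H69M
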