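import Pool.Agent.H69M.GoodEx

/-!
# Lim : limits of decreasing sequences of small sets

`Sys.limit`: `V n ∈ 𝒰` nonempty, decreasing, `V (n + 1) ∈ Sm n`. Then there is `x ∈ ⋂ V n`, and every
`W ∈ 𝒰` with `x ∈ W` contains some `V n`. Proof. Pick `y i ∈ V i`; `Sys.complete` gives `x`, with `y i ∈ W`
eventually for every `W ∈ 𝒰`, `x ∈ W`. If `x ∉ V n` then `x ∈ (V n)ᶜ ∈ 𝒰`, so `y i ∉ V n` eventually,
but `y i ∈ V i ⊆ V n` for `i ≥ n`. If `W ∈ 𝒰` contains `x` but no `V n`, pick `w i ∈ V i \ W`; again there is a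
limit `x'`, in all the `V n`. The sequence `y 0, w 1, y 2, w 3, ...` has a limit `x''` as well, and
`x'' = x` and `x'' = x'` because distinct points are separated by members of `𝒰`
(both sets `U` and its complement are in `𝒰`, a sequence cannot be eventually in both). So
`x' = x ∈ W`, hence `w i ∈ W` eventually, contradiction.

`vt_shrink`: `U` is the union of the countable family `{V ∈ 𝒰 | V ⊆ U ∧ P V}`; `vt_sUnion`.

`limit_eqv`: if moreover `x ∈ VT (V n)` for all `n`, the limit point `y` satisfies `Eqv 𝒰 y x` : let `U ∈ 𝒰`, then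
`B = VT U` and its complement are invariant members of `𝒰`. If `y ∈ B` then `V n ⊆ B` for some `n`, and
`x ∈ VT (V n)` gives an element of the orbit of `x` in `V n ⊆ B` (`vt_hit'`), so `x ∈ B`. The same for the
complement.

`exists_limit`: the measurable version. For `a` such that the sequence `A n a` is nonempty, decreasing, small
(`valid`, a measurable condition, as `A n a` takes countably many values, each on a measurable set) let `f a` be the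
limit point of `Sys.limit`, otherwise `f a = x₀`. `f` is measurable: it suffices that preimages of open sets are
measurable, hence (`good_open`) that `f ⁻¹' W` is measurable for `W ∈ 𝒰` : it is
`{a | valid a ∧ ∃ n, A n a ⊆ W}` together with `{a | ¬ valid a}` if `x₀ ∈ W`. `f a = f b` if `A n a = A n b`
for all `n`: define `f a` as a function of the sequence (`Classical.choose`), with `if`.
-/

namespace H69M

open TopologicalSpace MeasureTheory Set Topology Filter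

/-- a sequence `y i ∈ V i` has a limit in all the `V n` -/
theorem Sys.limit_aux {X : Type} {𝒰 : Set (Set X)} {Sm : ℕ → Set (Set X)} (h : Sys 𝒰 Sm)
    (hcompl : ∀ U ∈ 𝒰, Uᶜ ∈ 𝒰)
    (V : ℕ → Set X) (hV : ∀ n, V n ∈ 𝒰) (hanti : Antitone V)
    (hsm : ∀ n, V (n + 1) ∈ Sm n) (y : ℕ → X) (hy : ∀ i, y i ∈ V i) :
    ∃ x, (∀ n, x ∈ V n) ∧ ∀ W ∈ 𝒰, x ∈ W → ∀ᶠ i in atTop, y i ∈ W := by
  obtain ⟨x, hx⟩ := h.complete y (fun n => ⟨V (n + 1), hsm n, by
    filter_upwards [eventually_ge_atTop (n + 1)] with i hi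
    exact hanti hi (hy i)⟩)
  refine ⟨x, fun n => ?_, hx⟩
  by_contra hn
  have h1 := hx (V n)ᶜ (hcompl _ (hV n)) hn
  obtain ⟨i, hi1, hi2⟩ := (h1.and (eventually_ge_atTop n)).exists
  exact hi1 (hanti hi2 (hy i))

theorem Sys.limit {X : Type} {𝒰 : Set (Set X)} {Sm : ℕ → Set (Set X)} (h : Sys 𝒰 Sm)
    (hcompl : ∀ U ∈ 𝒰, Uᶜ ∈ 𝒰) (hsep : ∀ x y : X, x ≠ y → ∃ U ∈ 𝒰, x ∈ U ∧ y ∉ U)
    (V : ℕ → Set X) (hV : ∀ n, V n ∈ 𝒰) (hne : ∀ n, (V n).Nonempty) (hdec : ∀ n, V (n + 1) ⊆ V n)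
    (hsm : ∀ n, V (n + 1) ∈ Sm n) :
    ∃ x, (∀ n, x ∈ V n) ∧ ∀ W ∈ 𝒰, x ∈ W → ∃ n, V n ⊆ W := by
  have hanti : Antitone V := antitone_nat_of_succ_le hdec
  choose y hy using hne
  obtain ⟨x, hx1, hx2⟩ := h.limit_aux hcompl V hV hanti hsm y hy
  refine ⟨x, hx1, fun W hW hxW => ?_⟩
  by_contra hcon
  push Not at hcon
  have hcon' : ∀ n, ∃ w, w ∈ V n ∧ w ∉ W := fun n => Set.not_subset.mp (hcon n)
  choose w hw1 hw2 using hcon'
  obtain ⟨x', hx'1, hx'2⟩ := h.limit_aux hcompl V hV hanti hsm w hw1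
  -- the interleaved sequence
  obtain ⟨x'', -, hx''⟩ := h.limit_aux hcompl V hV hanti hsm
    (fun i => if Even i then y i else w i) (fun i => by
      split_ifs
      · exact hy i
      · exact hw1 i)
  have e1 : x'' = x := by
    by_contra hne
    obtain ⟨U, hU, hxU, hxU'⟩ := hsep x x'' (Ne.symm hne)
    have a1 := hx2 U hU hxU
    have a2 := hx'' Uᶜ (hcompl U hU) hxU'
    obtain ⟨N, hN⟩ := eventually_atTop.mp (a1.and a2)
    have a3 := hN (2 * N) (by omega)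
    rw [if_pos (even_two_mul N)] at a3
    exact a3.2 a3.1
  have e2 : x'' = x' := by
    by_contra hne
    obtain ⟨U, hU, hxU, hxU'⟩ := hsep x' x'' (Ne.symm hne)
    have a1 := hx'2 U hU hxU
    have a2 := hx'' Uᶜ (hcompl U hU) hxU'
    obtain ⟨N, hN⟩ := eventually_atTop.mp (a1.and a2)
    have a3 := hN (2 * N + 1) (by omega)
    rw [if_neg (by simp)] at a3
    exact a3.2 a3.1
  have e3 : x' = x := by rw [← e2, e1]
  have a4 := hx'2 W hW (by rw [e3]; exact hxW)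
  obtain ⟨i, hi⟩ := a4.exists
  exact hw2 i hi

namespace PS

variable (S : PS)

theorem vt_shrink {𝒰 : Set (Set S.X)} (hc : 𝒰.Countable) (P : Set S.X → Prop) {U : Set S.X}
    {x : S.X} (hx : x ∈ S.VT U) (h : ∀ y ∈ U, ∃ V ∈ 𝒰, y ∈ V ∧ V ⊆ U ∧ P V) :
    ∃ V ∈ 𝒰, V ⊆ U ∧ P V ∧ x ∈ S.VT V := by
  have h1 : U ⊆ ⋃₀ {V | V ∈ 𝒰 ∧ V ⊆ U ∧ P V} := by
    intro y hy
    obtain ⟨V, hV, hyV, hVU, hP⟩ := h y hy
    exact ⟨V, ⟨hV, hVU, hP⟩, hyV⟩
  have h2 : ({V | V ∈ 𝒰 ∧ V ⊆ U ∧ P V} : Set (Set S.X)).Countable :=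
    hc.mono fun V hV => hV.1
  obtain ⟨V, ⟨hV, hVU, hP⟩, hxV⟩ := S.vt_sUnion h2 (S.vt_mono h1 hx)
  exact ⟨V, hV, hVU, hP, hxV⟩

theorem limit_eqv {𝒰 : Set (Set S.X)} (hg : S.Good 𝒰) {V : ℕ → Set S.X} {x y : S.X}
    (hx : ∀ n, x ∈ S.VT (V n)) (hy : ∀ W ∈ 𝒰, y ∈ W → ∃ n, V n ⊆ W) : S.Eqv 𝒰 y x := by
  intro U hU
  constructor
  · intro hyU
    obtain ⟨n, hn⟩ := hy (S.VT U) (hg.vt U hU) hyU
    obtain ⟨z, hz1, hz2⟩ := S.vt_hit' (hx n)
    exact (S.vt_iff hz1).mpr (hn hz2)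
  · intro hxU
    by_contra hyU
    obtain ⟨n, hn⟩ := hy (S.VT U)ᶜ (hg.compl _ (hg.vt U hU)) hyU
    obtain ⟨z, hz1, hz2⟩ := S.vt_hit' (hx n)
    exact hn hz2 ((S.vt_iff hz1).mp hxU)

theorem meas_prop {α : Type} [MeasurableSpace α] {𝒰 : Set (Set S.X)} (hc : 𝒰.Countable)
    (A : ℕ → α → Set S.X) (hA : ∀ n a, A n a ∈ 𝒰)
    (hm : ∀ n, ∀ V : Set S.X, MeasurableSet {a | A n a = V}) (P : Set S.X → Prop) (n : ℕ) :
    MeasurableSet {a | P (A n a)} := by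
  have h : {a | P (A n a)} = ⋃ V ∈ {V | V ∈ 𝒰 ∧ P V}, {a | A n a = V} := by
    ext a
    simp only [Set.mem_ofPred_eq, Set.mem_iUnion, exists_prop]
    constructor
    · intro ha
      exact ⟨A n a, ⟨hA n a, ha⟩, rfl⟩
    · rintro ⟨V, ⟨_, hV⟩, rfl⟩
      exact hV
  rw [h]
  exact MeasurableSet.biUnion (hc.mono fun V hV => hV.1) fun V _ => hm n V

theorem meas_prop2 {α : Type} [MeasurableSpace α] {𝒰 : Set (Set S.X)} (hc : 𝒰.Countable)
    (A : ℕ → α → Set S.X) (hA : ∀ n a, A n a ∈ 𝒰)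
    (hm : ∀ n, ∀ V : Set S.X, MeasurableSet {a | A n a = V}) (P : Set S.X → Set S.X → Prop)
    (n m : ℕ) : MeasurableSet {a | P (A n a) (A m a)} := by
  have h : {a | P (A n a) (A m a)} = ⋃ V ∈ 𝒰, ({a | A n a = V} ∩ {a | P V (A m a)}) := by
    ext a
    simp only [Set.mem_ofPred_eq, Set.mem_iUnion, exists_prop, Set.mem_inter_iff]
    constructor
    · intro ha
      exact ⟨A n a, hA n a, rfl, ha⟩
    · rintro ⟨V, _, rfl, hV⟩
      exact hV
  rw [h]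
  exact MeasurableSet.biUnion hc fun V _ => (hm n V).inter
    (S.meas_prop hc A hA hm (fun W => P V W) m)

theorem exists_limit {α : Type} [MeasurableSpace α] {𝒰 : Set (Set S.X)} (hg : S.Good 𝒰)
    {Sm : ℕ → Set (Set S.X)} (hS : Sys 𝒰 Sm) (x₀ : S.X) (A : ℕ → α → Set S.X)
    (hA : ∀ n a, A n a ∈ 𝒰) (hm : ∀ n, ∀ V : Set S.X, MeasurableSet {a | A n a = V}) :
    ∃ f : α → S.X, Measurable f ∧ (∀ a b, (∀ n, A n a = A n b) → f a = f b) ∧
      ∀ a, (∀ n, (A n a).Nonempty) → (∀ n, A (n + 1) a ⊆ A n a) →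
        (∀ n, A (n + 1) a ∈ Sm n) →
        (∀ n, f a ∈ A n a) ∧ ∀ W ∈ 𝒰, f a ∈ W → ∃ n, A n a ⊆ W := by
  classical
  have key : ∀ s : ℕ → Set S.X, ∃ x : S.X, ((∀ n, s n ∈ 𝒰) ∧ (∀ n, (s n).Nonempty) ∧
      (∀ n, s (n + 1) ⊆ s n) ∧ (∀ n, s (n + 1) ∈ Sm n) →
        (∀ n, x ∈ s n) ∧ ∀ W ∈ 𝒰, x ∈ W → ∃ n, s n ⊆ W) ∧
      (¬ ((∀ n, s n ∈ 𝒰) ∧ (∀ n, (s n).Nonempty) ∧
      (∀ n, s (n + 1) ⊆ s n) ∧ (∀ n, s (n + 1) ∈ Sm n)) → x = x₀) := by
    intro s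
    by_cases hs : (∀ n, s n ∈ 𝒰) ∧ (∀ n, (s n).Nonempty) ∧
      (∀ n, s (n + 1) ⊆ s n) ∧ (∀ n, s (n + 1) ∈ Sm n)
    · obtain ⟨x, hx⟩ := hS.limit hg.compl (fun x y hxy => S.good_sep hg hxy) s hs.1 hs.2.1
        hs.2.2.1 hs.2.2.2
      exact ⟨x, fun _ => hx, fun hn => absurd hs hn⟩
    · exact ⟨x₀, fun h => absurd h hs, fun _ => rfl⟩
  choose lim hlim1 hlim2 using key
  set f : α → S.X := fun a => lim (fun n => A n a) with hf
  set Val : Set α := {a | (∀ n, (A n a).Nonempty) ∧ (∀ n, A (n + 1) a ⊆ A n a) ∧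
    ∀ n, A (n + 1) a ∈ Sm n} with hVal
  have hval1 : ∀ a ∈ Val, (∀ n, f a ∈ A n a) ∧ ∀ W ∈ 𝒰, f a ∈ W → ∃ n, A n a ⊆ W := by
    intro a ha
    exact hlim1 _ ⟨fun n => hA n a, ha.1, ha.2.1, ha.2.2⟩
  have hval2 : ∀ a, a ∉ Val → f a = x₀ := by
    intro a ha
    exact hlim2 _ fun h => ha ⟨h.2.1, h.2.2.1, h.2.2.2⟩
  have hvalm : MeasurableSet Val := by
    have e : Val = (⋂ n, {a | (A n a).Nonempty}) ∩ ((⋂ n, {a | A (n + 1) a ⊆ A n a}) ∩
        ⋂ n, {a | A (n + 1) a ∈ Sm n}) := by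
      ext a
      simp only [hVal, Set.mem_ofPred_eq, Set.mem_inter_iff, Set.mem_iInter]
    rw [e]
    refine (MeasurableSet.iInter fun n => ?_).inter ((MeasurableSet.iInter fun n => ?_).inter
      (MeasurableSet.iInter fun n => ?_))
    · exact S.meas_prop hg.countable A hA hm (fun V => V.Nonempty) n
    · exact S.meas_prop2 hg.countable A hA hm (fun V W => V ⊆ W) (n + 1) n
    · exact S.meas_prop hg.countable A hA hm (fun V => V ∈ Sm n) (n + 1)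
  have hpre : ∀ W ∈ 𝒰, MeasurableSet (f ⁻¹' W) := by
    intro W hW
    have e : f ⁻¹' W = (Val ∩ ⋃ n, {a | A n a ⊆ W}) ∪ (Valᶜ ∩ {_a | x₀ ∈ W}) := by
      ext a
      simp only [Set.mem_preimage, Set.mem_union, Set.mem_inter_iff, Set.mem_iUnion,
        Set.mem_ofPred_eq, Set.mem_compl_iff]
      by_cases ha : a ∈ Val
      · constructor
        · intro h
          exact Or.inl ⟨ha, (hval1 a ha).2 W hW h⟩
        · rintro (⟨_, n, hn⟩ | ⟨h, _⟩)
          · exact hn ((hval1 a ha).1 n)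
          · exact absurd ha h
      · rw [hval2 a ha]
        constructor
        · intro h
          exact Or.inr ⟨ha, h⟩
        · rintro (⟨h, _⟩ | ⟨_, h⟩)
          · exact absurd h ha
          · exact h
    rw [e]
    refine (hvalm.inter (MeasurableSet.iUnion fun n => ?_)).union (hvalm.compl.inter
      (MeasurableSet.const _))
    exact S.meas_prop hg.countable A hA hm (fun V => V ⊆ W) n
  refine ⟨f, ?_, ?_, ?_⟩
  · apply measurable_of_isOpen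
    intro O hO
    rw [S.good_open hg hO, Set.preimage_iUnion₂]
    refine MeasurableSet.biUnion (hg.countable.mono fun V hV => hV.1) fun V hV => hpre V hV.1
  · intro a b hab
    simp only [hf]
    congr 1
    funext n
    exact hab n
  · intro a h1 h2 h3
    exact hval1 a ⟨h1, h2, h3⟩

end PS

end H69M
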