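import Pool.Agent.H69M.Strong
import Pool.Agent.H69M.UPol

/-!
# RepPol : the space of all representations on `HSp n` is Polish

Let `x : ℕ → A` and `d : ℕ → HSp n` be dense (`separable_HSp`). `J π = fun (i, j) => π.op (x i) (d j)`, a map into the Polish
space `ℕ × ℕ → HSp n` (countable product; `HSp n` is complete and separable), is a closed embedding.
* inducing: if `J (p i) → J π` along a filter then `(p i).op a v → π.op a v` for all `a`, `v`, since
  `‖π.op a v - π.op (x k) (d j)‖ ≤ ‖a - x k‖ ‖v‖ + ‖x k‖ ‖v - d j‖` for every representation `π` (`op_norm_le`); `tendsto_strong`.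
  (`isInducing_iff_nhds` or `IsInducing` via `le_antisymm`; the filter may be `comap J (𝓝 (J π))`.)
* injective: continuity of `(a, v) ↦ π.op a v`.
* closed range: let `y` be in the closure of the range: `y = lim J (p m)` for a sequence `p m`
  (`mem_closure_iff_seq_limit`, the product is metrizable). For all `a`, `v` the sequence `(p m).op a v` is Cauchy (the same
  estimate), let `π a v` be its limit. It is linear in `v`, `‖π a v‖ ≤ ‖a‖ ‖v‖`; `a ↦ π a` is linear, multiplicative
  (`(p m).op a ((p m).op b v)` converges to `π a (π b v)`, as `(p m).op a` are uniformly bounded) and star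
  preserving (inner products). So `π` is a representation and `J π = y`.
-/

namespace H69M

open TopologicalSpace MeasureTheory Set Topology Filter
open MBS DX
open scoped InnerProductSpace

noncomputable section

section

variable {A : Type} [NonUnitalCStarAlgebra A] {n : Dim}

private theorem op_sub' (π : RepT A n) (a b : A) : π.op (a - b) = π.op a - π.op b :=
  map_sub (show A →⋆ₙₐ[ℂ] (HSp n →L[ℂ] HSp n) from π) a b

private theorem op_add' (π : RepT A n) (a b : A) : π.op (a + b) = π.op a + π.op b :=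
  map_add (show A →⋆ₙₐ[ℂ] (HSp n →L[ℂ] HSp n) from π) a b

private theorem op_smul' (π : RepT A n) (c : ℂ) (a : A) : π.op (c • a) = c • π.op a :=
  map_smul (show A →⋆ₙₐ[ℂ] (HSp n →L[ℂ] HSp n) from π) c a

private theorem op_est (π : RepT A n) (a b : A) (v w : HSp n) :
    ‖π.op a v - π.op b w‖ ≤ ‖a - b‖ * ‖v‖ + ‖b‖ * ‖v - w‖ := by
  have e : π.op a v - π.op b w = π.op (a - b) v + π.op b (v - w) := by
    rw [op_sub', map_sub]
    simp only [sub_apply]
    abel
  rw [e]
  exact (norm_add_le _ _).trans (add_le_add (op_norm_le _ _ _) (op_norm_le _ _ _))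

variable [SeparableSpace A]

private theorem exists_approx (a : A) (v : HSp n) {ε : ℝ} (hε : 0 < ε) :
    ∃ i j, ‖a - denseSeq A i‖ * ‖v‖ + ‖denseSeq A i‖ * ‖v - denseSeq (HSp n) j‖ < ε := by
  have h1 : 0 < ε / 2 / (‖v‖ + 1) := by positivity
  obtain ⟨i, hi⟩ := (denseRange_denseSeq A).exists_dist_lt a h1
  have h2 : 0 < ε / 2 / (‖denseSeq A i‖ + 1) := by positivity
  obtain ⟨j, hj⟩ := (denseRange_denseSeq (HSp n)).exists_dist_lt v h2
  rw [dist_eq_norm] at hi hj
  refine ⟨i, j, ?_⟩
  have h3 : ‖a - denseSeq A i‖ * ‖v‖ ≤ ‖a - denseSeq A i‖ * (‖v‖ + 1) :=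
    mul_le_mul_of_nonneg_left (by linarith) (norm_nonneg _)
  have h4 : ‖a - denseSeq A i‖ * (‖v‖ + 1) < ε / 2 := by
    rwa [lt_div_iff₀ (by positivity)] at hi
  have h5 : ‖denseSeq A i‖ * ‖v - denseSeq (HSp n) j‖ ≤
      ‖v - denseSeq (HSp n) j‖ * (‖denseSeq A i‖ + 1) := by
    nlinarith [norm_nonneg (denseSeq A i), norm_nonneg (v - denseSeq (HSp n) j)]
  have h6 : ‖v - denseSeq (HSp n) j‖ * (‖denseSeq A i‖ + 1) < ε / 2 := by
    rwa [lt_div_iff₀ (by positivity)] at hj
  linarith

private theorem tendsto_of_dense {ι : Type*} {l : Filter ι} (p : ι → RepT A n) (π : RepT A n)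
    (h : ∀ i j, Tendsto (fun m => (p m).op (denseSeq A i) (denseSeq (HSp n) j)) l
      (𝓝 (π.op (denseSeq A i) (denseSeq (HSp n) j)))) (a : A) (v : HSp n) :
    Tendsto (fun m => (p m).op a v) l (𝓝 (π.op a v)) := by
  rw [Metric.tendsto_nhds]
  intro ε hε
  obtain ⟨i, j, hij⟩ := exists_approx a v (show 0 < ε / 3 by positivity)
  filter_upwards [Metric.tendsto_nhds.1 (h i j) (ε / 3) (by positivity)] with m hm
  have h1 := op_est (p m) a (denseSeq A i) v (denseSeq (HSp n) j)
  have h2 := op_est π a (denseSeq A i) v (denseSeq (HSp n) j)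
  rw [← dist_eq_norm] at h1 h2
  have h3 := dist_triangle4 ((p m).op a v) ((p m).op (denseSeq A i) (denseSeq (HSp n) j))
    (π.op (denseSeq A i) (denseSeq (HSp n) j)) (π.op a v)
  rw [dist_comm (π.op (denseSeq A i) (denseSeq (HSp n) j)) (π.op a v)] at h3
  linarith

private theorem cauchy_of_dense (p : ℕ → RepT A n) (y : ℕ × ℕ → HSp n)
    (h : ∀ i j, Tendsto (fun m => (p m).op (denseSeq A i) (denseSeq (HSp n) j)) atTop
      (𝓝 (y (i, j)))) (a : A) (v : HSp n) : CauchySeq (fun m => (p m).op a v) := by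
  rw [Metric.cauchySeq_iff']
  intro ε hε
  obtain ⟨i, j, hij⟩ := exists_approx a v (show 0 < ε / 3 by positivity)
  obtain ⟨N, hN⟩ := Metric.cauchySeq_iff'.1 (h i j).cauchySeq (ε / 3) (by positivity)
  refine ⟨N, fun m hm => ?_⟩
  have h1 := op_est (p m) a (denseSeq A i) v (denseSeq (HSp n) j)
  have h2 := op_est (p N) a (denseSeq A i) v (denseSeq (HSp n) j)
  rw [← dist_eq_norm] at h1 h2
  have h3 := dist_triangle4 ((p m).op a v) ((p m).op (denseSeq A i) (denseSeq (HSp n) j))
    ((p N).op (denseSeq A i) (denseSeq (HSp n) j)) ((p N).op a v)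
  rw [dist_comm ((p N).op (denseSeq A i) (denseSeq (HSp n) j)) ((p N).op a v)] at h3
  have h4 := hN m hm
  linarith

omit [SeparableSpace A] in
private theorem exists_limit (p : ℕ → RepT A n)
    (h : ∀ a v, CauchySeq (fun m => (p m).op a v)) :
    ∃ π : RepT A n, ∀ a v, Tendsto (fun m => (p m).op a v) atTop (𝓝 (π.op a v)) := by
  choose L hL using fun (a : A) (v : HSp n) => cauchySeq_tendsto_of_complete (h a v)
  have hadd : ∀ a v w, L a (v + w) = L a v + L a w := by
    intro a v w
    refine tendsto_nhds_unique (hL a (v + w)) ?_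
    have := (hL a v).add (hL a w)
    refine this.congr fun m => ?_
    rw [map_add]
  have hsmul : ∀ a (c : ℂ) v, L a (c • v) = c • L a v := by
    intro a c v
    refine tendsto_nhds_unique (hL a (c • v)) ?_
    refine ((hL a v).const_smul c).congr fun m => ?_
    rw [map_smul]
  have hbd : ∀ a v, ‖L a v‖ ≤ ‖a‖ * ‖v‖ := by
    intro a v
    exact le_of_tendsto (hL a v).norm (Eventually.of_forall fun m => op_norm_le (p m) a v)
  have hadd' : ∀ a b v, L (a + b) v = L a v + L b v := by
    intro a b v
    refine tendsto_nhds_unique (hL (a + b) v) ?_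
    refine ((hL a v).add (hL b v)).congr fun m => ?_
    rw [op_add', add_apply]
  have hsmul' : ∀ (c : ℂ) a v, L (c • a) v = c • L a v := by
    intro c a v
    refine tendsto_nhds_unique (hL (c • a) v) ?_
    refine ((hL a v).const_smul c).congr fun m => ?_
    rw [op_smul', smul_apply]
  have hmul : ∀ a b v, L (a * b) v = L a (L b v) := by
    intro a b v
    refine tendsto_nhds_unique (hL (a * b) v) ?_
    have h1 : Tendsto (fun m => (p m).op a ((p m).op b v - L b v)) atTop (𝓝 0) := by
      refine squeeze_zero_norm (fun m => op_norm_le (p m) a _) ?_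
      have h2 : Tendsto (fun m => (p m).op b v - L b v) atTop (𝓝 0) := by
        have := (hL b v).sub_const (L b v)
        rwa [sub_self] at this
      have h3 := h2.norm.const_mul ‖a‖
      rwa [norm_zero, mul_zero] at h3
    have h4 := h1.add (hL a (L b v))
    rw [zero_add] at h4
    refine h4.congr fun m => ?_
    rw [op_mul, map_sub, sub_add_cancel]
  have hstar : ∀ a v w, ⟪L (star a) v, w⟫_ℂ = ⟪v, L a w⟫_ℂ := by
    intro a v w
    have h1 : Tendsto (fun m => ⟪(p m).op (star a) v, w⟫_ℂ) atTop (𝓝 ⟪L (star a) v, w⟫_ℂ) :=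
      (hL (star a) v).inner tendsto_const_nhds
    have h2 : Tendsto (fun m => ⟪v, (p m).op a w⟫_ℂ) atTop (𝓝 ⟪v, L a w⟫_ℂ) :=
      tendsto_const_nhds.inner (hL a w)
    refine tendsto_nhds_unique h1 (h2.congr fun m => ?_)
    rw [op_star]
  let T : A → (HSp n →L[ℂ] HSp n) := fun a =>
    LinearMap.mkContinuous ⟨⟨L a, hadd a⟩, hsmul a⟩ ‖a‖ (hbd a)
  have hT : ∀ a v, T a v = L a v := fun _ _ => rfl
  let ρ : A →⋆ₙₐ[ℂ] (HSp n →L[ℂ] HSp n) :=
    { toFun := T
      map_smul' := by
        intro c a
        ext v : 1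
        exact hsmul' c a v
      map_zero' := by
        ext v : 1
        have := hsmul' 0 0 v
        rw [zero_smul, zero_smul] at this
        exact this
      map_add' := by
        intro a b
        ext v : 1
        exact hadd' a b v
      map_mul' := by
        intro a b
        ext v : 1
        exact hmul a b v
      map_star' := by
        intro a
        rw [ContinuousLinearMap.star_eq_adjoint, ContinuousLinearMap.eq_adjoint_iff]
        intro v w
        exact hstar a v w }
  exact ⟨ρ, hL⟩

omit [SeparableSpace A] in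
private theorem ext_op {π ρ : RepT A n} (h : ∀ a v, π.op a v = ρ.op a v) : π = ρ := by
  have h1 : ∀ a, (show A →⋆ₙₐ[ℂ] (HSp n →L[ℂ] HSp n) from π) a =
      (show A →⋆ₙₐ[ℂ] (HSp n →L[ℂ] HSp n) from ρ) a := by
    intro a
    ext v : 1
    exact h a v
  exact DFunLike.ext (F := A →⋆ₙₐ[ℂ] (HSp n →L[ℂ] HSp n)) π ρ h1

end

theorem polish_RepT (A : Type) [NonUnitalCStarAlgebra A] [SeparableSpace A] (n : Dim) :
    PolishSpace (RepT A n) := by
  have : SecondCountableTopology (HSp n) := UniformSpace.secondCountable_of_separable _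
  have : PolishSpace (HSp n) := inferInstance
  let J : RepT A n → (ℕ × ℕ → HSp n) := fun π ij =>
    π.op (denseSeq A ij.1) (denseSeq (HSp n) ij.2)
  have hcont : Continuous J := by
    rw [continuous_iff_continuousAt]
    intro π
    rw [ContinuousAt, tendsto_pi_nhds]
    intro ij
    exact (tendsto_strong (fun ρ : RepT A n => ρ) π).1 tendsto_id _ _
  have hind : IsInducing J := by
    rw [isInducing_iff_nhds]
    intro π
    refine le_antisymm (hcont.continuousAt.le_comap) ?_
    have h1 : Tendsto (fun ρ : RepT A n => ρ) (comap J (𝓝 (J π))) (𝓝 π) := by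
      rw [tendsto_strong]
      refine tendsto_of_dense _ _ fun i j => ?_
      have h2 : Tendsto J (comap J (𝓝 (J π))) (𝓝 (J π)) := tendsto_comap
      exact tendsto_pi_nhds.1 h2 (i, j)
    exact h1
  have hinj : Function.Injective J := by
    intro π ρ h
    refine ext_op fun a v => ?_
    have h1 : Tendsto (fun _ : Unit => π.op a v) (pure ()) (𝓝 (ρ.op a v)) := by
      refine tendsto_of_dense (fun _ : Unit => π) ρ (fun i j => ?_) a v
      have h2 := congrFun h (i, j)
      have h3 : π.op (denseSeq A i) (denseSeq (HSp n) j) =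
        ρ.op (denseSeq A i) (denseSeq (HSp n) j) := h2
      rw [h3]
      exact tendsto_const_nhds
    exact tendsto_nhds_unique tendsto_const_nhds h1
  have hcl : IsClosed (range J) := by
    rw [← closure_subset_iff_isClosed]
    intro y hy
    obtain ⟨s, hs, hsy⟩ := mem_closure_iff_seq_limit.1 hy
    choose p hp using hs
    have h1 : ∀ i j, Tendsto (fun m => (p m).op (denseSeq A i) (denseSeq (HSp n) j)) atTop
        (𝓝 (y (i, j))) := by
      intro i j
      have h2 := tendsto_pi_nhds.1 hsy (i, j)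
      refine h2.congr fun m => ?_
      rw [← hp m]
    obtain ⟨π, hπ⟩ := exists_limit p (cauchy_of_dense p y h1)
    refine ⟨π, ?_⟩
    funext ij
    exact tendsto_nhds_unique (hπ _ _) (h1 ij.1 ij.2)
  have hce : IsClosedEmbedding J := ⟨⟨hind, hinj⟩, hcl⟩
  exact hce.polishSpace

end

end H69M
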