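import Pool.Agent.H69M.CDefs

/-!
# Strong : pointwise weak convergence of representations is pointwise strong convergence

`tendsto_weak`: by definition of the topology (`nhds_induced`, `tendsto_pi_nhds`).
`tendsto_strong` (→): `‖p i a v - π a v‖² = ‖p i a v‖² - 2 Re ⟪π a v, p i a v⟫ + ‖π a v‖²` and
`‖p i a v‖² = ⟪p i a v, p i a v⟫ = ⟪v, p i (star a * a) v⟫ → ⟪v, π (star a * a) v⟫ = ‖π a v‖²`
(`map_mul`, `map_star`, `ContinuousLinearMap.adjoint_inner_right` etc.), and `⟪π a v, p i a v⟫ → ‖π a v‖²`. (←) inner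
products are continuous.
`op_norm_le`: `‖π.op a v‖ ≤ ‖a‖ * ‖v‖` : `NonUnitalStarAlgHom.norm_apply_le` (contractivity of *-homomorphisms) and
`ContinuousLinearMap.le_opNorm`.
-/

namespace H69M

open TopologicalSpace MeasureTheory Set Topology Filter
open MBS DX
open scoped InnerProductSpace

noncomputable section

variable {A : Type} [NonUnitalCStarAlgebra A] {n : Dim}

theorem op_norm_le (π : RepT A n) (a : A) (v : HSp n) : ‖π.op a v‖ ≤ ‖a‖ * ‖v‖ := by
  refine ((π.op a).le_opNorm v).trans ?_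
  refine mul_le_mul_of_nonneg_right ?_ (norm_nonneg v)
  exact NonUnitalStarAlgHom.norm_apply_le (show A →⋆ₙₐ[ℂ] (HSp n →L[ℂ] HSp n) from π) a

theorem op_mul (π : RepT A n) (a b : A) (v : HSp n) : π.op (a * b) v = π.op a (π.op b v) := by
  have h : π.op (a * b) = π.op a * π.op b :=
    map_mul (show A →⋆ₙₐ[ℂ] (HSp n →L[ℂ] HSp n) from π) a b
  rw [h]
  rfl

theorem op_star (π : RepT A n) (a : A) (v w : HSp n) :
    ⟪π.op (star a) v, w⟫_ℂ = ⟪v, π.op a w⟫_ℂ := by
  have h : π.op (star a) = ContinuousLinearMap.adjoint (π.op a) :=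
    map_star (show A →⋆ₙₐ[ℂ] (HSp n →L[ℂ] HSp n) from π) a
  rw [h]
  exact ContinuousLinearMap.adjoint_inner_left (π.op a) w v

theorem tendsto_weak {ι : Type*} {l : Filter ι} (p : ι → RepT A n) (π : RepT A n) :
    Tendsto p l (𝓝 π) ↔
      ∀ a v w, Tendsto (fun i => ⟪v, (p i).op a w⟫_ℂ) l (𝓝 ⟪v, π.op a w⟫_ℂ) := by
  have hind : IsInducing (fun (π : RepT A n) (p : A × HSp n × HSp n) =>
      (⟪p.2.1, π.op p.1 p.2.2⟫_ℂ : ℂ)) := ⟨rfl⟩
  rw [hind.tendsto_nhds_iff, tendsto_pi_nhds]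
  constructor
  · intro h a v w
    exact h (a, v, w)
  · intro h q
    exact h q.1 q.2.1 q.2.2

private theorem op_norm_sq (π : RepT A n) (a : A) (v : HSp n) :
    ((‖π.op a v‖ ^ 2 : ℝ) : ℂ) = ⟪v, π.op (star a * a) v⟫_ℂ := by
  rw [op_mul, ← op_star, star_star, inner_self_eq_norm_sq_to_K]
  push_cast
  rfl

theorem tendsto_strong {ι : Type*} {l : Filter ι} (p : ι → RepT A n) (π : RepT A n) :
    Tendsto p l (𝓝 π) ↔ ∀ a v, Tendsto (fun i => (p i).op a v) l (𝓝 (π.op a v)) := by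
  rw [tendsto_weak]
  constructor
  · intro h a v
    rw [tendsto_iff_norm_sub_tendsto_zero]
    have h1 : Tendsto (fun i => ‖(p i).op a v‖ ^ 2) l (𝓝 (‖π.op a v‖ ^ 2)) := by
      have h2 := h (star a * a) v v
      simp only [← op_norm_sq] at h2
      have h3 := (Complex.continuous_re.tendsto _).comp h2
      simpa only [Function.comp_def, Complex.ofReal_re] using h3
    have h4 : Tendsto (fun i => (⟪π.op a v, (p i).op a v⟫_ℂ).re) l (𝓝 (‖π.op a v‖ ^ 2)) := by
      have h5 := (Complex.continuous_re.tendsto _).comp (h a (π.op a v) v)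
      have h6 : (⟪π.op a v, π.op a v⟫_ℂ).re = ‖π.op a v‖ ^ 2 := by
        rw [inner_self_eq_norm_sq_to_K]
        norm_cast
      rw [h6] at h5
      exact h5
    have h7 : Tendsto (fun i => ‖(p i).op a v - π.op a v‖ ^ 2) l (𝓝 0) := by
      have h8 : ∀ i, ‖(p i).op a v - π.op a v‖ ^ 2 =
          ‖(p i).op a v‖ ^ 2 - 2 * (⟪π.op a v, (p i).op a v⟫_ℂ).re + ‖π.op a v‖ ^ 2 := by
        intro i
        rw [@norm_sub_sq ℂ]
        have h9 : RCLike.re ⟪(p i).op a v, π.op a v⟫_ℂ = (⟪π.op a v, (p i).op a v⟫_ℂ).re := by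
          rw [← inner_conj_symm]
          exact Complex.conj_re _
        rw [h9]
      simp only [h8]
      have h10 := (h1.sub (h4.const_mul 2)).add_const (‖π.op a v‖ ^ 2)
      have h11 : ‖π.op a v‖ ^ 2 - 2 * ‖π.op a v‖ ^ 2 + ‖π.op a v‖ ^ 2 = 0 := by ring
      rw [h11] at h10
      exact h10
    have h12 := (Real.continuous_sqrt.tendsto _).comp h7
    simpa only [Function.comp_def, Real.sqrt_sq (norm_nonneg _), Real.sqrt_zero] using h12
  · intro h a v w
    exact (tendsto_const_nhds (x := v)).inner (h a w)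

end

end H69M
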