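import Pool.Agent.H69M.Lim

/-!
# Union : increasing unions of good algebras; threads of types are realized

`sys_iUnion`. Let `Sm m` be a system for `𝒰 m`. Put `Sm' k = {V | ∀ m ≤ k, V ∈ Sm m k}`. Second statement: for
`k ≤ n`, `U ∈ 𝒰 n`, `y ∈ U`: for `m ≤ k` there is `V m ∈ 𝒰 m ⊆ 𝒰 n` with `y ∈ V m`, `V m ∈ Sm m k` (`fine` for `univ`); take
`V = U ∩ ⋂ m ≤ k, V m ∈ 𝒰 n` (finite intersection, `down`). It implies `fine`
(`U ∈ 𝒰 i`, use `n = max i k`). `down`: clear. `anti`: `V ∈ Sm' (k+1)` implies `V ∈ Sm m (k + 1) ⊆ Sm m k` for `m ≤ k`.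
`complete`: if `y` is Cauchy for `Sm'` it is Cauchy for each `Sm m` (`Sm' k ⊆ Sm m k ⊆ Sm m n` for
`k = max m n`), so it has a limit `x m` for `𝒰 m`. Both `x 0` and `x m` are limits for `𝒰 0 ⊆ 𝒰 m`,
and `𝒰 0` separates points (`good_sep`), so `x m = x 0`.

`good_iUnion`: all other properties are clear (`countable_iUnion`, two members are in a common
`𝒰 n`).

`thread`: use the system of `sys_iUnion`. Choose recursively `V n ∈ 𝒰 n` with `x n ∈ VT (V n)`, `V (n+1) ⊆ V n`,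
`V (n + 1) ∈ Sm' n`: `V 0 = univ`; given `V n`, `x (n + 1) ∈ VT (V n)` because `Eqv (𝒰 n) (x n) (x (n+1))` and
`V n ∈ 𝒰 n`; `vt_shrink` for the algebra `𝒰 (n + 1)`, and the second statement of `sys_iUnion`. The
`V n` are nonempty (`vt_hit'`). `Sys.limit` for `⋃ n, 𝒰 n` gives `y ∈ ⋂ V n`. `Eqv (𝒰 n) y (x n)`: let `U ∈ 𝒰 n`,
`B = VT U ∈ 𝒰 n`, invariant. If `y ∈ B` then `V m ⊆ B` for some `m`, we may take `m ≥ n`; `x m ∈ VT (V m)` so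
the orbit of `x m` meets `V m ⊆ B`, `x m ∈ B`, and `Eqv (𝒰 n) (x n) (x m)` (the algebras increase),
so `x n ∈ B`. The same for `Bᶜ`.
-/

namespace H69M

open TopologicalSpace MeasureTheory Set Topology Filter

namespace PS

variable (S : PS)

theorem sys_iUnion (𝒰 : ℕ → Set (Set S.X)) (hg : ∀ n, S.Good (𝒰 n))
    (hmono : ∀ n, 𝒰 n ⊆ 𝒰 (n + 1)) :
    ∃ Sm, Sys (⋃ n, 𝒰 n) Sm ∧
      ∀ n k, k ≤ n → ∀ U ∈ 𝒰 n, ∀ y ∈ U, ∃ V ∈ 𝒰 n, y ∈ V ∧ V ⊆ U ∧ V ∈ Sm k := by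
  classical
  have hm : Monotone 𝒰 := monotone_nat_of_le_succ hmono
  choose Sm hS using fun n => (hg n).sys
  have hSanti : ∀ m, Antitone (Sm m) := fun m => antitone_nat_of_succ_le (hS m).anti
  have key : ∀ n k, k ≤ n → ∀ U ∈ 𝒰 n, ∀ y ∈ U,
      ∃ V ∈ 𝒰 n, y ∈ V ∧ V ⊆ U ∧ ∀ m ≤ k, V ∈ Sm m k := by
    intro n k hk U hU y hy
    have aux : ∀ j, j ≤ k + 1 → ∃ V ∈ 𝒰 n, y ∈ V ∧ V ⊆ U ∧ ∀ m < j, V ∈ Sm m k := by
      intro j
      induction j with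
      | zero => exact fun _ => ⟨U, hU, hy, subset_rfl, fun m hm => absurd hm (Nat.not_lt_zero m)⟩
      | succ j ih =>
        intro hj
        obtain ⟨V, hV, hyV, hVU, hVS⟩ := ih (by omega)
        obtain ⟨W, hW, hyW, -, hWS⟩ := (hS j).fine k univ (hg j).univ y trivial
        refine ⟨V ∩ W, (hg n).inter V hV W (hm (by omega : j ≤ n) hW), ⟨hyV, hyW⟩,
          inter_subset_left.trans hVU, fun m hmj => ?_⟩
        rcases Nat.lt_succ_iff_lt_or_eq.1 hmj with h1 | h1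
        · exact (hS m).down k _ _ inter_subset_left (hVS m h1)
        · subst h1
          exact (hS m).down k _ _ inter_subset_right hWS
    obtain ⟨V, hV, hyV, hVU, hVS⟩ := aux (k + 1) le_rfl
    exact ⟨V, hV, hyV, hVU, fun m hmk => hVS m (by omega)⟩
  refine ⟨fun k => {V | ∀ m ≤ k, V ∈ Sm m k}, ⟨?_, ?_, ?_, ?_⟩, key⟩
  · intro n U hU y hy
    obtain ⟨i, hi⟩ := mem_iUnion.1 hU
    obtain ⟨V, hV, hyV, hVU, hVS⟩ := key (max i n) n (le_max_right _ _) U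
      (hm (le_max_left _ _) hi) y hy
    exact ⟨V, mem_iUnion.2 ⟨_, hV⟩, hyV, hVU, hVS⟩
  · intro n U V hUV hV m hmn
    exact (hS m).down n U V hUV (hV m hmn)
  · intro n V hV m hmn
    exact (hS m).anti n (hV m (by omega))
  · intro y hy
    have h1 : ∀ m, ∃ x, ∀ W ∈ 𝒰 m, x ∈ W → ∀ᶠ i in atTop, y i ∈ W := by
      intro m
      refine (hS m).complete y fun n => ?_
      obtain ⟨V, hV, hVy⟩ := hy (max m n)
      exact ⟨V, hSanti m (le_max_right m n) (hV m (le_max_left _ _)), hVy⟩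
    choose x hx using h1
    have h2 : ∀ m, x m = x 0 := by
      intro m
      by_contra hne
      obtain ⟨U, hU, h3, h4⟩ := S.good_sep (hg 0) hne
      have h5 := hx m U (hm (Nat.zero_le m) hU) h3
      have h6 := hx 0 Uᶜ ((hg 0).compl U hU) h4
      obtain ⟨i, hi1, hi2⟩ := (h5.and h6).exists
      exact hi2 hi1
    refine ⟨x 0, fun W hW hxW => ?_⟩
    obtain ⟨m, hWm⟩ := mem_iUnion.1 hW
    exact hx m W hWm (by rw [h2 m]; exact hxW)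

theorem good_iUnion (𝒰 : ℕ → Set (Set S.X)) (hg : ∀ n, S.Good (𝒰 n))
    (hmono : ∀ n, 𝒰 n ⊆ 𝒰 (n + 1)) : S.Good (⋃ n, 𝒰 n) := by
  have hm : Monotone 𝒰 := monotone_nat_of_le_succ hmono
  refine ⟨countable_iUnion fun n => (hg n).countable, ?_, mem_iUnion.2 ⟨0, (hg 0).univ⟩,
    ?_, ?_, ?_, ?_, ?_, ?_⟩
  · intro U hU
    obtain ⟨n, hn⟩ := mem_iUnion.1 hU
    exact (hg n).meas U hn
  · intro U hU
    obtain ⟨n, hn⟩ := mem_iUnion.1 hU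
    exact mem_iUnion.2 ⟨n, (hg n).compl U hn⟩
  · intro U hU V hV
    obtain ⟨n, hn⟩ := mem_iUnion.1 hU
    obtain ⟨k, hk⟩ := mem_iUnion.1 hV
    exact mem_iUnion.2 ⟨max n k, (hg _).inter U (hm (le_max_left _ _) hn) V
      (hm (le_max_right _ _) hk)⟩
  · intro U hU
    obtain ⟨n, hn⟩ := mem_iUnion.1 hU
    exact mem_iUnion.2 ⟨n, (hg n).vt U hn⟩
  · intro U hU g hgD
    obtain ⟨n, hn⟩ := mem_iUnion.1 hU
    exact mem_iUnion.2 ⟨n, (hg n).tr U hn g hgD⟩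
  · intro O hO x hx
    obtain ⟨U, hU, h1, h2⟩ := (hg 0).base O hO x hx
    exact ⟨U, mem_iUnion.2 ⟨0, hU⟩, h1, h2⟩
  · obtain ⟨Sm, hSm, -⟩ := S.sys_iUnion 𝒰 hg hmono
    exact ⟨Sm, hSm⟩

theorem thread (𝒰 : ℕ → Set (Set S.X)) (hg : ∀ n, S.Good (𝒰 n))
    (hmono : ∀ n, 𝒰 n ⊆ 𝒰 (n + 1)) (x : ℕ → S.X)
    (hx : ∀ n, S.Eqv (𝒰 n) (x n) (x (n + 1))) : ∃ y, ∀ n, S.Eqv (𝒰 n) y (x n) := by
  classical
  have hm : Monotone 𝒰 := monotone_nat_of_le_succ hmono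
  obtain ⟨Sm, hSm, key⟩ := S.sys_iUnion 𝒰 hg hmono
  have hG := S.good_iUnion 𝒰 hg hmono
  have step : ∀ (n : ℕ) (V : {V : Set S.X // V ∈ 𝒰 n ∧ x n ∈ S.VT V}),
      ∃ W : {V : Set S.X // V ∈ 𝒰 (n + 1) ∧ x (n + 1) ∈ S.VT V}, W.1 ⊆ V.1 ∧ W.1 ∈ Sm n := by
    rintro n ⟨V, hV, hxV⟩
    have h1 : x (n + 1) ∈ S.VT V := (hx n V hV).1 hxV
    obtain ⟨W, hW, hWV, hWS, hxW⟩ := S.vt_shrink (hg (n + 1)).countable (fun W => W ∈ Sm n) h1
      (key (n + 1) n (Nat.le_succ n) V (hmono n hV))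
    exact ⟨⟨W, hW, hxW⟩, hWV, hWS⟩
  choose nxt hnxt1 hnxt2 using step
  obtain ⟨V, hV⟩ : ∃ V : ∀ n, {V : Set S.X // V ∈ 𝒰 n ∧ x n ∈ S.VT V},
      ∀ n, V (n + 1) = nxt n (V n) :=
    ⟨fun n => Nat.rec (motive := fun n => {V : Set S.X // V ∈ 𝒰 n ∧ x n ∈ S.VT V})
      ⟨univ, (hg 0).univ, S.vt_univ (x 0)⟩ (fun n V => nxt n V) n, fun _ => rfl⟩
  have hdec : ∀ n, (V (n + 1)).1 ⊆ (V n).1 := fun n => by
    rw [hV n]
    exact hnxt1 n (V n)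
  have hsm : ∀ n, (V (n + 1)).1 ∈ Sm n := fun n => by
    rw [hV n]
    exact hnxt2 n (V n)
  have hanti : Antitone fun n => (V n).1 := antitone_nat_of_succ_le hdec
  obtain ⟨y, -, hy2⟩ := hSm.limit hG.compl (fun a b hab => S.good_sep hG hab) (fun n => (V n).1)
    (fun n => mem_iUnion.2 ⟨n, (V n).2.1⟩) (fun n => by
      obtain ⟨z, -, hz⟩ := S.vt_hit' (V n).2.2
      exact ⟨z, hz⟩) hdec hsm
  have hxx : ∀ n j, S.Eqv (𝒰 n) (x n) (x (n + j)) := by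
    intro n j
    induction j with
    | zero => exact Eqv.refl S _ _
    | succ j ih => exact Eqv.trans S ih (Eqv.mono S (hm (Nat.le_add_right n j)) (hx (n + j)))
  refine ⟨y, fun n U hU => ?_⟩
  constructor
  · intro hyU
    obtain ⟨m, hm1⟩ := hy2 (S.VT U) (mem_iUnion.2 ⟨n, (hg n).vt U hU⟩) hyU
    obtain ⟨z, hz1, hz2⟩ := S.vt_hit' (V (n + m)).2.2
    have h1 : z ∈ S.VT U := hm1 (hanti (Nat.le_add_left m n) hz2)
    exact (hxx n m U hU).2 ((S.vt_iff hz1).2 h1)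
  · intro hxU
    by_contra hyU
    obtain ⟨m, hm1⟩ := hy2 (S.VT U)ᶜ
      (mem_iUnion.2 ⟨n, (hg n).compl _ ((hg n).vt U hU)⟩) hyU
    obtain ⟨z, hz1, hz2⟩ := S.vt_hit' (V (n + m)).2.2
    have h1 : z ∉ S.VT U := hm1 (hanti (Nat.le_add_left m n) hz2)
    exact h1 ((S.vt_iff hz1).1 ((hxx n m U hU).1 hxU))

end PS

end H69M
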